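import Pool.Agent.Walk26.Q0

/-!
# Keyed cells of table 0: checks of the data (generated)
-/

set_option autoImplicit false
set_option maxRecDepth 100000

open LWG Walk26.P0

namespace Walk26.P0

theorem hokD : q.okD (n + 1) = true := by decide +kernel

theorem hKA : ∀ c < S.T, okKA S q Dt.n0 NA KAf c = true := by decide +kernel

theorem hKB : ∀ c < S.T, okKB S q Dt.n0 NB KBf c = true := by decide +kernel

theorem hkp : ∀ f < Walk26.P0.S.T, ∀ f' < Walk26.P0.S.T, okPKs q (Walk26.P0.pats f f') (kpf f f') = true := by decide +kernel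

theorem hCA : ∀ c < S.T, okCA S q Dt.n0 NA CA c = true := by decide +kernel

theorem hCB : ∀ c < S.T, okCB S q Dt.n0 NB CB c = true := by decide +kernel

theorem hkx : okPKs q (vps gN gP 15 ((.negSucc 0) - (.ofNat 2) - S.b * ((n + 1 : ℕ) : ℤ))) kx = true := by decide +kernel

end Walk26.P0
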