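import Pool.Agent.Walk26.T0_0

/-!
# Keyed cells of table 0: the trees (generated)
-/

set_option autoImplicit false
set_option maxRecDepth 100000

open LWG Walk26.P0

namespace Walk26.P0

def tu : KT := .node (nat_lit 1461191169) (.node (nat_lit 395772416) u0 u1) u2

theorem tu_ok : tu.okU q Dt sp := KT.okU_node (KT.okU_node u0_ok u1_ok) u2_ok

def tr : KT := .node (nat_lit 23666996545847296) (.node (nat_lit 6071511949705473) t0 t1) t2

theorem tr_ok : tr.ok q Dt pats sp := KT.ok_node (KT.ok_node t0_ok t1_ok) t2_ok

end Walk26.P0
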