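import Pool.Agent.LWG.Chunk
import Pool.Agent.LWG.KBlkE
import Pool.Agent.Walk26.R0

/-!
# Loops of table 0, part 0 (generated)
-/

set_option autoImplicit false
set_option maxRecDepth 100000

open LWG Walk26.P0

namespace Walk26.P0

theorem cP_0_0 : patK q tu tr (n + 1) kp_0_0 KA_0 KB_0 = true := by decide +kernel

theorem cP_0_1 : patK q tu tr (n + 1) kp_0_1 KA_0 KB_1 = true := by decide +kernel

theorem cP_1_0 : patK q tu tr (n + 1) kp_1_0 KA_1 KB_0 = true := by decide +kernel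

theorem cP_1_1 : patK q tu tr (n + 1) kp_1_1 KA_1 KB_1 = true := by decide +kernel

theorem cX_0 : patK q tu tr (n + 1) ((kx.drop (0 * 14)).take 14) CA CB = true := by decide +kernel

theorem cS_0_0_0 : kevSA Dt pats Dm gN gP (S.kltrB NB) (n + 1) 0 (((S.kltrA NA 0).drop (0 * 6)).take 6) = true := by decide +kernel

theorem cS_0_0_1 : kevSA Dt pats Dm gN gP (S.kltrB NB) (n + 1) 0 (((S.kltrA NA 0).drop (1 * 6)).take 6) = true := by decide +kernel

theorem cS_0_0_2 : kevSA Dt pats Dm gN gP (S.kltrB NB) (n + 1) 0 (((S.kltrA NA 0).drop (2 * 6)).take 6) = true := by decide +kernel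

theorem cS_0_0_3 : kevSA Dt pats Dm gN gP (S.kltrB NB) (n + 1) 0 (((S.kltrA NA 0).drop (3 * 6)).take 6) = true := by decide +kernel

theorem cS_0_0_4 : kevSA Dt pats Dm gN gP (S.kltrB NB) (n + 1) 0 (((S.kltrA NA 0).drop (4 * 6)).take 6) = true := by decide +kernel

theorem cS_0_1_0 : kevSA Dt pats Dm gN gP (S.kltrB NB) (n + 1) 1 (((S.kltrA NA 0).drop (0 * 6)).take 6) = true := by decide +kernel

theorem cS_0_1_1 : kevSA Dt pats Dm gN gP (S.kltrB NB) (n + 1) 1 (((S.kltrA NA 0).drop (1 * 6)).take 6) = true := by decide +kernel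

theorem cS_0_1_2 : kevSA Dt pats Dm gN gP (S.kltrB NB) (n + 1) 1 (((S.kltrA NA 0).drop (2 * 6)).take 6) = true := by decide +kernel

theorem cS_0_1_3 : kevSA Dt pats Dm gN gP (S.kltrB NB) (n + 1) 1 (((S.kltrA NA 0).drop (3 * 6)).take 6) = true := by decide +kernel

theorem cS_0_1_4 : kevSA Dt pats Dm gN gP (S.kltrB NB) (n + 1) 1 (((S.kltrA NA 0).drop (4 * 6)).take 6) = true := by decide +kernel

theorem cS_1_0_0 : kevSA Dt pats Dm gN gP (S.kltrB NB) (n + 1) 0 (((S.kltrA NA 1).drop (0 * 6)).take 6) = true := by decide +kernel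

theorem cS_1_0_1 : kevSA Dt pats Dm gN gP (S.kltrB NB) (n + 1) 0 (((S.kltrA NA 1).drop (1 * 6)).take 6) = true := by decide +kernel

end Walk26.P0
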