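import Pool.Agent.LWG.KMainJ
import Pool.Agent.Walk26.H0
import Pool.Agent.Walk26.K0_0
import Pool.Agent.Walk26.K0_1

/-!
# Checks of table 0 (generated)
-/

set_option autoImplicit false
set_option maxRecDepth 100000

open LWG Walk26.P0

namespace Walk26.P0

theorem hchd : ∀ c < S.T, ∀ r < S.L, S.chd c r < Walk26.P0.S.T := by decide +kernel

theorem hkokG : S.kokG Kr 4 = true := by decide +kernel

theorem hkokC : ∀ c < S.T, S.kokC Kr 4 c = true := by decide +kernel

theorem hokR : ∀ c < S.T, S.okR (.negSucc 0) (.ofNat 2) c = true := by decide +kernel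

theorem hsmall : ∀ c < Walk26.P0.S.T, ∀ c' < Walk26.P0.S.T, smallPE Walk26.P0.pats (S.b * (n + 2) - ((.ofNat 2) - (.negSucc 0))) c c' = true := by decide +kernel

theorem hsgn : okSgn Kr.g gN gP = true := by decide +kernel

theorem hdat : KDatOK S Kr 0 Dt where
  tie := ⟨by decide, rfl, rfl, by decide +kernel, by decide +kernel⟩
  sol := by decide +kernel
  top := by decide +kernel
  pos := by decide +kernel
  lv := by decide +kernel
  rv := by decide +kernel

theorem hdatM : KDatMOK S Kr Dt (fun _ _ => []) NA NB Dm where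
  tie := ⟨by decide, rfl, by decide +kernel, by decide +kernel, by decide +kernel⟩
  sol := by decide +kernel
  ln := by decide +kernel
  ln' := by decide +kernel
  na := by decide +kernel
  nb := by decide +kernel
  lv := by decide +kernel
  rv := by decide +kernel
  ps := fun _ _ _ _ => rfl

theorem hnz : ∀ c < S.T, S.kokNz Kr.g Dt.n0 5 NA NB c = true := by decide +kernel

theorem hnum : (farD Dt Dm NA NB gN gP n (.ofNat 0) (.ofNat 3) (.ofNat 2) (.negSucc 1) (.ofNat 2)).num S = true := by decide +kernel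

theorem hrng : ∀ c < S.T, ∀ i < S.L, (farD Dt Dm NA NB gN gP n (.ofNat 0) (.ofNat 3) (.ofNat 2) (.negSucc 1) (.ofNat 2)).rng S c i = true := by decide +kernel

theorem hzer : ∀ c < S.T, (farD Dt Dm NA NB gN gP n (.ofNat 0) (.ofNat 3) (.ofNat 2) (.negSucc 1) (.ofNat 2)).zer c = true := by decide +kernel

theorem hfar : ∀ c < S.T, ∀ i < S.L, (farD Dt Dm NA NB gN gP n (.ofNat 0) (.ofNat 3) (.ofNat 2) (.negSucc 1) (.ofNat 2)).chkE c (S.off c i)
    ((NA c).getD i []) ((NB c).getD (i + 1) []) = true := by decide +kernel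

theorem hcX : patK q tu tr (n + 1) kx CA CB = true := by
  refine patK_of 14 1 (by decide +kernel) fun t ht => ?_
  interval_cases t
  exacts [cX_0]

theorem cS_0_0 : kevSA Dt pats Dm gN gP (S.kltrB NB) (n + 1) 0 (S.kltrA NA 0) = true := by
  refine kevSA_of 6 5 (by decide +kernel) fun t ht => ?_
  interval_cases t
  exacts [cS_0_0_0, cS_0_0_1, cS_0_0_2, cS_0_0_3, cS_0_0_4]

theorem cS_0_1 : kevSA Dt pats Dm gN gP (S.kltrB NB) (n + 1) 1 (S.kltrA NA 0) = true := by
  refine kevSA_of 6 5 (by decide +kernel) fun t ht => ?_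
  interval_cases t
  exacts [cS_0_1_0, cS_0_1_1, cS_0_1_2, cS_0_1_3, cS_0_1_4]

theorem cS_1_0 : kevSA Dt pats Dm gN gP (S.kltrB NB) (n + 1) 0 (S.kltrA NA 1) = true := by
  refine kevSA_of 6 5 (by decide +kernel) fun t ht => ?_
  interval_cases t
  exacts [cS_1_0_0, cS_1_0_1, cS_1_0_2, cS_1_0_3, cS_1_0_4]

theorem cS_1_1 : kevSA Dt pats Dm gN gP (S.kltrB NB) (n + 1) 1 (S.kltrA NA 1) = true := by
  refine kevSA_of 6 5 (by decide +kernel) fun t ht => ?_
  interval_cases t
  exacts [cS_1_1_0, cS_1_1_1, cS_1_1_2, cS_1_1_3, cS_1_1_4]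

theorem hcP : ∀ f < Walk26.P0.S.T, ∀ f' < Walk26.P0.S.T, patK q tu tr (n + 1) (kpf f f') (KAf f) (KBf f') = true := by
  intro f hf f' hf'
  have hf : f < 2 := hf
  have hf' : f' < 2 := hf'
  interval_cases f
  · interval_cases f'
    exacts [cP_0_0, cP_0_1]
  · interval_cases f'
    exacts [cP_1_0, cP_1_1]

theorem hcS : ∀ c < S.T, ∀ c' < S.T, kevSA Dt pats Dm gN gP (S.kltrB NB) (n + 1) c' (S.kltrA NA c) = true := by
  intro c hc c' hc'
  have hc : c < 2 := hc
  have hc' : c' < 2 := hc'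
  interval_cases c
  · interval_cases c'
    exacts [cS_0_0, cS_0_1]
  · interval_cases c'
    exacts [cS_1_0, cS_1_1]

theorem hbl : ∀ c < S.T, S.chkBlE Walk26.P0.pats Dt.n0 NB c = true := by
  intro c hc
  have hc : c < 2 := hc
  interval_cases c
  exacts [bl_0, bl_1]

/-- the keyed data -/
def Qd : KDat := ⟨q, tu, tr, KAf, KBf, kpf, CA, CB, kx, 15⟩

/-- all checks of the table -/
theorem chk : KChkJ S Walk26.P0.S Kr pats Walk26.P0.pats 4 (.negSucc 0) (.ofNat 2) 0 Dt Dm 5 NA NB Qd gN gP n sp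
    (.ofNat 0) (.ofNat 3) (.ofNat 2) (.negSucc 1) (.ofNat 2) where
  L0 := by decide
  b0 := by decide
  m0 := rfl
  chd := hchd
  kokG := hkokG
  kokC := hkokC
  bl := hbl
  okR := hokR
  small := hsmall
  sgn := hsgn
  dat := hdat
  datM := hdatM
  nz := hnz
  okD := hokD
  qb := rfl
  tu := tu_ok
  tr := tr_ok
  KA := hKA
  KB := hKB
  kp := hkp
  cP := hcP
  CA := hCA
  CB := hCB
  kx := hkx
  m := by decide +kernel
  cX := hcX
  cS := hcS
  num := hnum
  rng := hrng
  zer := hzer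
  far := hfar

theorem step : StepI S Walk26.P0.S Kr pats Walk26.P0.pats := chk.step

end Walk26.P0
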