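import Pool.Agent.Walk26.Fin

/-!
# A level of `n` pseudolines with `c * n ^ (log 26 / log 13)` vertices (generated)
-/

set_option autoImplicit false
set_option maxRecDepth 100000

open LWG Finset LevelLower LevelPseudo LevelWords

namespace Walk26

theorem exp_eq : ((∏ p ∈ range 1, Qf p : ℕ) : ℝ) ^ (Real.log 26 / Real.log 13) =
    ((∏ p ∈ range 1, (Sf p).L : ℕ) : ℝ) := by
  have h1 : ∏ p ∈ range 1, Qf p = 13 := by decide +kernel
  have h2 : ∏ p ∈ range 1, (Sf p).L = 26 := by decide +kernel
  rw [h1, h2, Real.log_div_log]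
  push_cast
  exact Real.rpow_logb (by norm_num) (by norm_num) (by norm_num)

theorem main_exact : ∃ c : ℝ, 0 < c ∧ ∃ n₀ : ℕ, ∀ n ≥ n₀,
    (∃ f : Fin n → ℝ → ℝ, (∀ i, Continuous (f i)) ∧
      (∀ i j, i ≠ j → ∃ x, Crosses (f i) (f j) x) ∧
      ∃ k < n, c * (n : ℝ) ^ (Real.log 26 / Real.log 13) ≤ psiT f k) ∧
    ∀ s ≥ 1, c * (n : ℝ) ^ (Real.log 26 / Real.log 13) ≤ Psi s n := by
  refine lines_stepI (P := 1) (S := Sf) (K := Kf) (pats := pf) (g := P0.Kr.g) (Q := Qf) (w := 2)
    (c := 0) (by decide) ?_ (by decide +kernel) (by decide +kernel) steps (by decide +kernel) (by decide +kernel)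
    (by decide +kernel) ?_ ?_ (by decide +kernel) exp_eq (by positivity)
  · intro p hp
    interval_cases p
    all_goals decide +kernel
  · intro p hp
    interval_cases p
    all_goals decide +kernel
  · intro p hp
    interval_cases p
    all_goals decide +kernel

end Walk26
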