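import Pool.Agent.Walk26.C0

/-!
# The lines (generated)
-/

set_option autoImplicit false
set_option maxRecDepth 100000

open LWG Finset LevelLower LevelPseudo LevelWords

namespace Walk26

def Sf : ℕ → Tab
  | _ => P0.S

def Kf : ℕ → Ker
  | _ => P0.Kr

def pf : ℕ → (ℕ → ℕ → List PatE)
  | _ => P0.pats

def Qf : ℕ → ℕ
  | _ => 13

theorem steps : ∀ p < 1, StepI (Sf p) (Sf ((p + 1) % 1)) (Kf p) (pf p) (pf ((p + 1) % 1)) := by
  intro p hp
  interval_cases p
  exacts [P0.step]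

theorem main : ∃ n₀ : ℕ, ∀ n ≥ n₀,
    (∃ f : Fin n → ℝ → ℝ, (∀ i, Continuous (f i)) ∧
      (∀ i j, i ≠ j → ∃ x, Crosses (f i) (f j) x) ∧
      ∃ k < n, (n : ℝ) ^ (((503 : ℕ) : ℝ) / (396 : ℕ)) ≤ psiT f k) ∧
    ∀ s ≥ 1, (n : ℝ) ^ (((503 : ℕ) : ℝ) / (396 : ℕ)) ≤ Psi s n := by
  refine lines_stepI_rat (P := 1) (S := Sf) (K := Kf) (pats := pf) (g := P0.Kr.g) (Q := Qf) (w := 2)
    (c := 0) (by decide) ?_ (by decide +kernel) (by decide +kernel) steps (by decide +kernel) (by decide +kernel)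
    (by decide +kernel) ?_ ?_ (by decide) (by decide +kernel)
  · intro p hp
    interval_cases p
    all_goals decide +kernel
  · intro p hp
    interval_cases p
    all_goals decide +kernel
  · intro p hp
    interval_cases p
    all_goals decide +kernel

end Walk26
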