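import Pool.Agent.LWG.Pat
import Pool.Agent.LWG.Ref2
import Pool.Agent.LWG.PatE
import Pool.Agent.LWG.EvT
import Pool.Agent.LWG.Ker
import Pool.Agent.LWG.Chunk

/-!
# Table with a kernel: data (generated)
-/

set_option autoImplicit false

namespace Walk26.P0

open LWG

def blkL : List (List (ℤ × ℕ)) := [[(.negSucc 0, 1), (.negSucc 0, 0), (.negSucc 0, 1), (.negSucc 0, 0), (.ofNat 0, 0), (.ofNat 0, 1), (.ofNat 0, 0), (.ofNat 1, 0), (.ofNat 1, 1), (.ofNat 0, 1), (.ofNat 0, 0), (.ofNat 1, 0), (.ofNat 1, 1), (.ofNat 0, 1), (.ofNat 0, 0), (.ofNat 1, 0), (.ofNat 1, 1), (.ofNat 0, 1), (.ofNat 0, 0), (.ofNat 1, 0), (.ofNat 1, 1), (.ofNat 1, 0), (.ofNat 2, 0), (.ofNat 2, 1), (.ofNat 2, 0), (.ofNat 2, 1)],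
  [(.ofNat 2, 0), (.ofNat 2, 1), (.ofNat 2, 0), (.ofNat 2, 1), (.ofNat 1, 1), (.ofNat 1, 0), (.ofNat 1, 1), (.ofNat 0, 1), (.ofNat 0, 0), (.ofNat 1, 0), (.ofNat 1, 1), (.ofNat 0, 1), (.ofNat 0, 0), (.ofNat 1, 0), (.ofNat 1, 1), (.ofNat 0, 1), (.ofNat 0, 0), (.ofNat 1, 0), (.ofNat 1, 1), (.ofNat 0, 1), (.ofNat 0, 0), (.ofNat 0, 1), (.negSucc 0, 1), (.negSucc 0, 0), (.negSucc 0, 1), (.negSucc 0, 0)]]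
def stL : List (List ℤ) := [[],
  []]
def nxtL : List (List ℕ) := [[],
  []]
def S : Tab := ⟨2, 26, 2, 0, .ofNat 0, [.ofNat 4, .ofNat 5, .ofNat 4], fun c => blkL.getD c [], fun c => stL.getD c [],
  fun c => nxtL.getD c []⟩
def Kr : Ker := ⟨[.ofNat 1], .ofNat 0, [.ofNat 4, .ofNat 5, .ofNat 4]⟩
def cs : ℤ → List ℤ
  | .ofNat 0 => [.ofNat 4, .ofNat 4]
  | _ => [.ofNat 5]
def cs' : ℤ → List ℤ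
  | .ofNat 0 => [.ofNat 4, .ofNat 4]
  | _ => [.ofNat 5]
def K : Co := ⟨.ofNat 2, .ofNat 0, cs⟩
def K' : Co := ⟨.ofNat 2, .negSucc 0, cs'⟩
def sgL : List (List (List (Option Sv))) := [[[none],
    [none],
    [some ⟨[.ofNat 5, .negSucc 3], .ofNat 20, []⟩],
    [some ⟨[.ofNat 5, .negSucc 3], .ofNat 20, []⟩],
    [some ⟨[.ofNat 5, .negSucc 3], .ofNat 20, []⟩],
    [some ⟨[.ofNat 5, .negSucc 3], .ofNat 20, []⟩]],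
  [[],
    [],
    [],
    [],
    [],
    []]]
def sg : Sol := fun r k => (sgL.getD r.toNat []).getD k []
def sg'L : List (List (List (Option Sv))) := [[[none],
    [none],
    [some ⟨[.ofNat 5, .negSucc 3], .ofNat 20, []⟩],
    [some ⟨[.ofNat 5, .negSucc 3], .ofNat 20, []⟩],
    [some ⟨[.ofNat 5, .negSucc 3], .ofNat 20, []⟩],
    [some ⟨[.ofNat 5, .negSucc 3], .ofNat 20, []⟩]],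
  [[],
    [],
    [],
    [],
    [],
    []]]
def sg' : Sol := fun r k => (sg'L.getD r.toNat []).getD k []
def patL0 : List (List PatE) := [[⟨.negSucc 1, .negSucc 1, [.ex (.ofNat 1), .ex (.negSucc 1)]⟩,
    ⟨.negSucc 1, .negSucc 1, [.ex (.ofNat 1), .ex (.negSucc 0)]⟩,
    ⟨.negSucc 1, .negSucc 1, [.ex (.ofNat 2), .ex (.negSucc 0)]⟩,
    ⟨.negSucc 0, .negSucc 1, [.le (.ofNat 0), .ex (.ofNat 0)]⟩,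
    ⟨.negSucc 0, .negSucc 1, [.le (.ofNat 0), .ex (.ofNat 1)]⟩,
    ⟨.negSucc 0, .negSucc 1, [.le (.ofNat 2), .ex (.negSucc 0)]⟩,
    ⟨.negSucc 0, .negSucc 0, [.ex (.negSucc 0), .ge (.ofNat 0)]⟩,
    ⟨.negSucc 0, .negSucc 0, [.ex (.ofNat 0), .ge (.ofNat 0)]⟩,
    ⟨.negSucc 0, .negSucc 0, [.ex (.ofNat 1), .ge (.negSucc 1)]⟩,
    ⟨.ofNat 0, .negSucc 1, [.le (.ofNat 0), .ex (.ofNat 0)]⟩,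
    ⟨.ofNat 0, .negSucc 1, [.le (.ofNat 1), .ex (.negSucc 0)]⟩,
    ⟨.ofNat 0, .negSucc 1, [.le (.ofNat 2), .ex (.negSucc 1)]⟩,
    ⟨.ofNat 0, .negSucc 0, [.le (.ofNat 1), .ex (.ofNat 0)]⟩,
    ⟨.ofNat 0, .negSucc 0, [.ex (.ofNat 0), .ge (.negSucc 0)]⟩,
    ⟨.ofNat 0, .ofNat 0, [.ex (.ofNat 0), .ge (.ofNat 0)]⟩,
    ⟨.ofNat 0, .ofNat 0, [.ex (.ofNat 1), .ge (.negSucc 0)]⟩,
    ⟨.ofNat 0, .ofNat 0, [.ex (.ofNat 2), .ge (.negSucc 1)]⟩,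
    ⟨.ofNat 1, .negSucc 0, [.le (.ofNat 1), .ex (.negSucc 0)]⟩,
    ⟨.ofNat 1, .ofNat 0, [.ex (.ofNat 1), .ge (.negSucc 0)]⟩],
  [⟨.negSucc 1, .negSucc 1, [.ex (.ofNat 1), .ex (.negSucc 0)]⟩,
    ⟨.negSucc 1, .negSucc 1, [.ex (.ofNat 2), .ex (.negSucc 0)]⟩,
    ⟨.negSucc 0, .negSucc 1, [.le (.ofNat 0), .ex (.ofNat 0)]⟩,
    ⟨.negSucc 0, .negSucc 1, [.le (.ofNat 1), .ex (.negSucc 0)]⟩,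
    ⟨.negSucc 0, .negSucc 1, [.le (.ofNat 2), .ex (.negSucc 1)]⟩,
    ⟨.negSucc 0, .negSucc 0, [.ex (.ofNat 0), .ge (.negSucc 0)]⟩,
    ⟨.ofNat 0, .negSucc 1, [.le (.ofNat 1), .ex (.negSucc 0)]⟩,
    ⟨.ofNat 0, .negSucc 1, [.le (.ofNat 2), .ex (.negSucc 1)]⟩,
    ⟨.ofNat 0, .negSucc 1, [.le (.ofNat 3), .ex (.negSucc 2)]⟩,
    ⟨.ofNat 0, .negSucc 0, [.le (.negSucc 0), .ex (.ofNat 0)]⟩,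
    ⟨.ofNat 0, .negSucc 0, [.le (.ofNat 1), .ex (.negSucc 0)]⟩,
    ⟨.ofNat 0, .negSucc 0, [.ex (.negSucc 0), .ge (.ofNat 0)]⟩,
    ⟨.ofNat 0, .ofNat 0, [.ex (.ofNat 1), .ge (.ofNat 0)]⟩,
    ⟨.ofNat 1, .negSucc 0, [.le (.ofNat 0), .ex (.ofNat 0)]⟩,
    ⟨.ofNat 1, .negSucc 0, [.le (.ofNat 1), .ex (.negSucc 0)]⟩,
    ⟨.ofNat 1, .negSucc 0, [.le (.ofNat 2), .ex (.negSucc 1)]⟩,
    ⟨.ofNat 1, .ofNat 0, [.ex (.ofNat 0), .ge (.negSucc 0)]⟩,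
    ⟨.ofNat 2, .ofNat 0, [.ex (.ofNat 1), .ex (.negSucc 0)]⟩,
    ⟨.ofNat 2, .ofNat 0, [.ex (.ofNat 2), .ex (.negSucc 0)]⟩]]
def patL1 : List (List PatE) := [[⟨.negSucc 1, .negSucc 1, [.ex (.ofNat 1), .ex (.negSucc 1)]⟩,
    ⟨.negSucc 1, .negSucc 1, [.ex (.ofNat 1), .ex (.negSucc 0)]⟩,
    ⟨.negSucc 0, .negSucc 1, [.le (.ofNat 1), .ex (.ofNat 0)]⟩,
    ⟨.negSucc 0, .negSucc 0, [.ex (.ofNat 0), .ge (.ofNat 0)]⟩,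
    ⟨.negSucc 0, .negSucc 0, [.ex (.ofNat 1), .ge (.negSucc 0)]⟩,
    ⟨.negSucc 0, .negSucc 0, [.ex (.ofNat 2), .ge (.negSucc 1)]⟩,
    ⟨.ofNat 0, .negSucc 1, [.le (.ofNat 0), .ex (.negSucc 0)]⟩,
    ⟨.ofNat 0, .negSucc 0, [.le (.ofNat 0), .ex (.ofNat 1)]⟩,
    ⟨.ofNat 0, .negSucc 0, [.ex (.ofNat 0), .ge (.ofNat 1)]⟩,
    ⟨.ofNat 0, .negSucc 0, [.ex (.ofNat 1), .ge (.negSucc 0)]⟩,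
    ⟨.ofNat 0, .ofNat 0, [.ex (.ofNat 1), .ge (.negSucc 0)]⟩,
    ⟨.ofNat 0, .ofNat 0, [.ex (.ofNat 2), .ge (.negSucc 1)]⟩,
    ⟨.ofNat 0, .ofNat 0, [.ex (.ofNat 3), .ge (.negSucc 2)]⟩,
    ⟨.ofNat 1, .negSucc 0, [.le (.ofNat 1), .ex (.ofNat 0)]⟩,
    ⟨.ofNat 1, .ofNat 0, [.ex (.ofNat 0), .ge (.ofNat 0)]⟩,
    ⟨.ofNat 1, .ofNat 0, [.ex (.ofNat 1), .ge (.negSucc 0)]⟩,
    ⟨.ofNat 1, .ofNat 0, [.ex (.ofNat 2), .ge (.negSucc 1)]⟩,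
    ⟨.ofNat 2, .ofNat 0, [.ex (.ofNat 1), .ex (.negSucc 1)]⟩,
    ⟨.ofNat 2, .ofNat 0, [.ex (.ofNat 1), .ex (.negSucc 0)]⟩],
  [⟨.negSucc 0, .negSucc 1, [.le (.ofNat 1), .ex (.negSucc 0)]⟩,
    ⟨.negSucc 0, .negSucc 0, [.ex (.ofNat 1), .ge (.negSucc 0)]⟩,
    ⟨.ofNat 0, .negSucc 1, [.le (.ofNat 0), .ex (.ofNat 0)]⟩,
    ⟨.ofNat 0, .negSucc 1, [.le (.ofNat 1), .ex (.negSucc 0)]⟩,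
    ⟨.ofNat 0, .negSucc 1, [.le (.ofNat 2), .ex (.negSucc 1)]⟩,
    ⟨.ofNat 0, .negSucc 0, [.le (.ofNat 1), .ex (.ofNat 0)]⟩,
    ⟨.ofNat 0, .negSucc 0, [.ex (.ofNat 0), .ge (.negSucc 0)]⟩,
    ⟨.ofNat 0, .ofNat 0, [.ex (.ofNat 0), .ge (.ofNat 0)]⟩,
    ⟨.ofNat 0, .ofNat 0, [.ex (.ofNat 1), .ge (.negSucc 0)]⟩,
    ⟨.ofNat 0, .ofNat 0, [.ex (.ofNat 2), .ge (.negSucc 1)]⟩,
    ⟨.ofNat 1, .negSucc 0, [.le (.ofNat 0), .ex (.ofNat 0)]⟩,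
    ⟨.ofNat 1, .negSucc 0, [.le (.ofNat 0), .ex (.ofNat 1)]⟩,
    ⟨.ofNat 1, .negSucc 0, [.le (.ofNat 2), .ex (.negSucc 0)]⟩,
    ⟨.ofNat 1, .ofNat 0, [.ex (.negSucc 0), .ge (.ofNat 0)]⟩,
    ⟨.ofNat 1, .ofNat 0, [.ex (.ofNat 0), .ge (.ofNat 0)]⟩,
    ⟨.ofNat 1, .ofNat 0, [.ex (.ofNat 1), .ge (.negSucc 1)]⟩,
    ⟨.ofNat 2, .ofNat 0, [.ex (.ofNat 1), .ex (.negSucc 1)]⟩,
    ⟨.ofNat 2, .ofNat 0, [.ex (.ofNat 1), .ex (.negSucc 0)]⟩,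
    ⟨.ofNat 2, .ofNat 0, [.ex (.ofNat 2), .ex (.negSucc 0)]⟩]]
def patL : List (List (List PatE)) := [patL0, patL1]
def pats (c c' : ℕ) : List PatE := (patL.getD c []).getD c' []
def NAL : List (List (List ℤ)) := [[[.ofNat 4, .ofNat 5, .ofNat 0, .negSucc 4, .negSucc 3], [.ofNat 3, .ofNat 6, .ofNat 0, .negSucc 4, .negSucc 3], [.ofNat 2, .ofNat 7, .ofNat 0, .negSucc 4, .negSucc 3], [.ofNat 1, .ofNat 8, .ofNat 0, .negSucc 4, .negSucc 3], [.ofNat 0, .ofNat 9, .ofNat 0, .negSucc 4, .negSucc 3], [.ofNat 0, .ofNat 8, .ofNat 1, .negSucc 4, .negSucc 3], [.ofNat 0, .ofNat 7, .ofNat 2, .negSucc 4, .negSucc 3], [.ofNat 0, .ofNat 6, .ofNat 3, .negSucc 4, .negSucc 3], [.ofNat 0, .ofNat 6, .ofNat 2, .negSucc 3, .negSucc 3], [.ofNat 0, .ofNat 6, .ofNat 1, .negSucc 2,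 .negSucc 3], [.ofNat 0, .ofNat 5, .ofNat 2, .negSucc 2, .negSucc 3], [.ofNat 0, .ofNat 4, .ofNat 3, .negSucc 2, .negSucc 3], [.ofNat 0, .ofNat 4, .ofNat 2, .negSucc 1, .negSucc 3], [.ofNat 0, .ofNat 4, .ofNat 1, .negSucc 0, .negSucc 3], [.ofNat 0, .ofNat 3, .ofNat 2, .negSucc 0, .negSucc 3], [.ofNat 0, .ofNat 2, .ofNat 3, .negSucc 0, .negSucc 3], [.ofNat 0, .ofNat 2, .ofNat 2, .ofNat 0, .negSucc 3], [.ofNat 0, .ofNat 2, .ofNat 1, .ofNat 1, .negSucc 3], [.ofNat 0, .ofNat 1, .ofNat 2, .ofNat 1, .negSucc 3], [.ofNat 0, .ofNat 0, .ofNat 3, .ofNat 1, .negSucc 3], [.ofNat 0, .ofNat 0, .ofNat 2, .ofNat 2, .negSucc 3], [.ofNat 0, .ofNat 0, .ofNat 1, .ofNat 3, .negSucc 3], [.ofNat 0, .ofNat 0, .ofNat 0, .ofNat 4, .negSucc 3], [.ofNat 0, .ofNat 0, .ofNat 0, .ofNat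 3, .negSucc 2], [.ofNat 0, .ofNat 0, .ofNat 0, .ofNat 2, .negSucc 1], [.ofNat 0, .ofNat 0, .ofNat 0, .ofNat 1, .negSucc 0], [.ofNat 0, .ofNat 0, .ofNat 0, .ofNat 0, .ofNat 0]],
  [[.ofNat 4, .ofNat 5, .ofNat 0, .negSucc 4, .negSucc 3], [.ofNat 4, .ofNat 5, .ofNat 0, .negSucc 5, .negSucc 2], [.ofNat 4, .ofNat 5, .ofNat 0, .negSucc 6, .negSucc 1], [.ofNat 4, .ofNat 5, .ofNat 0, .negSucc 7, .negSucc 0], [.ofNat 4, .ofNat 5, .ofNat 0, .negSucc 8, .ofNat 0], [.ofNat 4, .ofNat 5, .negSucc 0, .negSucc 7, .ofNat 0], [.ofNat 4, .ofNat 5, .negSucc 1, .negSucc 6, .ofNat 0], [.ofNat 4, .ofNat 5, .negSucc 2, .negSucc 5, .ofNat 0], [.ofNat 4, .ofNat 4, .negSucc 1, .negSucc 5, .ofNat 0], [.ofNat 4, .ofNat 3, .negSucc 0, .negSucc 5, .ofNat 0], [.ofNat 4, .ofNat 3, .negSucc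 1, .negSucc 4, .ofNat 0], [.ofNat 4, .ofNat 3, .negSucc 2, .negSucc 3, .ofNat 0], [.ofNat 4, .ofNat 2, .negSucc 1, .negSucc 3, .ofNat 0], [.ofNat 4, .ofNat 1, .negSucc 0, .negSucc 3, .ofNat 0], [.ofNat 4, .ofNat 1, .negSucc 1, .negSucc 2, .ofNat 0], [.ofNat 4, .ofNat 1, .negSucc 2, .negSucc 1, .ofNat 0], [.ofNat 4, .ofNat 0, .negSucc 1, .negSucc 1, .ofNat 0], [.ofNat 4, .negSucc 0, .negSucc 0, .negSucc 1, .ofNat 0], [.ofNat 4, .negSucc 0, .negSucc 1, .negSucc 0, .ofNat 0], [.ofNat 4, .negSucc 0, .negSucc 2, .ofNat 0, .ofNat 0], [.ofNat 4, .negSucc 1, .negSucc 1, .ofNat 0, .ofNat 0], [.ofNat 4, .negSucc 2, .negSucc 0, .ofNat 0, .ofNat 0], [.ofNat 4, .negSucc 3, .ofNat 0, .ofNat 0, .ofNat 0], [.ofNat 3, .negSucc 2, .ofNat 0, .ofNat 0, .ofNat 0], [.ofNat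 2, .negSucc 1, .ofNat 0, .ofNat 0, .ofNat 0], [.ofNat 1, .negSucc 0, .ofNat 0, .ofNat 0, .ofNat 0], [.ofNat 0, .ofNat 0, .ofNat 0, .ofNat 0, .ofNat 0]]]
def NBL : List (List (List ℤ)) := [[[.ofNat 0, .ofNat 0, .ofNat 0, .ofNat 0, .ofNat 0], [.ofNat 1, .negSucc 0, .ofNat 0, .ofNat 0, .ofNat 0], [.ofNat 2, .negSucc 1, .ofNat 0, .ofNat 0, .ofNat 0], [.ofNat 3, .negSucc 2, .ofNat 0, .ofNat 0, .ofNat 0], [.ofNat 4, .negSucc 3, .ofNat 0, .ofNat 0, .ofNat 0], [.ofNat 4, .negSucc 2, .negSucc 0, .ofNat 0, .ofNat 0], [.ofNat 4, .negSucc 1, .negSucc 1, .ofNat 0, .ofNat 0], [.ofNat 4, .negSucc 0, .negSucc 2, .ofNat 0, .ofNat 0], [.ofNat 4, .negSucc 0, .negSucc 1, .negSucc 0, .ofNat 0], [.ofNat 4, .negSucc 0, .negSucc 0, .negSucc 1, .ofNat 0], [.ofNat 4, .ofNat 0,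 .negSucc 1, .negSucc 1, .ofNat 0], [.ofNat 4, .ofNat 1, .negSucc 2, .negSucc 1, .ofNat 0], [.ofNat 4, .ofNat 1, .negSucc 1, .negSucc 2, .ofNat 0], [.ofNat 4, .ofNat 1, .negSucc 0, .negSucc 3, .ofNat 0], [.ofNat 4, .ofNat 2, .negSucc 1, .negSucc 3, .ofNat 0], [.ofNat 4, .ofNat 3, .negSucc 2, .negSucc 3, .ofNat 0], [.ofNat 4, .ofNat 3, .negSucc 1, .negSucc 4, .ofNat 0], [.ofNat 4, .ofNat 3, .negSucc 0, .negSucc 5, .ofNat 0], [.ofNat 4, .ofNat 4, .negSucc 1, .negSucc 5, .ofNat 0], [.ofNat 4, .ofNat 5, .negSucc 2, .negSucc 5, .ofNat 0], [.ofNat 4, .ofNat 5, .negSucc 1, .negSucc 6, .ofNat 0], [.ofNat 4, .ofNat 5, .negSucc 0, .negSucc 7, .ofNat 0], [.ofNat 4, .ofNat 5, .ofNat 0, .negSucc 8, .ofNat 0], [.ofNat 4, .ofNat 5, .ofNat 0, .negSucc 7, .negSucc 0],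 [.ofNat 4, .ofNat 5, .ofNat 0, .negSucc 6, .negSucc 1], [.ofNat 4, .ofNat 5, .ofNat 0, .negSucc 5, .negSucc 2], [.ofNat 4, .ofNat 5, .ofNat 0, .negSucc 4, .negSucc 3]],
  [[.ofNat 0, .ofNat 0, .ofNat 0, .ofNat 0, .ofNat 0], [.ofNat 0, .ofNat 0, .ofNat 0, .ofNat 1, .negSucc 0], [.ofNat 0, .ofNat 0, .ofNat 0, .ofNat 2, .negSucc 1], [.ofNat 0, .ofNat 0, .ofNat 0, .ofNat 3, .negSucc 2], [.ofNat 0, .ofNat 0, .ofNat 0, .ofNat 4, .negSucc 3], [.ofNat 0, .ofNat 0, .ofNat 1, .ofNat 3, .negSucc 3], [.ofNat 0, .ofNat 0, .ofNat 2, .ofNat 2, .negSucc 3], [.ofNat 0, .ofNat 0, .ofNat 3, .ofNat 1, .negSucc 3], [.ofNat 0, .ofNat 1, .ofNat 2, .ofNat 1, .negSucc 3], [.ofNat 0, .ofNat 2, .ofNat 1, .ofNat 1, .negSucc 3], [.ofNat 0, .ofNat 2, .ofNat 2, .ofNat 0, .negSucc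 3], [.ofNat 0, .ofNat 2, .ofNat 3, .negSucc 0, .negSucc 3], [.ofNat 0, .ofNat 3, .ofNat 2, .negSucc 0, .negSucc 3], [.ofNat 0, .ofNat 4, .ofNat 1, .negSucc 0, .negSucc 3], [.ofNat 0, .ofNat 4, .ofNat 2, .negSucc 1, .negSucc 3], [.ofNat 0, .ofNat 4, .ofNat 3, .negSucc 2, .negSucc 3], [.ofNat 0, .ofNat 5, .ofNat 2, .negSucc 2, .negSucc 3], [.ofNat 0, .ofNat 6, .ofNat 1, .negSucc 2, .negSucc 3], [.ofNat 0, .ofNat 6, .ofNat 2, .negSucc 3, .negSucc 3], [.ofNat 0, .ofNat 6, .ofNat 3, .negSucc 4, .negSucc 3], [.ofNat 0, .ofNat 7, .ofNat 2, .negSucc 4, .negSucc 3], [.ofNat 0, .ofNat 8, .ofNat 1, .negSucc 4, .negSucc 3], [.ofNat 0, .ofNat 9, .ofNat 0, .negSucc 4, .negSucc 3], [.ofNat 1, .ofNat 8, .ofNat 0, .negSucc 4, .negSucc 3], [.ofNat 2, .ofNat 7, .ofNat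 0, .negSucc 4, .negSucc 3], [.ofNat 3, .ofNat 6, .ofNat 0, .negSucc 4, .negSucc 3], [.ofNat 4, .ofNat 5, .ofNat 0, .negSucc 4, .negSucc 3]]]
def NA (c : ℕ) := NAL.getD c []
def NB (c : ℕ) := NBL.getD c []
def PAL : List (List Ltr) := [[⟨0, .negSucc 0, [.ofNat 2, .ofNat 7, .ofNat 0, .negSucc 4, .negSucc 3]⟩, ⟨0, .negSucc 0, [.ofNat 0, .ofNat 9, .ofNat 0, .negSucc 4, .negSucc 3]⟩, ⟨0, .ofNat 0, [.ofNat 0, .ofNat 8, .ofNat 1, .negSucc 4, .negSucc 3]⟩, ⟨0, .ofNat 0, [.ofNat 0, .ofNat 6, .ofNat 3, .negSucc 4, .negSucc 3]⟩, ⟨0, .ofNat 1, [.ofNat 0, .ofNat 6, .ofNat 2, .negSucc 3, .negSucc 3]⟩, ⟨0, .ofNat 0, [.ofNat 0, .ofNat 4, .ofNat 3, .negSucc 2, .negSucc 3]⟩, ⟨0, .ofNat 1, [.ofNat 0, .ofNat 4, .ofNat 2, .negSucc 1, .negSucc 3]⟩, ⟨0, .ofNat 0, [.ofNat 0,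 .ofNat 2, .ofNat 3, .negSucc 0, .negSucc 3]⟩, ⟨0, .ofNat 1, [.ofNat 0, .ofNat 2, .ofNat 2, .ofNat 0, .negSucc 3]⟩, ⟨0, .ofNat 0, [.ofNat 0, .ofNat 0, .ofNat 3, .ofNat 1, .negSucc 3]⟩, ⟨0, .ofNat 1, [.ofNat 0, .ofNat 0, .ofNat 2, .ofNat 2, .negSucc 3]⟩, ⟨0, .ofNat 1, [.ofNat 0, .ofNat 0, .ofNat 0, .ofNat 4, .negSucc 3]⟩, ⟨0, .ofNat 2, [.ofNat 0, .ofNat 0, .ofNat 0, .ofNat 3, .negSucc 2]⟩, ⟨0, .ofNat 2, [.ofNat 0, .ofNat 0, .ofNat 0, .ofNat 1, .negSucc 0]⟩, ⟨1, .ofNat 2, [.ofNat 4, .ofNat 5, .ofNat 0, .negSucc 5, .negSucc 2]⟩, ⟨1, .ofNat 2, [.ofNat 4, .ofNat 5, .ofNat 0, .negSucc 7, .negSucc 0]⟩, ⟨1, .ofNat 1, [.ofNat 4, .ofNat 5, .negSucc 1, .negSucc 6, .ofNat 0]⟩, ⟨1, .ofNat 0, [.ofNat 4, .ofNat 3, .negSucc 0, .negSucc 5, .ofNat 0]⟩, ⟨1, .ofNat 1, [.ofNat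 4, .ofNat 3, .negSucc 1, .negSucc 4, .ofNat 0]⟩, ⟨1, .ofNat 0, [.ofNat 4, .ofNat 1, .negSucc 0, .negSucc 3, .ofNat 0]⟩, ⟨1, .ofNat 1, [.ofNat 4, .ofNat 1, .negSucc 1, .negSucc 2, .ofNat 0]⟩, ⟨1, .ofNat 0, [.ofNat 4, .negSucc 0, .negSucc 0, .negSucc 1, .ofNat 0]⟩, ⟨1, .ofNat 1, [.ofNat 4, .negSucc 0, .negSucc 1, .negSucc 0, .ofNat 0]⟩, ⟨1, .ofNat 0, [.ofNat 4, .negSucc 2, .negSucc 0, .ofNat 0, .ofNat 0]⟩, ⟨1, .negSucc 0, [.ofNat 2, .negSucc 1, .ofNat 0, .ofNat 0, .ofNat 0]⟩, ⟨1, .negSucc 0, [.ofNat 0, .ofNat 0, .ofNat 0, .ofNat 0, .ofNat 0]⟩],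
  [⟨0, .negSucc 0, [.ofNat 3, .ofNat 6, .ofNat 0, .negSucc 4, .negSucc 3]⟩, ⟨0, .negSucc 0, [.ofNat 1, .ofNat 8, .ofNat 0, .negSucc 4, .negSucc 3]⟩, ⟨0, .ofNat 0, [.ofNat 0, .ofNat 7, .ofNat 2, .negSucc 4, .negSucc 3]⟩, ⟨0, .ofNat 1, [.ofNat 0, .ofNat 6, .ofNat 1, .negSucc 2, .negSucc 3]⟩, ⟨0, .ofNat 0, [.ofNat 0, .ofNat 5, .ofNat 2, .negSucc 2, .negSucc 3]⟩, ⟨0, .ofNat 1, [.ofNat 0, .ofNat 4, .ofNat 1, .negSucc 0, .negSucc 3]⟩, ⟨0, .ofNat 0, [.ofNat 0, .ofNat 3, .ofNat 2, .negSucc 0, .negSucc 3]⟩, ⟨0, .ofNat 1, [.ofNat 0, .ofNat 2, .ofNat 1, .ofNat 1, .negSucc 3]⟩, ⟨0, .ofNat 0, [.ofNat 0, .ofNat 1, .ofNat 2, .ofNat 1, .negSucc 3]⟩, ⟨0, .ofNat 1, [.ofNat 0, .ofNat 0, .ofNat 1, .ofNat 3, .negSucc 3]⟩, ⟨0, .ofNat 2, [.ofNat 0, .ofNat 0, .ofNat 0, .ofNat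 2, .negSucc 1]⟩, ⟨0, .ofNat 2, [.ofNat 0, .ofNat 0, .ofNat 0, .ofNat 0, .ofNat 0]⟩, ⟨1, .ofNat 2, [.ofNat 4, .ofNat 5, .ofNat 0, .negSucc 6, .negSucc 1]⟩, ⟨1, .ofNat 2, [.ofNat 4, .ofNat 5, .ofNat 0, .negSucc 8, .ofNat 0]⟩, ⟨1, .ofNat 1, [.ofNat 4, .ofNat 5, .negSucc 0, .negSucc 7, .ofNat 0]⟩, ⟨1, .ofNat 1, [.ofNat 4, .ofNat 5, .negSucc 2, .negSucc 5, .ofNat 0]⟩, ⟨1, .ofNat 0, [.ofNat 4, .ofNat 4, .negSucc 1, .negSucc 5, .ofNat 0]⟩, ⟨1, .ofNat 1, [.ofNat 4, .ofNat 3, .negSucc 2, .negSucc 3, .ofNat 0]⟩, ⟨1, .ofNat 0, [.ofNat 4, .ofNat 2, .negSucc 1, .negSucc 3, .ofNat 0]⟩, ⟨1, .ofNat 1, [.ofNat 4, .ofNat 1, .negSucc 2, .negSucc 1, .ofNat 0]⟩, ⟨1, .ofNat 0, [.ofNat 4, .ofNat 0, .negSucc 1, .negSucc 1, .ofNat 0]⟩, ⟨1, .ofNat 1, [.ofNat 4, .negSucc 0, .negSucc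 2, .ofNat 0, .ofNat 0]⟩, ⟨1, .ofNat 0, [.ofNat 4, .negSucc 1, .negSucc 1, .ofNat 0, .ofNat 0]⟩, ⟨1, .ofNat 0, [.ofNat 4, .negSucc 3, .ofNat 0, .ofNat 0, .ofNat 0]⟩, ⟨1, .negSucc 0, [.ofNat 3, .negSucc 2, .ofNat 0, .ofNat 0, .ofNat 0]⟩, ⟨1, .negSucc 0, [.ofNat 1, .negSucc 0, .ofNat 0, .ofNat 0, .ofNat 0]⟩]]
def PBL : List (List Ltr) := [[⟨0, .negSucc 0, [.ofNat 1, .negSucc 0, .ofNat 0, .ofNat 0, .ofNat 0]⟩, ⟨0, .negSucc 0, [.ofNat 3, .negSucc 2, .ofNat 0, .ofNat 0, .ofNat 0]⟩, ⟨0, .ofNat 0, [.ofNat 4, .negSucc 3, .ofNat 0, .ofNat 0, .ofNat 0]⟩, ⟨0, .ofNat 0, [.ofNat 4, .negSucc 1, .negSucc 1, .ofNat 0, .ofNat 0]⟩, ⟨0, .ofNat 1, [.ofNat 4, .negSucc 0, .negSucc 2, .ofNat 0, .ofNat 0]⟩, ⟨0, .ofNat 0, [.ofNat 4, .ofNat 0, .negSucc 1, .negSucc 1, .ofNat 0]⟩,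 ⟨0, .ofNat 1, [.ofNat 4, .ofNat 1, .negSucc 2, .negSucc 1, .ofNat 0]⟩, ⟨0, .ofNat 0, [.ofNat 4, .ofNat 2, .negSucc 1, .negSucc 3, .ofNat 0]⟩, ⟨0, .ofNat 1, [.ofNat 4, .ofNat 3, .negSucc 2, .negSucc 3, .ofNat 0]⟩, ⟨0, .ofNat 0, [.ofNat 4, .ofNat 4, .negSucc 1, .negSucc 5, .ofNat 0]⟩, ⟨0, .ofNat 1, [.ofNat 4, .ofNat 5, .negSucc 2, .negSucc 5, .ofNat 0]⟩, ⟨0, .ofNat 1, [.ofNat 4, .ofNat 5, .negSucc 0, .negSucc 7, .ofNat 0]⟩, ⟨0, .ofNat 2, [.ofNat 4, .ofNat 5, .ofNat 0, .negSucc 8, .ofNat 0]⟩, ⟨0, .ofNat 2, [.ofNat 4, .ofNat 5, .ofNat 0, .negSucc 6, .negSucc 1]⟩, ⟨1, .ofNat 2, [.ofNat 0, .ofNat 0, .ofNat 0, .ofNat 0, .ofNat 0]⟩, ⟨1, .ofNat 2, [.ofNat 0, .ofNat 0, .ofNat 0, .ofNat 2, .negSucc 1]⟩, ⟨1, .ofNat 1, [.ofNat 0, .ofNat 0, .ofNat 1, .ofNat 3, .negSucc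 3]⟩, ⟨1, .ofNat 0, [.ofNat 0, .ofNat 1, .ofNat 2, .ofNat 1, .negSucc 3]⟩, ⟨1, .ofNat 1, [.ofNat 0, .ofNat 2, .ofNat 1, .ofNat 1, .negSucc 3]⟩, ⟨1, .ofNat 0, [.ofNat 0, .ofNat 3, .ofNat 2, .negSucc 0, .negSucc 3]⟩, ⟨1, .ofNat 1, [.ofNat 0, .ofNat 4, .ofNat 1, .negSucc 0, .negSucc 3]⟩, ⟨1, .ofNat 0, [.ofNat 0, .ofNat 5, .ofNat 2, .negSucc 2, .negSucc 3]⟩, ⟨1, .ofNat 1, [.ofNat 0, .ofNat 6, .ofNat 1, .negSucc 2, .negSucc 3]⟩, ⟨1, .ofNat 0, [.ofNat 0, .ofNat 7, .ofNat 2, .negSucc 4, .negSucc 3]⟩, ⟨1, .negSucc 0, [.ofNat 1, .ofNat 8, .ofNat 0, .negSucc 4, .negSucc 3]⟩, ⟨1, .negSucc 0, [.ofNat 3, .ofNat 6, .ofNat 0, .negSucc 4, .negSucc 3]⟩],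
  [⟨0, .negSucc 0, [.ofNat 0, .ofNat 0, .ofNat 0, .ofNat 0, .ofNat 0]⟩, ⟨0, .negSucc 0, [.ofNat 2, .negSucc 1, .ofNat 0, .ofNat 0, .ofNat 0]⟩, ⟨0, .ofNat 0, [.ofNat 4, .negSucc 2, .negSucc 0, .ofNat 0, .ofNat 0]⟩, ⟨0, .ofNat 1, [.ofNat 4, .negSucc 0, .negSucc 1, .negSucc 0, .ofNat 0]⟩, ⟨0, .ofNat 0, [.ofNat 4, .negSucc 0, .negSucc 0, .negSucc 1, .ofNat 0]⟩, ⟨0, .ofNat 1, [.ofNat 4, .ofNat 1, .negSucc 1, .negSucc 2, .ofNat 0]⟩, ⟨0, .ofNat 0, [.ofNat 4, .ofNat 1, .negSucc 0, .negSucc 3, .ofNat 0]⟩, ⟨0, .ofNat 1, [.ofNat 4, .ofNat 3, .negSucc 1, .negSucc 4, .ofNat 0]⟩, ⟨0, .ofNat 0, [.ofNat 4, .ofNat 3, .negSucc 0, .negSucc 5, .ofNat 0]⟩, ⟨0, .ofNat 1, [.ofNat 4, .ofNat 5, .negSucc 1, .negSucc 6, .ofNat 0]⟩, ⟨0, .ofNat 2, [.ofNat 4, .ofNat 5, .ofNat 0,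 .negSucc 7, .negSucc 0]⟩, ⟨0, .ofNat 2, [.ofNat 4, .ofNat 5, .ofNat 0, .negSucc 5, .negSucc 2]⟩, ⟨1, .ofNat 2, [.ofNat 0, .ofNat 0, .ofNat 0, .ofNat 1, .negSucc 0]⟩, ⟨1, .ofNat 2, [.ofNat 0, .ofNat 0, .ofNat 0, .ofNat 3, .negSucc 2]⟩, ⟨1, .ofNat 1, [.ofNat 0, .ofNat 0, .ofNat 0, .ofNat 4, .negSucc 3]⟩, ⟨1, .ofNat 1, [.ofNat 0, .ofNat 0, .ofNat 2, .ofNat 2, .negSucc 3]⟩, ⟨1, .ofNat 0, [.ofNat 0, .ofNat 0, .ofNat 3, .ofNat 1, .negSucc 3]⟩, ⟨1, .ofNat 1, [.ofNat 0, .ofNat 2, .ofNat 2, .ofNat 0, .negSucc 3]⟩, ⟨1, .ofNat 0, [.ofNat 0, .ofNat 2, .ofNat 3, .negSucc 0, .negSucc 3]⟩, ⟨1, .ofNat 1, [.ofNat 0, .ofNat 4, .ofNat 2, .negSucc 1, .negSucc 3]⟩, ⟨1, .ofNat 0, [.ofNat 0, .ofNat 4, .ofNat 3, .negSucc 2, .negSucc 3]⟩, ⟨1, .ofNat 1, [.ofNat 0, .ofNat 6, .ofNat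 2, .negSucc 3, .negSucc 3]⟩, ⟨1, .ofNat 0, [.ofNat 0, .ofNat 6, .ofNat 3, .negSucc 4, .negSucc 3]⟩, ⟨1, .ofNat 0, [.ofNat 0, .ofNat 8, .ofNat 1, .negSucc 4, .negSucc 3]⟩, ⟨1, .negSucc 0, [.ofNat 0, .ofNat 9, .ofNat 0, .negSucc 4, .negSucc 3]⟩, ⟨1, .negSucc 0, [.ofNat 2, .ofNat 7, .ofNat 0, .negSucc 4, .negSucc 3]⟩]]
def PA (c : ℕ) := PAL.getD c []
def PB (c : ℕ) := PBL.getD c []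
def LAL : List (List Ltr) := [[⟨0, .negSucc 0, [.ofNat 4, .ofNat 5, .ofNat 0, .negSucc 4, .negSucc 3]⟩, ⟨0, .negSucc 0, [.ofNat 3, .ofNat 6, .ofNat 0, .negSucc 4, .negSucc 3]⟩, ⟨0, .negSucc 0, [.ofNat 2, .ofNat 7, .ofNat 0, .negSucc 4, .negSucc 3]⟩, ⟨0, .negSucc 0, [.ofNat 1, .ofNat 8, .ofNat 0, .negSucc 4, .negSucc 3]⟩, ⟨0, .ofNat 0, [.ofNat 0, .ofNat 9, .ofNat 0, .negSucc 4, .negSucc 3]⟩, ⟨0, .ofNat 0, [.ofNat 0, .ofNat 8, .ofNat 1, .negSucc 4, .negSucc 3]⟩, ⟨0, .ofNat 0, [.ofNat 0, .ofNat 7, .ofNat 2, .negSucc 4, .negSucc 3]⟩, ⟨0, .ofNat 1, [.ofNat 0, .ofNat 6, .ofNat 3, .negSucc 4, .negSucc 3]⟩, ⟨0, .ofNat 1, [.ofNat 0, .ofNat 6, .ofNat 2, .negSucc 3, .negSucc 3]⟩, ⟨0, .ofNat 0, [.ofNat 0, .ofNat 6, .ofNat 1, .negSucc 2, .negSucc 3]⟩, ⟨0, .ofNat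 0, [.ofNat 0, .ofNat 5, .ofNat 2, .negSucc 2, .negSucc 3]⟩, ⟨0, .ofNat 1, [.ofNat 0, .ofNat 4, .ofNat 3, .negSucc 2, .negSucc 3]⟩, ⟨0, .ofNat 1, [.ofNat 0, .ofNat 4, .ofNat 2, .negSucc 1, .negSucc 3]⟩, ⟨0, .ofNat 0, [.ofNat 0, .ofNat 4, .ofNat 1, .negSucc 0, .negSucc 3]⟩, ⟨0, .ofNat 0, [.ofNat 0, .ofNat 3, .ofNat 2, .negSucc 0, .negSucc 3]⟩, ⟨0, .ofNat 1, [.ofNat 0, .ofNat 2, .ofNat 3, .negSucc 0, .negSucc 3]⟩, ⟨0, .ofNat 1, [.ofNat 0, .ofNat 2, .ofNat 2, .ofNat 0, .negSucc 3]⟩, ⟨0, .ofNat 0, [.ofNat 0, .ofNat 2, .ofNat 1, .ofNat 1, .negSucc 3]⟩, ⟨0, .ofNat 0, [.ofNat 0, .ofNat 1, .ofNat 2, .ofNat 1, .negSucc 3]⟩, ⟨0, .ofNat 1, [.ofNat 0, .ofNat 0, .ofNat 3, .ofNat 1, .negSucc 3]⟩, ⟨0, .ofNat 1, [.ofNat 0, .ofNat 0, .ofNat 2, .ofNat 2, .negSucc 3]⟩,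 ⟨0, .ofNat 1, [.ofNat 0, .ofNat 0, .ofNat 1, .ofNat 3, .negSucc 3]⟩, ⟨0, .ofNat 2, [.ofNat 0, .ofNat 0, .ofNat 0, .ofNat 4, .negSucc 3]⟩, ⟨0, .ofNat 2, [.ofNat 0, .ofNat 0, .ofNat 0, .ofNat 3, .negSucc 2]⟩, ⟨0, .ofNat 2, [.ofNat 0, .ofNat 0, .ofNat 0, .ofNat 2, .negSucc 1]⟩, ⟨0, .ofNat 2, [.ofNat 0, .ofNat 0, .ofNat 0, .ofNat 1, .negSucc 0]⟩],
  [⟨1, .ofNat 2, [.ofNat 4, .ofNat 5, .ofNat 0, .negSucc 4, .negSucc 3]⟩, ⟨1, .ofNat 2, [.ofNat 4, .ofNat 5, .ofNat 0, .negSucc 5, .negSucc 2]⟩, ⟨1, .ofNat 2, [.ofNat 4, .ofNat 5, .ofNat 0, .negSucc 6, .negSucc 1]⟩, ⟨1, .ofNat 2, [.ofNat 4, .ofNat 5, .ofNat 0, .negSucc 7, .negSucc 0]⟩, ⟨1, .ofNat 1, [.ofNat 4, .ofNat 5, .ofNat 0, .negSucc 8, .ofNat 0]⟩, ⟨1, .ofNat 1, [.ofNat 4, .ofNat 5, .negSucc 0, .negSucc 7,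 .ofNat 0]⟩, ⟨1, .ofNat 1, [.ofNat 4, .ofNat 5, .negSucc 1, .negSucc 6, .ofNat 0]⟩, ⟨1, .ofNat 0, [.ofNat 4, .ofNat 5, .negSucc 2, .negSucc 5, .ofNat 0]⟩, ⟨1, .ofNat 0, [.ofNat 4, .ofNat 4, .negSucc 1, .negSucc 5, .ofNat 0]⟩, ⟨1, .ofNat 1, [.ofNat 4, .ofNat 3, .negSucc 0, .negSucc 5, .ofNat 0]⟩, ⟨1, .ofNat 1, [.ofNat 4, .ofNat 3, .negSucc 1, .negSucc 4, .ofNat 0]⟩, ⟨1, .ofNat 0, [.ofNat 4, .ofNat 3, .negSucc 2, .negSucc 3, .ofNat 0]⟩, ⟨1, .ofNat 0, [.ofNat 4, .ofNat 2, .negSucc 1, .negSucc 3, .ofNat 0]⟩, ⟨1, .ofNat 1, [.ofNat 4, .ofNat 1, .negSucc 0, .negSucc 3, .ofNat 0]⟩, ⟨1, .ofNat 1, [.ofNat 4, .ofNat 1, .negSucc 1, .negSucc 2, .ofNat 0]⟩, ⟨1, .ofNat 0, [.ofNat 4, .ofNat 1, .negSucc 2, .negSucc 1, .ofNat 0]⟩, ⟨1, .ofNat 0, [.ofNat 4, .ofNat 0, .negSucc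 1, .negSucc 1, .ofNat 0]⟩, ⟨1, .ofNat 1, [.ofNat 4, .negSucc 0, .negSucc 0, .negSucc 1, .ofNat 0]⟩, ⟨1, .ofNat 1, [.ofNat 4, .negSucc 0, .negSucc 1, .negSucc 0, .ofNat 0]⟩, ⟨1, .ofNat 0, [.ofNat 4, .negSucc 0, .negSucc 2, .ofNat 0, .ofNat 0]⟩, ⟨1, .ofNat 0, [.ofNat 4, .negSucc 1, .negSucc 1, .ofNat 0, .ofNat 0]⟩, ⟨1, .ofNat 0, [.ofNat 4, .negSucc 2, .negSucc 0, .ofNat 0, .ofNat 0]⟩, ⟨1, .negSucc 0, [.ofNat 4, .negSucc 3, .ofNat 0, .ofNat 0, .ofNat 0]⟩, ⟨1, .negSucc 0, [.ofNat 3, .negSucc 2, .ofNat 0, .ofNat 0, .ofNat 0]⟩, ⟨1, .negSucc 0, [.ofNat 2, .negSucc 1, .ofNat 0, .ofNat 0, .ofNat 0]⟩, ⟨1, .negSucc 0, [.ofNat 1, .negSucc 0, .ofNat 0, .ofNat 0, .ofNat 0]⟩]]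
def LBL : List (List Ltr) := [[⟨0, .negSucc 0, [.ofNat 1, .negSucc 0, .ofNat 0, .ofNat 0, .ofNat 0]⟩, ⟨0, .negSucc 0, [.ofNat 2, .negSucc 1, .ofNat 0, .ofNat 0, .ofNat 0]⟩, ⟨0, .negSucc 0, [.ofNat 3, .negSucc 2, .ofNat 0, .ofNat 0, .ofNat 0]⟩, ⟨0, .negSucc 0, [.ofNat 4, .negSucc 3, .ofNat 0, .ofNat 0, .ofNat 0]⟩, ⟨0, .ofNat 0, [.ofNat 4, .negSucc 2, .negSucc 0, .ofNat 0, .ofNat 0]⟩, ⟨0, .ofNat 0, [.ofNat 4, .negSucc 1, .negSucc 1, .ofNat 0, .ofNat 0]⟩, ⟨0, .ofNat 0, [.ofNat 4, .negSucc 0, .negSucc 2, .ofNat 0, .ofNat 0]⟩, ⟨0, .ofNat 1, [.ofNat 4, .negSucc 0, .negSucc 1, .negSucc 0, .ofNat 0]⟩, ⟨0, .ofNat 1, [.ofNat 4, .negSucc 0, .negSucc 0, .negSucc 1, .ofNat 0]⟩, ⟨0, .ofNat 0, [.ofNat 4, .ofNat 0, .negSucc 1, .negSucc 1, .ofNat 0]⟩, ⟨0, .ofNat 0, [.ofNat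 4, .ofNat 1, .negSucc 2, .negSucc 1, .ofNat 0]⟩, ⟨0, .ofNat 1, [.ofNat 4, .ofNat 1, .negSucc 1, .negSucc 2, .ofNat 0]⟩, ⟨0, .ofNat 1, [.ofNat 4, .ofNat 1, .negSucc 0, .negSucc 3, .ofNat 0]⟩, ⟨0, .ofNat 0, [.ofNat 4, .ofNat 2, .negSucc 1, .negSucc 3, .ofNat 0]⟩, ⟨0, .ofNat 0, [.ofNat 4, .ofNat 3, .negSucc 2, .negSucc 3, .ofNat 0]⟩, ⟨0, .ofNat 1, [.ofNat 4, .ofNat 3, .negSucc 1, .negSucc 4, .ofNat 0]⟩, ⟨0, .ofNat 1, [.ofNat 4, .ofNat 3, .negSucc 0, .negSucc 5, .ofNat 0]⟩, ⟨0, .ofNat 0, [.ofNat 4, .ofNat 4, .negSucc 1, .negSucc 5, .ofNat 0]⟩, ⟨0, .ofNat 0, [.ofNat 4, .ofNat 5, .negSucc 2, .negSucc 5, .ofNat 0]⟩, ⟨0, .ofNat 1, [.ofNat 4, .ofNat 5, .negSucc 1, .negSucc 6, .ofNat 0]⟩, ⟨0, .ofNat 1, [.ofNat 4, .ofNat 5, .negSucc 0, .negSucc 7, .ofNat 0]⟩, ⟨0,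 .ofNat 1, [.ofNat 4, .ofNat 5, .ofNat 0, .negSucc 8, .ofNat 0]⟩, ⟨0, .ofNat 2, [.ofNat 4, .ofNat 5, .ofNat 0, .negSucc 7, .negSucc 0]⟩, ⟨0, .ofNat 2, [.ofNat 4, .ofNat 5, .ofNat 0, .negSucc 6, .negSucc 1]⟩, ⟨0, .ofNat 2, [.ofNat 4, .ofNat 5, .ofNat 0, .negSucc 5, .negSucc 2]⟩, ⟨0, .ofNat 2, [.ofNat 4, .ofNat 5, .ofNat 0, .negSucc 4, .negSucc 3]⟩],
  [⟨1, .ofNat 2, [.ofNat 0, .ofNat 0, .ofNat 0, .ofNat 1, .negSucc 0]⟩, ⟨1, .ofNat 2, [.ofNat 0, .ofNat 0, .ofNat 0, .ofNat 2, .negSucc 1]⟩, ⟨1, .ofNat 2, [.ofNat 0, .ofNat 0, .ofNat 0, .ofNat 3, .negSucc 2]⟩, ⟨1, .ofNat 2, [.ofNat 0, .ofNat 0, .ofNat 0, .ofNat 4, .negSucc 3]⟩, ⟨1, .ofNat 1, [.ofNat 0, .ofNat 0, .ofNat 1, .ofNat 3, .negSucc 3]⟩, ⟨1, .ofNat 1, [.ofNat 0, .ofNat 0, .ofNat 2, .ofNat 2, .negSucc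 3]⟩, ⟨1, .ofNat 1, [.ofNat 0, .ofNat 0, .ofNat 3, .ofNat 1, .negSucc 3]⟩, ⟨1, .ofNat 0, [.ofNat 0, .ofNat 1, .ofNat 2, .ofNat 1, .negSucc 3]⟩, ⟨1, .ofNat 0, [.ofNat 0, .ofNat 2, .ofNat 1, .ofNat 1, .negSucc 3]⟩, ⟨1, .ofNat 1, [.ofNat 0, .ofNat 2, .ofNat 2, .ofNat 0, .negSucc 3]⟩, ⟨1, .ofNat 1, [.ofNat 0, .ofNat 2, .ofNat 3, .negSucc 0, .negSucc 3]⟩, ⟨1, .ofNat 0, [.ofNat 0, .ofNat 3, .ofNat 2, .negSucc 0, .negSucc 3]⟩, ⟨1, .ofNat 0, [.ofNat 0, .ofNat 4, .ofNat 1, .negSucc 0, .negSucc 3]⟩, ⟨1, .ofNat 1, [.ofNat 0, .ofNat 4, .ofNat 2, .negSucc 1, .negSucc 3]⟩, ⟨1, .ofNat 1, [.ofNat 0, .ofNat 4, .ofNat 3, .negSucc 2, .negSucc 3]⟩, ⟨1, .ofNat 0, [.ofNat 0, .ofNat 5, .ofNat 2, .negSucc 2, .negSucc 3]⟩, ⟨1, .ofNat 0, [.ofNat 0, .ofNat 6, .ofNat 1, .negSucc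 2, .negSucc 3]⟩, ⟨1, .ofNat 1, [.ofNat 0, .ofNat 6, .ofNat 2, .negSucc 3, .negSucc 3]⟩, ⟨1, .ofNat 1, [.ofNat 0, .ofNat 6, .ofNat 3, .negSucc 4, .negSucc 3]⟩, ⟨1, .ofNat 0, [.ofNat 0, .ofNat 7, .ofNat 2, .negSucc 4, .negSucc 3]⟩, ⟨1, .ofNat 0, [.ofNat 0, .ofNat 8, .ofNat 1, .negSucc 4, .negSucc 3]⟩, ⟨1, .ofNat 0, [.ofNat 0, .ofNat 9, .ofNat 0, .negSucc 4, .negSucc 3]⟩, ⟨1, .negSucc 0, [.ofNat 1, .ofNat 8, .ofNat 0, .negSucc 4, .negSucc 3]⟩, ⟨1, .negSucc 0, [.ofNat 2, .ofNat 7, .ofNat 0, .negSucc 4, .negSucc 3]⟩, ⟨1, .negSucc 0, [.ofNat 3, .ofNat 6, .ofNat 0, .negSucc 4, .negSucc 3]⟩, ⟨1, .negSucc 0, [.ofNat 4, .ofNat 5, .ofNat 0, .negSucc 4, .negSucc 3]⟩]]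
def LA (c : ℕ) := LAL.getD c []
def LB (c : ℕ) := LBL.getD c []
def lvL : List (List (List ℤ)) := [[[.ofNat 0, .ofNat 0], [.negSucc 0, .ofNat 1]],
  [[.ofNat 0, .ofNat 0], [.negSucc 0, .ofNat 1]]]
def rvL : List (List (List ℤ)) := [[[.ofNat 0, .ofNat 0], [.negSucc 0, .ofNat 1]],
  [[.ofNat 0, .ofNat 0], [.negSucc 0, .ofNat 1]]]
def lvM : List (List (List ℤ)) := [[[.ofNat 0, .ofNat 0], [.negSucc 0, .ofNat 1]],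
  [[.ofNat 0, .ofNat 0], [.negSucc 0, .ofNat 1]]]
def rvM : List (List (List ℤ)) := [[[.ofNat 0, .ofNat 0], [.negSucc 0, .ofNat 1]],
  [[.ofNat 0, .ofNat 0], [.negSucc 0, .ofNat 1]]]
def Dt : Dat := ⟨K, 4, 0, .negSucc 1, fun c => lvL.getD c [], fun c => rvL.getD c [], sg⟩
def Dm : DatM := ⟨K', .ofNat 1, 5, fun c => lvM.getD c [], fun c => rvM.getD c [], fun _ _ => [], sg'⟩
def gN : List ℤ := [.ofNat 0]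
def gP : List ℤ := [.negSucc 0]
/-- near windows: distances at most `n + 1` -/
def n : ℕ := 1

/-- bound for the splittings -/
def sp : ℕ := 3

end Walk26.P0
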