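import Pool.Agent.LWG.KeyX
import Pool.Agent.Walk26.P0

/-!
# Keyed cells of table 0: data (generated)
-/

set_option autoImplicit false
set_option maxRecDepth 100000

open LWG Walk26.P0

namespace Walk26.P0

def q : KQ := ⟨nat_lit 6, nat_lit 2, nat_lit 9, nat_lit 21, nat_lit 4, nat_lit 7, nat_lit 4, nat_lit 6, nat_lit 20⟩

def KA_0 : List LN := [⟨nat_lit 0, nat_lit 3, nat_lit 51582410729325903822594591784512167433468446985⟩,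
    ⟨nat_lit 0, nat_lit 3, nat_lit 51582410729325903822597000191418430952527431945⟩,
    ⟨nat_lit 0, nat_lit 4, nat_lit 51582410729325903822905276275420161392077506825⟩,
    ⟨nat_lit 0, nat_lit 4, nat_lit 51582410729325903823521828443423622271177656585⟩,
    ⟨nat_lit 0, nat_lit 5, nat_lit 51582410729325903902440505947866614795996825865⟩,
    ⟨nat_lit 0, nat_lit 4, nat_lit 51582410729325903981975735620313068199916144905⟩,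
    ⟨nat_lit 0, nat_lit 5, nat_lit 51582410729325904060894413124756060724735314185⟩,
    ⟨nat_lit 0, nat_lit 4, nat_lit 51582410729325904140429642797202514128654633225⟩,
    ⟨nat_lit 0, nat_lit 5, nat_lit 51582410729325904219348320301645506653473802505⟩,
    ⟨nat_lit 0, nat_lit 4, nat_lit 51582410729325904298883549974091960057393121545⟩,
    ⟨nat_lit 0, nat_lit 5, nat_lit 51582410729325904377802227478534952582212290825⟩,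
    ⟨nat_lit 0, nat_lit 5, nat_lit 51582410729325904535639582487420937631850629385⟩,
    ⟨nat_lit 0, nat_lit 6, nat_lit 51582410729325924738821023624827023985557965065⟩,
    ⟨nat_lit 0, nat_lit 6, nat_lit 51582410729325965145183905899639196692972636425⟩,
    ⟨nat_lit 1, nat_lit 6, nat_lit 51582410729325924025773624515011990268116797705⟩,
    ⟨nat_lit 1, nat_lit 6, nat_lit 51582410729325964432136506789824162975531469065⟩,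
    ⟨nat_lit 1, nat_lit 5, nat_lit 51582410729325984793155302936116234378877143305⟩,
    ⟨nat_lit 1, nat_lit 4, nat_lit 51582410729325984872690532608562687782796462345⟩,
    ⟨nat_lit 1, nat_lit 5, nat_lit 51582410729325984951609210113005680307615631625⟩,
    ⟨nat_lit 1, nat_lit 4, nat_lit 51582410729325985031144439785452133711534950665⟩,
    ⟨nat_lit 1, nat_lit 5, nat_lit 51582410729325985110063117289895126236354119945⟩,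
    ⟨nat_lit 1, nat_lit 4, nat_lit 51582410729325985189598346962341579640273438985⟩,
    ⟨nat_lit 1, nat_lit 5, nat_lit 51582410729325985268517024466784572165092608265⟩,
    ⟨nat_lit 1, nat_lit 4, nat_lit 51582410729325985348052254139231025569011927305⟩,
    ⟨nat_lit 1, nat_lit 3, nat_lit 51582410729325985348362938630139019527620987145⟩,
    ⟨nat_lit 1, nat_lit 3, nat_lit 51582410729325985348365347037045283046679972105⟩]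

def KB_0 : List (List LN) := [[⟨nat_lit 0, nat_lit 4, nat_lit 51582410729325985348360530223232756008562002185⟩,
    ⟨nat_lit 0, nat_lit 4, nat_lit 51582410729325985347743978055229295129461852425⟩,
    ⟨nat_lit 0, nat_lit 4, nat_lit 51582410729325985189290070878339849200723364105⟩,
    ⟨nat_lit 0, nat_lit 4, nat_lit 51582410729325985030836163701450403271984875785⟩,
    ⟨nat_lit 0, nat_lit 4, nat_lit 51582410729325984872382256524560957343246387465⟩,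
    ⟨nat_lit 0, nat_lit 6, nat_lit 51582410729325984635317947927230249329238804745⟩,
    ⟨nat_lit 0, nat_lit 6, nat_lit 51582410729325944228955065652418076621824133385⟩,
    ⟨nat_lit 1, nat_lit 6, nat_lit 51582410729325985348365347037045283046679972105⟩,
    ⟨nat_lit 1, nat_lit 6, nat_lit 51582410729325944942002464762233110339265300745⟩,
    ⟨nat_lit 1, nat_lit 4, nat_lit 51582410729325904298575273890090229617843046665⟩,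
    ⟨nat_lit 1, nat_lit 4, nat_lit 51582410729325904140121366713200783689104558345⟩,
    ⟨nat_lit 1, nat_lit 4, nat_lit 51582410729325903981667459536311337760366070025⟩,
    ⟨nat_lit 1, nat_lit 4, nat_lit 51582410729325903823213552359421891831627581705⟩],
  [⟨nat_lit 0, nat_lit 3, nat_lit 51582410729325985348364142833592151287150479625⟩,
    ⟨nat_lit 0, nat_lit 3, nat_lit 51582410729325985348361734426685887768091494665⟩,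
    ⟨nat_lit 0, nat_lit 5, nat_lit 51582410729325985347435701971227564689911777545⟩,
    ⟨nat_lit 0, nat_lit 5, nat_lit 51582410729325985188981794794338118761173289225⟩,
    ⟨nat_lit 0, nat_lit 5, nat_lit 51582410729325985030527887617448672832434800905⟩,
    ⟨nat_lit 0, nat_lit 5, nat_lit 51582410729325984872073980440559226903696312585⟩,
    ⟨nat_lit 0, nat_lit 5, nat_lit 51582410729325984714236625431673241854057974025⟩,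
    ⟨nat_lit 1, nat_lit 5, nat_lit 51582410729325904456720904982977945107031460105⟩,
    ⟨nat_lit 1, nat_lit 5, nat_lit 51582410729325904298266997806088499178292971785⟩,
    ⟨nat_lit 1, nat_lit 5, nat_lit 51582410729325904139813090629199053249554483465⟩,
    ⟨nat_lit 1, nat_lit 5, nat_lit 51582410729325903981359183452309607320815995145⟩,
    ⟨nat_lit 1, nat_lit 3, nat_lit 51582410729325903822595795987965299192997939465⟩,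
    ⟨nat_lit 1, nat_lit 3, nat_lit 51582410729325903822593387581059035673938954505⟩]]

def KA_1 : List LN := [⟨nat_lit 0, nat_lit 3, nat_lit 51582410729325903822593387581059035673938954505⟩,
    ⟨nat_lit 0, nat_lit 3, nat_lit 51582410729325903822595795987965299192997939465⟩,
    ⟨nat_lit 0, nat_lit 4, nat_lit 51582410729325903823213552359421891831627581705⟩,
    ⟨nat_lit 0, nat_lit 5, nat_lit 51582410729325903981359183452309607320815995145⟩,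
    ⟨nat_lit 0, nat_lit 4, nat_lit 51582410729325903981667459536311337760366070025⟩,
    ⟨nat_lit 0, nat_lit 5, nat_lit 51582410729325904139813090629199053249554483465⟩,
    ⟨nat_lit 0, nat_lit 4, nat_lit 51582410729325904140121366713200783689104558345⟩,
    ⟨nat_lit 0, nat_lit 5, nat_lit 51582410729325904298266997806088499178292971785⟩,
    ⟨nat_lit 0, nat_lit 4, nat_lit 51582410729325904298575273890090229617843046665⟩,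
    ⟨nat_lit 0, nat_lit 5, nat_lit 51582410729325904456720904982977945107031460105⟩,
    ⟨nat_lit 0, nat_lit 6, nat_lit 51582410729325944942002464762233110339265300745⟩,
    ⟨nat_lit 0, nat_lit 6, nat_lit 51582410729325985348365347037045283046679972105⟩,
    ⟨nat_lit 1, nat_lit 6, nat_lit 51582410729325944228955065652418076621824133385⟩,
    ⟨nat_lit 1, nat_lit 6, nat_lit 51582410729325984635317947927230249329238804745⟩,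
    ⟨nat_lit 1, nat_lit 5, nat_lit 51582410729325984714236625431673241854057974025⟩,
    ⟨nat_lit 1, nat_lit 5, nat_lit 51582410729325984872073980440559226903696312585⟩,
    ⟨nat_lit 1, nat_lit 4, nat_lit 51582410729325984872382256524560957343246387465⟩,
    ⟨nat_lit 1, nat_lit 5, nat_lit 51582410729325985030527887617448672832434800905⟩,
    ⟨nat_lit 1, nat_lit 4, nat_lit 51582410729325985030836163701450403271984875785⟩,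
    ⟨nat_lit 1, nat_lit 5, nat_lit 51582410729325985188981794794338118761173289225⟩,
    ⟨nat_lit 1, nat_lit 4, nat_lit 51582410729325985189290070878339849200723364105⟩,
    ⟨nat_lit 1, nat_lit 5, nat_lit 51582410729325985347435701971227564689911777545⟩,
    ⟨nat_lit 1, nat_lit 4, nat_lit 51582410729325985347743978055229295129461852425⟩,
    ⟨nat_lit 1, nat_lit 4, nat_lit 51582410729325985348360530223232756008562002185⟩,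
    ⟨nat_lit 1, nat_lit 3, nat_lit 51582410729325985348361734426685887768091494665⟩,
    ⟨nat_lit 1, nat_lit 3, nat_lit 51582410729325985348364142833592151287150479625⟩]

def KB_1 : List (List LN) := [[⟨nat_lit 0, nat_lit 4, nat_lit 51582410729325985348052254139231025569011927305⟩,
    ⟨nat_lit 0, nat_lit 4, nat_lit 51582410729325985189598346962341579640273438985⟩,
    ⟨nat_lit 0, nat_lit 4, nat_lit 51582410729325985031144439785452133711534950665⟩,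
    ⟨nat_lit 0, nat_lit 4, nat_lit 51582410729325984872690532608562687782796462345⟩,
    ⟨nat_lit 0, nat_lit 6, nat_lit 51582410729325964432136506789824162975531469065⟩,
    ⟨nat_lit 0, nat_lit 6, nat_lit 51582410729325924025773624515011990268116797705⟩,
    ⟨nat_lit 1, nat_lit 6, nat_lit 51582410729325965145183905899639196692972636425⟩,
    ⟨nat_lit 1, nat_lit 6, nat_lit 51582410729325924738821023624827023985557965065⟩,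
    ⟨nat_lit 1, nat_lit 4, nat_lit 51582410729325904298883549974091960057393121545⟩,
    ⟨nat_lit 1, nat_lit 4, nat_lit 51582410729325904140429642797202514128654633225⟩,
    ⟨nat_lit 1, nat_lit 4, nat_lit 51582410729325903981975735620313068199916144905⟩,
    ⟨nat_lit 1, nat_lit 4, nat_lit 51582410729325903823521828443423622271177656585⟩,
    ⟨nat_lit 1, nat_lit 4, nat_lit 51582410729325903822905276275420161392077506825⟩],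
  [⟨nat_lit 0, nat_lit 3, nat_lit 51582410729325985348365347037045283046679972105⟩,
    ⟨nat_lit 0, nat_lit 3, nat_lit 51582410729325985348362938630139019527620987145⟩,
    ⟨nat_lit 0, nat_lit 5, nat_lit 51582410729325985268517024466784572165092608265⟩,
    ⟨nat_lit 0, nat_lit 5, nat_lit 51582410729325985110063117289895126236354119945⟩,
    ⟨nat_lit 0, nat_lit 5, nat_lit 51582410729325984951609210113005680307615631625⟩,
    ⟨nat_lit 0, nat_lit 5, nat_lit 51582410729325984793155302936116234378877143305⟩,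
    ⟨nat_lit 1, nat_lit 5, nat_lit 51582410729325904535639582487420937631850629385⟩,
    ⟨nat_lit 1, nat_lit 5, nat_lit 51582410729325904377802227478534952582212290825⟩,
    ⟨nat_lit 1, nat_lit 5, nat_lit 51582410729325904219348320301645506653473802505⟩,
    ⟨nat_lit 1, nat_lit 5, nat_lit 51582410729325904060894413124756060724735314185⟩,
    ⟨nat_lit 1, nat_lit 5, nat_lit 51582410729325903902440505947866614795996825865⟩,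
    ⟨nat_lit 1, nat_lit 3, nat_lit 51582410729325903822597000191418430952527431945⟩,
    ⟨nat_lit 1, nat_lit 3, nat_lit 51582410729325903822594591784512167433468446985⟩]]

def CA : List LN := [⟨nat_lit 0, nat_lit 3, nat_lit 51582410729325903822592183377605903914409462025⟩,
    ⟨nat_lit 0, nat_lit 3, nat_lit 51582410729325903822593387581059035673938954505⟩,
    ⟨nat_lit 0, nat_lit 3, nat_lit 51582410729325903822594591784512167433468446985⟩,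
    ⟨nat_lit 0, nat_lit 3, nat_lit 51582410729325903822595795987965299192997939465⟩,
    ⟨nat_lit 0, nat_lit 4, nat_lit 51582410729325903822597000191418430952527431945⟩,
    ⟨nat_lit 0, nat_lit 4, nat_lit 51582410729325903822905276275420161392077506825⟩,
    ⟨nat_lit 0, nat_lit 4, nat_lit 51582410729325903823213552359421891831627581705⟩,
    ⟨nat_lit 0, nat_lit 5, nat_lit 51582410729325903823521828443423622271177656585⟩,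
    ⟨nat_lit 0, nat_lit 5, nat_lit 51582410729325903902440505947866614795996825865⟩,
    ⟨nat_lit 0, nat_lit 4, nat_lit 51582410729325903981359183452309607320815995145⟩,
    ⟨nat_lit 0, nat_lit 4, nat_lit 51582410729325903981667459536311337760366070025⟩,
    ⟨nat_lit 0, nat_lit 5, nat_lit 51582410729325903981975735620313068199916144905⟩,
    ⟨nat_lit 0, nat_lit 5, nat_lit 51582410729325904060894413124756060724735314185⟩,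
    ⟨nat_lit 0, nat_lit 4, nat_lit 51582410729325904139813090629199053249554483465⟩,
    ⟨nat_lit 0, nat_lit 4, nat_lit 51582410729325904140121366713200783689104558345⟩,
    ⟨nat_lit 0, nat_lit 5, nat_lit 51582410729325904140429642797202514128654633225⟩,
    ⟨nat_lit 0, nat_lit 5, nat_lit 51582410729325904219348320301645506653473802505⟩,
    ⟨nat_lit 0, nat_lit 4, nat_lit 51582410729325904298266997806088499178292971785⟩,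
    ⟨nat_lit 0, nat_lit 4, nat_lit 51582410729325904298575273890090229617843046665⟩,
    ⟨nat_lit 0, nat_lit 5, nat_lit 51582410729325904298883549974091960057393121545⟩,
    ⟨nat_lit 0, nat_lit 5, nat_lit 51582410729325904377802227478534952582212290825⟩,
    ⟨nat_lit 0, nat_lit 5, nat_lit 51582410729325904456720904982977945107031460105⟩,
    ⟨nat_lit 0, nat_lit 6, nat_lit 51582410729325904535639582487420937631850629385⟩,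
    ⟨nat_lit 0, nat_lit 6, nat_lit 51582410729325924738821023624827023985557965065⟩,
    ⟨nat_lit 0, nat_lit 6, nat_lit 51582410729325944942002464762233110339265300745⟩,
    ⟨nat_lit 0, nat_lit 6, nat_lit 51582410729325965145183905899639196692972636425⟩,
    ⟨nat_lit 1, nat_lit 6, nat_lit 51582410729325903822592183377605903914409462025⟩,
    ⟨nat_lit 1, nat_lit 6, nat_lit 51582410729325924025773624515011990268116797705⟩,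
    ⟨nat_lit 1, nat_lit 6, nat_lit 51582410729325944228955065652418076621824133385⟩,
    ⟨nat_lit 1, nat_lit 6, nat_lit 51582410729325964432136506789824162975531469065⟩,
    ⟨nat_lit 1, nat_lit 5, nat_lit 51582410729325984635317947927230249329238804745⟩,
    ⟨nat_lit 1, nat_lit 5, nat_lit 51582410729325984714236625431673241854057974025⟩,
    ⟨nat_lit 1, nat_lit 5, nat_lit 51582410729325984793155302936116234378877143305⟩,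
    ⟨nat_lit 1, nat_lit 4, nat_lit 51582410729325984872073980440559226903696312585⟩,
    ⟨nat_lit 1, nat_lit 4, nat_lit 51582410729325984872382256524560957343246387465⟩,
    ⟨nat_lit 1, nat_lit 5, nat_lit 51582410729325984872690532608562687782796462345⟩,
    ⟨nat_lit 1, nat_lit 5, nat_lit 51582410729325984951609210113005680307615631625⟩,
    ⟨nat_lit 1, nat_lit 4, nat_lit 51582410729325985030527887617448672832434800905⟩,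
    ⟨nat_lit 1, nat_lit 4, nat_lit 51582410729325985030836163701450403271984875785⟩,
    ⟨nat_lit 1, nat_lit 5, nat_lit 51582410729325985031144439785452133711534950665⟩,
    ⟨nat_lit 1, nat_lit 5, nat_lit 51582410729325985110063117289895126236354119945⟩,
    ⟨nat_lit 1, nat_lit 4, nat_lit 51582410729325985188981794794338118761173289225⟩,
    ⟨nat_lit 1, nat_lit 4, nat_lit 51582410729325985189290070878339849200723364105⟩,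
    ⟨nat_lit 1, nat_lit 5, nat_lit 51582410729325985189598346962341579640273438985⟩,
    ⟨nat_lit 1, nat_lit 5, nat_lit 51582410729325985268517024466784572165092608265⟩,
    ⟨nat_lit 1, nat_lit 4, nat_lit 51582410729325985347435701971227564689911777545⟩,
    ⟨nat_lit 1, nat_lit 4, nat_lit 51582410729325985347743978055229295129461852425⟩,
    ⟨nat_lit 1, nat_lit 4, nat_lit 51582410729325985348052254139231025569011927305⟩,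
    ⟨nat_lit 1, nat_lit 3, nat_lit 51582410729325985348360530223232756008562002185⟩,
    ⟨nat_lit 1, nat_lit 3, nat_lit 51582410729325985348361734426685887768091494665⟩,
    ⟨nat_lit 1, nat_lit 3, nat_lit 51582410729325985348362938630139019527620987145⟩,
    ⟨nat_lit 1, nat_lit 3, nat_lit 51582410729325985348364142833592151287150479625⟩]

def CB : List (List LN) := [[⟨nat_lit 0, nat_lit 4, nat_lit 51582410729325985348052254139231025569011927305⟩,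
    ⟨nat_lit 0, nat_lit 4, nat_lit 51582410729325985347743978055229295129461852425⟩,
    ⟨nat_lit 0, nat_lit 4, nat_lit 51582410729325985347435701971227564689911777545⟩,
    ⟨nat_lit 0, nat_lit 4, nat_lit 51582410729325985189290070878339849200723364105⟩,
    ⟨nat_lit 0, nat_lit 4, nat_lit 51582410729325985188981794794338118761173289225⟩,
    ⟨nat_lit 0, nat_lit 4, nat_lit 51582410729325985030836163701450403271984875785⟩,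
    ⟨nat_lit 0, nat_lit 4, nat_lit 51582410729325985030527887617448672832434800905⟩,
    ⟨nat_lit 0, nat_lit 4, nat_lit 51582410729325984872382256524560957343246387465⟩,
    ⟨nat_lit 0, nat_lit 4, nat_lit 51582410729325984872073980440559226903696312585⟩,
    ⟨nat_lit 0, nat_lit 6, nat_lit 51582410729325964432136506789824162975531469065⟩,
    ⟨nat_lit 0, nat_lit 6, nat_lit 51582410729325944228955065652418076621824133385⟩,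
    ⟨nat_lit 0, nat_lit 6, nat_lit 51582410729325924025773624515011990268116797705⟩,
    ⟨nat_lit 0, nat_lit 6, nat_lit 51582410729325903822592183377605903914409462025⟩,
    ⟨nat_lit 1, nat_lit 6, nat_lit 51582410729325965145183905899639196692972636425⟩,
    ⟨nat_lit 1, nat_lit 6, nat_lit 51582410729325944942002464762233110339265300745⟩,
    ⟨nat_lit 1, nat_lit 6, nat_lit 51582410729325924738821023624827023985557965065⟩,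
    ⟨nat_lit 1, nat_lit 6, nat_lit 51582410729325904535639582487420937631850629385⟩,
    ⟨nat_lit 1, nat_lit 4, nat_lit 51582410729325904298575273890090229617843046665⟩,
    ⟨nat_lit 1, nat_lit 4, nat_lit 51582410729325904298266997806088499178292971785⟩,
    ⟨nat_lit 1, nat_lit 4, nat_lit 51582410729325904140121366713200783689104558345⟩,
    ⟨nat_lit 1, nat_lit 4, nat_lit 51582410729325904139813090629199053249554483465⟩,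
    ⟨nat_lit 1, nat_lit 4, nat_lit 51582410729325903981667459536311337760366070025⟩,
    ⟨nat_lit 1, nat_lit 4, nat_lit 51582410729325903981359183452309607320815995145⟩,
    ⟨nat_lit 1, nat_lit 4, nat_lit 51582410729325903823213552359421891831627581705⟩,
    ⟨nat_lit 1, nat_lit 4, nat_lit 51582410729325903822905276275420161392077506825⟩,
    ⟨nat_lit 1, nat_lit 4, nat_lit 51582410729325903822597000191418430952527431945⟩],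
  [⟨nat_lit 0, nat_lit 3, nat_lit 51582410729325985348364142833592151287150479625⟩,
    ⟨nat_lit 0, nat_lit 3, nat_lit 51582410729325985348362938630139019527620987145⟩,
    ⟨nat_lit 0, nat_lit 3, nat_lit 51582410729325985348361734426685887768091494665⟩,
    ⟨nat_lit 0, nat_lit 3, nat_lit 51582410729325985348360530223232756008562002185⟩,
    ⟨nat_lit 0, nat_lit 5, nat_lit 51582410729325985268517024466784572165092608265⟩,
    ⟨nat_lit 0, nat_lit 5, nat_lit 51582410729325985189598346962341579640273438985⟩,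
    ⟨nat_lit 0, nat_lit 5, nat_lit 51582410729325985110063117289895126236354119945⟩,
    ⟨nat_lit 0, nat_lit 5, nat_lit 51582410729325985031144439785452133711534950665⟩,
    ⟨nat_lit 0, nat_lit 5, nat_lit 51582410729325984951609210113005680307615631625⟩,
    ⟨nat_lit 0, nat_lit 5, nat_lit 51582410729325984872690532608562687782796462345⟩,
    ⟨nat_lit 0, nat_lit 5, nat_lit 51582410729325984793155302936116234378877143305⟩,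
    ⟨nat_lit 0, nat_lit 5, nat_lit 51582410729325984714236625431673241854057974025⟩,
    ⟨nat_lit 0, nat_lit 5, nat_lit 51582410729325984635317947927230249329238804745⟩,
    ⟨nat_lit 1, nat_lit 5, nat_lit 51582410729325904456720904982977945107031460105⟩,
    ⟨nat_lit 1, nat_lit 5, nat_lit 51582410729325904377802227478534952582212290825⟩,
    ⟨nat_lit 1, nat_lit 5, nat_lit 51582410729325904298883549974091960057393121545⟩,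
    ⟨nat_lit 1, nat_lit 5, nat_lit 51582410729325904219348320301645506653473802505⟩,
    ⟨nat_lit 1, nat_lit 5, nat_lit 51582410729325904140429642797202514128654633225⟩,
    ⟨nat_lit 1, nat_lit 5, nat_lit 51582410729325904060894413124756060724735314185⟩,
    ⟨nat_lit 1, nat_lit 5, nat_lit 51582410729325903981975735620313068199916144905⟩,
    ⟨nat_lit 1, nat_lit 5, nat_lit 51582410729325903902440505947866614795996825865⟩,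
    ⟨nat_lit 1, nat_lit 5, nat_lit 51582410729325903823521828443423622271177656585⟩,
    ⟨nat_lit 1, nat_lit 3, nat_lit 51582410729325903822595795987965299192997939465⟩,
    ⟨nat_lit 1, nat_lit 3, nat_lit 51582410729325903822594591784512167433468446985⟩,
    ⟨nat_lit 1, nat_lit 3, nat_lit 51582410729325903822593387581059035673938954505⟩,
    ⟨nat_lit 1, nat_lit 3, nat_lit 51582410729325903822592183377605903914409462025⟩]]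

def KAf : ℕ → List LN
  | 0 => KA_0
  | _ => KA_1

def KBf : ℕ → List (List LN)
  | 0 => KB_0
  | _ => KB_1

def kp_0_0 : List PK := [⟨nat_lit 6, [⟨nat_lit 0, nat_lit 1, ⟨nat_lit 5, nat_lit 7, nat_lit 1, nat_lit 40, nat_lit 16777215⟩⟩,
    ⟨nat_lit 1, nat_lit 1, ⟨nat_lit 6, nat_lit 8, nat_lit 1, nat_lit 37, nat_lit 16777215⟩⟩,
    ⟨nat_lit 0, nat_lit 2, ⟨nat_lit 5, nat_lit 7, nat_lit 2, nat_lit 9512, nat_lit 4294967295⟩⟩],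
    [⟨nat_lit 0, nat_lit 2, ⟨nat_lit 6, nat_lit 5, nat_lit 7, nat_lit 2, nat_lit 9512, nat_lit 72057594037927935⟩⟩]⟩,
  ⟨nat_lit 6, [⟨nat_lit 0, nat_lit 1, ⟨nat_lit 5, nat_lit 7, nat_lit 1, nat_lit 40, nat_lit 16777215⟩⟩,
    ⟨nat_lit 1, nat_lit 1, ⟨nat_lit 6, nat_lit 8, nat_lit 1, nat_lit 38, nat_lit 16777215⟩⟩,
    ⟨nat_lit 0, nat_lit 2, ⟨nat_lit 5, nat_lit 7, nat_lit 2, nat_lit 9768, nat_lit 4294967295⟩⟩],
    []⟩,
  ⟨nat_lit 6, [⟨nat_lit 1, nat_lit 1, ⟨nat_lit 6, nat_lit 8, nat_lit 1, nat_lit 38, nat_lit 16777215⟩⟩,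
    ⟨nat_lit 0, nat_lit 1, ⟨nat_lit 5, nat_lit 7, nat_lit 1, nat_lit 41, nat_lit 16777215⟩⟩,
    ⟨nat_lit 0, nat_lit 2, ⟨nat_lit 5, nat_lit 7, nat_lit 2, nat_lit 9769, nat_lit 4294967295⟩⟩],
    [⟨nat_lit 0, nat_lit 2, ⟨nat_lit 6, nat_lit 5, nat_lit 7, nat_lit 2, nat_lit 9769, nat_lit 72057594037927935⟩⟩]⟩,
  ⟨nat_lit 7, [⟨nat_lit 1, nat_lit 1, ⟨nat_lit 6, nat_lit 7, nat_lit 1, nat_lit 39, nat_lit 16777215⟩⟩,
    ⟨nat_lit 0, nat_lit 2, ⟨nat_lit 5, nat_lit 6, nat_lit 2, nat_lit 10151, nat_lit 4294967295⟩⟩],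
    [⟨nat_lit 0, nat_lit 2, ⟨nat_lit 7, nat_lit 5, nat_lit 6, nat_lit 2, nat_lit 10151, nat_lit 72057594037927935⟩⟩]⟩,
  ⟨nat_lit 7, [⟨nat_lit 1, nat_lit 1, ⟨nat_lit 6, nat_lit 7, nat_lit 1, nat_lit 40, nat_lit 16777215⟩⟩,
    ⟨nat_lit 0, nat_lit 2, ⟨nat_lit 5, nat_lit 6, nat_lit 2, nat_lit 10407, nat_lit 4294967295⟩⟩],
    [⟨nat_lit 0, nat_lit 2, ⟨nat_lit 7, nat_lit 5, nat_lit 6, nat_lit 2, nat_lit 10407, nat_lit 72057594037927935⟩⟩]⟩,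
  ⟨nat_lit 7, [⟨nat_lit 1, nat_lit 1, ⟨nat_lit 6, nat_lit 7, nat_lit 1, nat_lit 38, nat_lit 16777215⟩⟩,
    ⟨nat_lit 0, nat_lit 2, ⟨nat_lit 5, nat_lit 6, nat_lit 2, nat_lit 9897, nat_lit 4294967295⟩⟩],
    [⟨nat_lit 0, nat_lit 2, ⟨nat_lit 7, nat_lit 5, nat_lit 6, nat_lit 2, nat_lit 9897, nat_lit 72057594037927935⟩⟩]⟩,
  ⟨nat_lit 7, [⟨nat_lit 0, nat_lit 1, ⟨nat_lit 6, nat_lit 7, nat_lit 1, nat_lit 38, nat_lit 16777215⟩⟩,
    ⟨nat_lit 0, nat_lit 2, ⟨nat_lit 6, nat_lit 7, nat_lit 2, nat_lit 26406, nat_lit 4294967295⟩⟩],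
    [⟨nat_lit 0, nat_lit 2, ⟨nat_lit 7, nat_lit 6, nat_lit 7, nat_lit 2, nat_lit 26406, nat_lit 72057594037927935⟩⟩]⟩,
  ⟨nat_lit 7, [⟨nat_lit 0, nat_lit 1, ⟨nat_lit 6, nat_lit 7, nat_lit 1, nat_lit 39, nat_lit 16777215⟩⟩,
    ⟨nat_lit 0, nat_lit 2, ⟨nat_lit 6, nat_lit 7, nat_lit 2, nat_lit 26407, nat_lit 4294967295⟩⟩],
    [⟨nat_lit 0, nat_lit 2, ⟨nat_lit 7, nat_lit 6, nat_lit 7, nat_lit 2, nat_lit 26407, nat_lit 72057594037927935⟩⟩]⟩,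
  ⟨nat_lit 7, [⟨nat_lit 0, nat_lit 1, ⟨nat_lit 6, nat_lit 7, nat_lit 1, nat_lit 40, nat_lit 16777215⟩⟩,
    ⟨nat_lit 0, nat_lit 2, ⟨nat_lit 6, nat_lit 7, nat_lit 2, nat_lit 25896, nat_lit 4294967295⟩⟩],
    [⟨nat_lit 0, nat_lit 2, ⟨nat_lit 7, nat_lit 6, nat_lit 7, nat_lit 2, nat_lit 25896, nat_lit 72057594037927935⟩⟩]⟩,
  ⟨nat_lit 8, [⟨nat_lit 1, nat_lit 1, ⟨nat_lit 6, nat_lit 6, nat_lit 1, nat_lit 39, nat_lit 16777215⟩⟩,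
    ⟨nat_lit 0, nat_lit 2, ⟨nat_lit 5, nat_lit 5, nat_lit 2, nat_lit 10151, nat_lit 4294967295⟩⟩],
    [⟨nat_lit 0, nat_lit 2, ⟨nat_lit 8, nat_lit 5, nat_lit 5, nat_lit 2, nat_lit 10151, nat_lit 72057594037927935⟩⟩]⟩,
  ⟨nat_lit 8, [⟨nat_lit 1, nat_lit 1, ⟨nat_lit 6, nat_lit 6, nat_lit 1, nat_lit 38, nat_lit 16777215⟩⟩,
    ⟨nat_lit 0, nat_lit 2, ⟨nat_lit 5, nat_lit 5, nat_lit 2, nat_lit 9896, nat_lit 4294967295⟩⟩],
    [⟨nat_lit 0, nat_lit 2, ⟨nat_lit 8, nat_lit 5, nat_lit 5, nat_lit 2, nat_lit 9896, nat_lit 72057594037927935⟩⟩]⟩,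
  ⟨nat_lit 8, [⟨nat_lit 1, nat_lit 1, ⟨nat_lit 6, nat_lit 6, nat_lit 1, nat_lit 37, nat_lit 16777215⟩⟩,
    ⟨nat_lit 0, nat_lit 2, ⟨nat_lit 5, nat_lit 5, nat_lit 2, nat_lit 9641, nat_lit 4294967295⟩⟩],
    [⟨nat_lit 0, nat_lit 2, ⟨nat_lit 8, nat_lit 5, nat_lit 5, nat_lit 2, nat_lit 9641, nat_lit 72057594037927935⟩⟩]⟩,
  ⟨nat_lit 8, [⟨nat_lit 1, nat_lit 1, ⟨nat_lit 7, nat_lit 7, nat_lit 1, nat_lit 39, nat_lit 16777215⟩⟩,
    ⟨nat_lit 0, nat_lit 2, ⟨nat_lit 6, nat_lit 6, nat_lit 2, nat_lit 10152, nat_lit 4294967295⟩⟩],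
    [⟨nat_lit 0, nat_lit 2, ⟨nat_lit 8, nat_lit 6, nat_lit 6, nat_lit 2, nat_lit 10152, nat_lit 72057594037927935⟩⟩]⟩,
  ⟨nat_lit 8, [⟨nat_lit 0, nat_lit 1, ⟨nat_lit 6, nat_lit 6, nat_lit 1, nat_lit 39, nat_lit 16777215⟩⟩,
    ⟨nat_lit 0, nat_lit 2, ⟨nat_lit 6, nat_lit 6, nat_lit 2, nat_lit 26151, nat_lit 4294967295⟩⟩],
    [⟨nat_lit 0, nat_lit 2, ⟨nat_lit 8, nat_lit 6, nat_lit 6, nat_lit 2, nat_lit 26151, nat_lit 72057594037927935⟩⟩]⟩,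
  ⟨nat_lit 8, [⟨nat_lit 0, nat_lit 1, ⟨nat_lit 7, nat_lit 7, nat_lit 1, nat_lit 39, nat_lit 16777215⟩⟩,
    ⟨nat_lit 0, nat_lit 2, ⟨nat_lit 7, nat_lit 7, nat_lit 2, nat_lit 26407, nat_lit 4294967295⟩⟩],
    [⟨nat_lit 0, nat_lit 2, ⟨nat_lit 8, nat_lit 7, nat_lit 7, nat_lit 2, nat_lit 26407, nat_lit 72057594037927935⟩⟩]⟩,
  ⟨nat_lit 8, [⟨nat_lit 0, nat_lit 1, ⟨nat_lit 7, nat_lit 7, nat_lit 1, nat_lit 40, nat_lit 16777215⟩⟩,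
    ⟨nat_lit 0, nat_lit 2, ⟨nat_lit 7, nat_lit 7, nat_lit 2, nat_lit 26152, nat_lit 4294967295⟩⟩],
    [⟨nat_lit 0, nat_lit 2, ⟨nat_lit 8, nat_lit 7, nat_lit 7, nat_lit 2, nat_lit 26152, nat_lit 72057594037927935⟩⟩]⟩,
  ⟨nat_lit 8, [⟨nat_lit 0, nat_lit 1, ⟨nat_lit 7, nat_lit 7, nat_lit 1, nat_lit 41, nat_lit 16777215⟩⟩,
    ⟨nat_lit 0, nat_lit 2, ⟨nat_lit 7, nat_lit 7, nat_lit 2, nat_lit 25897, nat_lit 4294967295⟩⟩],
    [⟨nat_lit 0, nat_lit 2, ⟨nat_lit 8, nat_lit 7, nat_lit 7, nat_lit 2, nat_lit 25897, nat_lit 72057594037927935⟩⟩]⟩,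
  ⟨nat_lit 9, [⟨nat_lit 1, nat_lit 1, ⟨nat_lit 7, nat_lit 6, nat_lit 1, nat_lit 38, nat_lit 16777215⟩⟩,
    ⟨nat_lit 0, nat_lit 2, ⟨nat_lit 6, nat_lit 5, nat_lit 2, nat_lit 9896, nat_lit 4294967295⟩⟩],
    [⟨nat_lit 0, nat_lit 2, ⟨nat_lit 9, nat_lit 6, nat_lit 5, nat_lit 2, nat_lit 9896, nat_lit 72057594037927935⟩⟩]⟩,
  ⟨nat_lit 9, [⟨nat_lit 0, nat_lit 1, ⟨nat_lit 7, nat_lit 6, nat_lit 1, nat_lit 40, nat_lit 16777215⟩⟩,
    ⟨nat_lit 0, nat_lit 2, ⟨nat_lit 7, nat_lit 6, nat_lit 2, nat_lit 26152, nat_lit 4294967295⟩⟩],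
    [⟨nat_lit 0, nat_lit 2, ⟨nat_lit 9, nat_lit 7, nat_lit 6, nat_lit 2, nat_lit 26152, nat_lit 72057594037927935⟩⟩]⟩]

def kp_0_1 : List PK := [⟨nat_lit 6, [⟨nat_lit 0, nat_lit 1, ⟨nat_lit 5, nat_lit 7, nat_lit 1, nat_lit 40, nat_lit 16777215⟩⟩,
    ⟨nat_lit 1, nat_lit 1, ⟨nat_lit 6, nat_lit 8, nat_lit 1, nat_lit 38, nat_lit 16777215⟩⟩,
    ⟨nat_lit 0, nat_lit 2, ⟨nat_lit 5, nat_lit 7, nat_lit 2, nat_lit 9768, nat_lit 4294967295⟩⟩],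
    [⟨nat_lit 0, nat_lit 2, ⟨nat_lit 6, nat_lit 5, nat_lit 7, nat_lit 2, nat_lit 9768, nat_lit 72057594037927935⟩⟩]⟩,
  ⟨nat_lit 6, [⟨nat_lit 0, nat_lit 1, ⟨nat_lit 5, nat_lit 7, nat_lit 1, nat_lit 41, nat_lit 16777215⟩⟩,
    ⟨nat_lit 1, nat_lit 1, ⟨nat_lit 6, nat_lit 8, nat_lit 1, nat_lit 38, nat_lit 16777215⟩⟩,
    ⟨nat_lit 0, nat_lit 2, ⟨nat_lit 5, nat_lit 7, nat_lit 2, nat_lit 9769, nat_lit 4294967295⟩⟩],
    []⟩,
  ⟨nat_lit 7, [⟨nat_lit 1, nat_lit 1, ⟨nat_lit 6, nat_lit 7, nat_lit 1, nat_lit 39, nat_lit 16777215⟩⟩,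
    ⟨nat_lit 0, nat_lit 2, ⟨nat_lit 5, nat_lit 6, nat_lit 2, nat_lit 10151, nat_lit 4294967295⟩⟩],
    [⟨nat_lit 0, nat_lit 2, ⟨nat_lit 7, nat_lit 5, nat_lit 6, nat_lit 2, nat_lit 10151, nat_lit 72057594037927935⟩⟩]⟩,
  ⟨nat_lit 7, [⟨nat_lit 1, nat_lit 1, ⟨nat_lit 6, nat_lit 7, nat_lit 1, nat_lit 38, nat_lit 16777215⟩⟩,
    ⟨nat_lit 0, nat_lit 2, ⟨nat_lit 5, nat_lit 6, nat_lit 2, nat_lit 9896, nat_lit 4294967295⟩⟩],
    [⟨nat_lit 0, nat_lit 2, ⟨nat_lit 7, nat_lit 5, nat_lit 6, nat_lit 2, nat_lit 9896, nat_lit 72057594037927935⟩⟩]⟩,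
  ⟨nat_lit 7, [⟨nat_lit 1, nat_lit 1, ⟨nat_lit 6, nat_lit 7, nat_lit 1, nat_lit 37, nat_lit 16777215⟩⟩,
    ⟨nat_lit 0, nat_lit 2, ⟨nat_lit 5, nat_lit 6, nat_lit 2, nat_lit 9641, nat_lit 4294967295⟩⟩],
    [⟨nat_lit 0, nat_lit 2, ⟨nat_lit 7, nat_lit 5, nat_lit 6, nat_lit 2, nat_lit 9641, nat_lit 72057594037927935⟩⟩]⟩,
  ⟨nat_lit 7, [⟨nat_lit 0, nat_lit 1, ⟨nat_lit 6, nat_lit 7, nat_lit 1, nat_lit 39, nat_lit 16777215⟩⟩,
    ⟨nat_lit 0, nat_lit 2, ⟨nat_lit 6, nat_lit 7, nat_lit 2, nat_lit 26151, nat_lit 4294967295⟩⟩],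
    [⟨nat_lit 0, nat_lit 2, ⟨nat_lit 7, nat_lit 6, nat_lit 7, nat_lit 2, nat_lit 26151, nat_lit 72057594037927935⟩⟩]⟩,
  ⟨nat_lit 8, [⟨nat_lit 1, nat_lit 1, ⟨nat_lit 6, nat_lit 6, nat_lit 1, nat_lit 38, nat_lit 16777215⟩⟩,
    ⟨nat_lit 0, nat_lit 2, ⟨nat_lit 5, nat_lit 5, nat_lit 2, nat_lit 9896, nat_lit 4294967295⟩⟩],
    [⟨nat_lit 0, nat_lit 2, ⟨nat_lit 8, nat_lit 5, nat_lit 5, nat_lit 2, nat_lit 9896, nat_lit 72057594037927935⟩⟩]⟩,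
  ⟨nat_lit 8, [⟨nat_lit 1, nat_lit 1, ⟨nat_lit 6, nat_lit 6, nat_lit 1, nat_lit 37, nat_lit 16777215⟩⟩,
    ⟨nat_lit 0, nat_lit 2, ⟨nat_lit 5, nat_lit 5, nat_lit 2, nat_lit 9641, nat_lit 4294967295⟩⟩],
    [⟨nat_lit 0, nat_lit 2, ⟨nat_lit 8, nat_lit 5, nat_lit 5, nat_lit 2, nat_lit 9641, nat_lit 72057594037927935⟩⟩]⟩,
  ⟨nat_lit 8, [⟨nat_lit 1, nat_lit 1, ⟨nat_lit 6, nat_lit 6, nat_lit 1, nat_lit 36, nat_lit 16777215⟩⟩,
    ⟨nat_lit 0, nat_lit 2, ⟨nat_lit 5, nat_lit 5, nat_lit 2, nat_lit 9386, nat_lit 4294967295⟩⟩],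
    [⟨nat_lit 0, nat_lit 2, ⟨nat_lit 8, nat_lit 5, nat_lit 5, nat_lit 2, nat_lit 9386, nat_lit 72057594037927935⟩⟩]⟩,
  ⟨nat_lit 8, [⟨nat_lit 1, nat_lit 1, ⟨nat_lit 7, nat_lit 7, nat_lit 1, nat_lit 39, nat_lit 16777215⟩⟩,
    ⟨nat_lit 0, nat_lit 2, ⟨nat_lit 6, nat_lit 6, nat_lit 2, nat_lit 10150, nat_lit 4294967295⟩⟩],
    [⟨nat_lit 0, nat_lit 2, ⟨nat_lit 8, nat_lit 6, nat_lit 6, nat_lit 2, nat_lit 10150, nat_lit 72057594037927935⟩⟩]⟩,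
  ⟨nat_lit 8, [⟨nat_lit 1, nat_lit 1, ⟨nat_lit 7, nat_lit 7, nat_lit 1, nat_lit 38, nat_lit 16777215⟩⟩,
    ⟨nat_lit 0, nat_lit 2, ⟨nat_lit 6, nat_lit 6, nat_lit 2, nat_lit 9896, nat_lit 4294967295⟩⟩],
    [⟨nat_lit 0, nat_lit 2, ⟨nat_lit 8, nat_lit 6, nat_lit 6, nat_lit 2, nat_lit 9896, nat_lit 72057594037927935⟩⟩]⟩,
  ⟨nat_lit 8, [⟨nat_lit 0, nat_lit 1, ⟨nat_lit 6, nat_lit 6, nat_lit 1, nat_lit 38, nat_lit 16777215⟩⟩,
    ⟨nat_lit 0, nat_lit 2, ⟨nat_lit 6, nat_lit 6, nat_lit 2, nat_lit 26406, nat_lit 4294967295⟩⟩],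
    [⟨nat_lit 0, nat_lit 2, ⟨nat_lit 8, nat_lit 6, nat_lit 6, nat_lit 2, nat_lit 26406, nat_lit 72057594037927935⟩⟩]⟩,
  ⟨nat_lit 8, [⟨nat_lit 0, nat_lit 1, ⟨nat_lit 7, nat_lit 7, nat_lit 1, nat_lit 40, nat_lit 16777215⟩⟩,
    ⟨nat_lit 0, nat_lit 2, ⟨nat_lit 7, nat_lit 7, nat_lit 2, nat_lit 26408, nat_lit 4294967295⟩⟩],
    [⟨nat_lit 0, nat_lit 2, ⟨nat_lit 8, nat_lit 7, nat_lit 7, nat_lit 2, nat_lit 26408, nat_lit 72057594037927935⟩⟩]⟩,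
  ⟨nat_lit 9, [⟨nat_lit 1, nat_lit 1, ⟨nat_lit 7, nat_lit 6, nat_lit 1, nat_lit 39, nat_lit 16777215⟩⟩,
    ⟨nat_lit 0, nat_lit 2, ⟨nat_lit 6, nat_lit 5, nat_lit 2, nat_lit 10151, nat_lit 4294967295⟩⟩],
    [⟨nat_lit 0, nat_lit 2, ⟨nat_lit 9, nat_lit 6, nat_lit 5, nat_lit 2, nat_lit 10151, nat_lit 72057594037927935⟩⟩]⟩,
  ⟨nat_lit 9, [⟨nat_lit 1, nat_lit 1, ⟨nat_lit 7, nat_lit 6, nat_lit 1, nat_lit 38, nat_lit 16777215⟩⟩,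
    ⟨nat_lit 0, nat_lit 2, ⟨nat_lit 6, nat_lit 5, nat_lit 2, nat_lit 9896, nat_lit 4294967295⟩⟩],
    [⟨nat_lit 0, nat_lit 2, ⟨nat_lit 9, nat_lit 6, nat_lit 5, nat_lit 2, nat_lit 9896, nat_lit 72057594037927935⟩⟩]⟩,
  ⟨nat_lit 9, [⟨nat_lit 1, nat_lit 1, ⟨nat_lit 7, nat_lit 6, nat_lit 1, nat_lit 37, nat_lit 16777215⟩⟩,
    ⟨nat_lit 0, nat_lit 2, ⟨nat_lit 6, nat_lit 5, nat_lit 2, nat_lit 9641, nat_lit 4294967295⟩⟩],
    [⟨nat_lit 0, nat_lit 2, ⟨nat_lit 9, nat_lit 6, nat_lit 5, nat_lit 2, nat_lit 9641, nat_lit 72057594037927935⟩⟩]⟩,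
  ⟨nat_lit 9, [⟨nat_lit 0, nat_lit 1, ⟨nat_lit 7, nat_lit 6, nat_lit 1, nat_lit 39, nat_lit 16777215⟩⟩,
    ⟨nat_lit 0, nat_lit 2, ⟨nat_lit 7, nat_lit 6, nat_lit 2, nat_lit 26151, nat_lit 4294967295⟩⟩],
    [⟨nat_lit 0, nat_lit 2, ⟨nat_lit 9, nat_lit 7, nat_lit 6, nat_lit 2, nat_lit 26151, nat_lit 72057594037927935⟩⟩]⟩,
  ⟨nat_lit 10, [⟨nat_lit 0, nat_lit 1, ⟨nat_lit 7, nat_lit 5, nat_lit 1, nat_lit 40, nat_lit 16777215⟩⟩,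
    ⟨nat_lit 1, nat_lit 1, ⟨nat_lit 8, nat_lit 6, nat_lit 1, nat_lit 38, nat_lit 16777215⟩⟩,
    ⟨nat_lit 0, nat_lit 2, ⟨nat_lit 7, nat_lit 5, nat_lit 2, nat_lit 9768, nat_lit 4294967295⟩⟩],
    [⟨nat_lit 0, nat_lit 2, ⟨nat_lit 10, nat_lit 7, nat_lit 5, nat_lit 2, nat_lit 9768, nat_lit 72057594037927935⟩⟩]⟩,
  ⟨nat_lit 10, [⟨nat_lit 0, nat_lit 1, ⟨nat_lit 7, nat_lit 5, nat_lit 1, nat_lit 41, nat_lit 16777215⟩⟩,
    ⟨nat_lit 1, nat_lit 1, ⟨nat_lit 8, nat_lit 6, nat_lit 1, nat_lit 38, nat_lit 16777215⟩⟩,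
    ⟨nat_lit 0, nat_lit 2, ⟨nat_lit 7, nat_lit 5, nat_lit 2, nat_lit 9769, nat_lit 4294967295⟩⟩],
    []⟩]

def kp_1_0 : List PK := [⟨nat_lit 6, [⟨nat_lit 0, nat_lit 1, ⟨nat_lit 5, nat_lit 7, nat_lit 1, nat_lit 40, nat_lit 16777215⟩⟩,
    ⟨nat_lit 1, nat_lit 1, ⟨nat_lit 6, nat_lit 8, nat_lit 1, nat_lit 37, nat_lit 16777215⟩⟩,
    ⟨nat_lit 0, nat_lit 2, ⟨nat_lit 5, nat_lit 7, nat_lit 2, nat_lit 9512, nat_lit 4294967295⟩⟩],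
    []⟩,
  ⟨nat_lit 6, [⟨nat_lit 1, nat_lit 1, ⟨nat_lit 6, nat_lit 8, nat_lit 1, nat_lit 38, nat_lit 16777215⟩⟩,
    ⟨nat_lit 0, nat_lit 1, ⟨nat_lit 5, nat_lit 7, nat_lit 1, nat_lit 40, nat_lit 16777215⟩⟩,
    ⟨nat_lit 0, nat_lit 2, ⟨nat_lit 5, nat_lit 7, nat_lit 2, nat_lit 9768, nat_lit 4294967295⟩⟩],
    [⟨nat_lit 0, nat_lit 2, ⟨nat_lit 6, nat_lit 5, nat_lit 7, nat_lit 2, nat_lit 9768, nat_lit 72057594037927935⟩⟩]⟩,
  ⟨nat_lit 7, [⟨nat_lit 1, nat_lit 1, ⟨nat_lit 6, nat_lit 7, nat_lit 1, nat_lit 39, nat_lit 16777215⟩⟩,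
    ⟨nat_lit 0, nat_lit 2, ⟨nat_lit 5, nat_lit 6, nat_lit 2, nat_lit 10152, nat_lit 4294967295⟩⟩],
    [⟨nat_lit 0, nat_lit 2, ⟨nat_lit 7, nat_lit 5, nat_lit 6, nat_lit 2, nat_lit 10152, nat_lit 72057594037927935⟩⟩]⟩,
  ⟨nat_lit 7, [⟨nat_lit 0, nat_lit 1, ⟨nat_lit 6, nat_lit 7, nat_lit 1, nat_lit 39, nat_lit 16777215⟩⟩,
    ⟨nat_lit 0, nat_lit 2, ⟨nat_lit 6, nat_lit 7, nat_lit 2, nat_lit 26407, nat_lit 4294967295⟩⟩],
    [⟨nat_lit 0, nat_lit 2, ⟨nat_lit 7, nat_lit 6, nat_lit 7, nat_lit 2, nat_lit 26407, nat_lit 72057594037927935⟩⟩]⟩,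
  ⟨nat_lit 7, [⟨nat_lit 0, nat_lit 1, ⟨nat_lit 6, nat_lit 7, nat_lit 1, nat_lit 40, nat_lit 16777215⟩⟩,
    ⟨nat_lit 0, nat_lit 2, ⟨nat_lit 6, nat_lit 7, nat_lit 2, nat_lit 26152, nat_lit 4294967295⟩⟩],
    [⟨nat_lit 0, nat_lit 2, ⟨nat_lit 7, nat_lit 6, nat_lit 7, nat_lit 2, nat_lit 26152, nat_lit 72057594037927935⟩⟩]⟩,
  ⟨nat_lit 7, [⟨nat_lit 0, nat_lit 1, ⟨nat_lit 6, nat_lit 7, nat_lit 1, nat_lit 41, nat_lit 16777215⟩⟩,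
    ⟨nat_lit 0, nat_lit 2, ⟨nat_lit 6, nat_lit 7, nat_lit 2, nat_lit 25897, nat_lit 4294967295⟩⟩],
    [⟨nat_lit 0, nat_lit 2, ⟨nat_lit 7, nat_lit 6, nat_lit 7, nat_lit 2, nat_lit 25897, nat_lit 72057594037927935⟩⟩]⟩,
  ⟨nat_lit 8, [⟨nat_lit 1, nat_lit 1, ⟨nat_lit 6, nat_lit 6, nat_lit 1, nat_lit 38, nat_lit 16777215⟩⟩,
    ⟨nat_lit 0, nat_lit 2, ⟨nat_lit 5, nat_lit 5, nat_lit 2, nat_lit 9895, nat_lit 4294967295⟩⟩],
    [⟨nat_lit 0, nat_lit 2, ⟨nat_lit 8, nat_lit 5, nat_lit 5, nat_lit 2, nat_lit 9895, nat_lit 72057594037927935⟩⟩]⟩,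
  ⟨nat_lit 8, [⟨nat_lit 1, nat_lit 1, ⟨nat_lit 7, nat_lit 7, nat_lit 1, nat_lit 40, nat_lit 16777215⟩⟩,
    ⟨nat_lit 0, nat_lit 2, ⟨nat_lit 6, nat_lit 6, nat_lit 2, nat_lit 10407, nat_lit 4294967295⟩⟩],
    [⟨nat_lit 0, nat_lit 2, ⟨nat_lit 8, nat_lit 6, nat_lit 6, nat_lit 2, nat_lit 10407, nat_lit 72057594037927935⟩⟩]⟩,
  ⟨nat_lit 8, [⟨nat_lit 0, nat_lit 1, ⟨nat_lit 6, nat_lit 6, nat_lit 1, nat_lit 39, nat_lit 16777215⟩⟩,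
    ⟨nat_lit 0, nat_lit 2, ⟨nat_lit 6, nat_lit 6, nat_lit 2, nat_lit 26663, nat_lit 4294967295⟩⟩],
    [⟨nat_lit 0, nat_lit 2, ⟨nat_lit 8, nat_lit 6, nat_lit 6, nat_lit 2, nat_lit 26663, nat_lit 72057594037927935⟩⟩]⟩,
  ⟨nat_lit 8, [⟨nat_lit 0, nat_lit 1, ⟨nat_lit 6, nat_lit 6, nat_lit 1, nat_lit 40, nat_lit 16777215⟩⟩,
    ⟨nat_lit 0, nat_lit 2, ⟨nat_lit 6, nat_lit 6, nat_lit 2, nat_lit 26152, nat_lit 4294967295⟩⟩],
    [⟨nat_lit 0, nat_lit 2, ⟨nat_lit 8, nat_lit 6, nat_lit 6, nat_lit 2, nat_lit 26152, nat_lit 72057594037927935⟩⟩]⟩,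
  ⟨nat_lit 8, [⟨nat_lit 0, nat_lit 1, ⟨nat_lit 7, nat_lit 7, nat_lit 1, nat_lit 40, nat_lit 16777215⟩⟩,
    ⟨nat_lit 0, nat_lit 2, ⟨nat_lit 7, nat_lit 7, nat_lit 2, nat_lit 26152, nat_lit 4294967295⟩⟩],
    [⟨nat_lit 0, nat_lit 2, ⟨nat_lit 8, nat_lit 7, nat_lit 7, nat_lit 2, nat_lit 26152, nat_lit 72057594037927935⟩⟩]⟩,
  ⟨nat_lit 8, [⟨nat_lit 0, nat_lit 1, ⟨nat_lit 7, nat_lit 7, nat_lit 1, nat_lit 41, nat_lit 16777215⟩⟩,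
    ⟨nat_lit 0, nat_lit 2, ⟨nat_lit 7, nat_lit 7, nat_lit 2, nat_lit 25897, nat_lit 4294967295⟩⟩],
    [⟨nat_lit 0, nat_lit 2, ⟨nat_lit 8, nat_lit 7, nat_lit 7, nat_lit 2, nat_lit 25897, nat_lit 72057594037927935⟩⟩]⟩,
  ⟨nat_lit 8, [⟨nat_lit 0, nat_lit 1, ⟨nat_lit 7, nat_lit 7, nat_lit 1, nat_lit 42, nat_lit 16777215⟩⟩,
    ⟨nat_lit 0, nat_lit 2, ⟨nat_lit 7, nat_lit 7, nat_lit 2, nat_lit 25642, nat_lit 4294967295⟩⟩],
    [⟨nat_lit 0, nat_lit 2, ⟨nat_lit 8, nat_lit 7, nat_lit 7, nat_lit 2, nat_lit 25642, nat_lit 72057594037927935⟩⟩]⟩,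
  ⟨nat_lit 9, [⟨nat_lit 1, nat_lit 1, ⟨nat_lit 7, nat_lit 6, nat_lit 1, nat_lit 39, nat_lit 16777215⟩⟩,
    ⟨nat_lit 0, nat_lit 2, ⟨nat_lit 6, nat_lit 5, nat_lit 2, nat_lit 10152, nat_lit 4294967295⟩⟩],
    [⟨nat_lit 0, nat_lit 2, ⟨nat_lit 9, nat_lit 6, nat_lit 5, nat_lit 2, nat_lit 10152, nat_lit 72057594037927935⟩⟩]⟩,
  ⟨nat_lit 9, [⟨nat_lit 0, nat_lit 1, ⟨nat_lit 7, nat_lit 6, nat_lit 1, nat_lit 39, nat_lit 16777215⟩⟩,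
    ⟨nat_lit 0, nat_lit 2, ⟨nat_lit 7, nat_lit 6, nat_lit 2, nat_lit 26407, nat_lit 4294967295⟩⟩],
    [⟨nat_lit 0, nat_lit 2, ⟨nat_lit 9, nat_lit 7, nat_lit 6, nat_lit 2, nat_lit 26407, nat_lit 72057594037927935⟩⟩]⟩,
  ⟨nat_lit 9, [⟨nat_lit 0, nat_lit 1, ⟨nat_lit 7, nat_lit 6, nat_lit 1, nat_lit 40, nat_lit 16777215⟩⟩,
    ⟨nat_lit 0, nat_lit 2, ⟨nat_lit 7, nat_lit 6, nat_lit 2, nat_lit 26152, nat_lit 4294967295⟩⟩],
    [⟨nat_lit 0, nat_lit 2, ⟨nat_lit 9, nat_lit 7, nat_lit 6, nat_lit 2, nat_lit 26152, nat_lit 72057594037927935⟩⟩]⟩,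
  ⟨nat_lit 9, [⟨nat_lit 0, nat_lit 1, ⟨nat_lit 7, nat_lit 6, nat_lit 1, nat_lit 41, nat_lit 16777215⟩⟩,
    ⟨nat_lit 0, nat_lit 2, ⟨nat_lit 7, nat_lit 6, nat_lit 2, nat_lit 25897, nat_lit 4294967295⟩⟩],
    [⟨nat_lit 0, nat_lit 2, ⟨nat_lit 9, nat_lit 7, nat_lit 6, nat_lit 2, nat_lit 25897, nat_lit 72057594037927935⟩⟩]⟩,
  ⟨nat_lit 10, [⟨nat_lit 0, nat_lit 1, ⟨nat_lit 7, nat_lit 5, nat_lit 1, nat_lit 40, nat_lit 16777215⟩⟩,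
    ⟨nat_lit 1, nat_lit 1, ⟨nat_lit 8, nat_lit 6, nat_lit 1, nat_lit 37, nat_lit 16777215⟩⟩,
    ⟨nat_lit 0, nat_lit 2, ⟨nat_lit 7, nat_lit 5, nat_lit 2, nat_lit 9512, nat_lit 4294967295⟩⟩],
    []⟩,
  ⟨nat_lit 10, [⟨nat_lit 1, nat_lit 1, ⟨nat_lit 8, nat_lit 6, nat_lit 1, nat_lit 38, nat_lit 16777215⟩⟩,
    ⟨nat_lit 0, nat_lit 1, ⟨nat_lit 7, nat_lit 5, nat_lit 1, nat_lit 40, nat_lit 16777215⟩⟩,
    ⟨nat_lit 0, nat_lit 2, ⟨nat_lit 7, nat_lit 5, nat_lit 2, nat_lit 9768, nat_lit 4294967295⟩⟩],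
    [⟨nat_lit 0, nat_lit 2, ⟨nat_lit 10, nat_lit 7, nat_lit 5, nat_lit 2, nat_lit 9768, nat_lit 72057594037927935⟩⟩]⟩]

def kp_1_1 : List PK := [⟨nat_lit 7, [⟨nat_lit 1, nat_lit 1, ⟨nat_lit 6, nat_lit 7, nat_lit 1, nat_lit 38, nat_lit 16777215⟩⟩,
    ⟨nat_lit 0, nat_lit 2, ⟨nat_lit 5, nat_lit 6, nat_lit 2, nat_lit 9896, nat_lit 4294967295⟩⟩],
    [⟨nat_lit 0, nat_lit 2, ⟨nat_lit 7, nat_lit 5, nat_lit 6, nat_lit 2, nat_lit 9896, nat_lit 72057594037927935⟩⟩]⟩,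
  ⟨nat_lit 7, [⟨nat_lit 0, nat_lit 1, ⟨nat_lit 6, nat_lit 7, nat_lit 1, nat_lit 40, nat_lit 16777215⟩⟩,
    ⟨nat_lit 0, nat_lit 2, ⟨nat_lit 6, nat_lit 7, nat_lit 2, nat_lit 26152, nat_lit 4294967295⟩⟩],
    [⟨nat_lit 0, nat_lit 2, ⟨nat_lit 7, nat_lit 6, nat_lit 7, nat_lit 2, nat_lit 26152, nat_lit 72057594037927935⟩⟩]⟩,
  ⟨nat_lit 8, [⟨nat_lit 1, nat_lit 1, ⟨nat_lit 6, nat_lit 6, nat_lit 1, nat_lit 39, nat_lit 16777215⟩⟩,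
    ⟨nat_lit 0, nat_lit 2, ⟨nat_lit 5, nat_lit 5, nat_lit 2, nat_lit 10151, nat_lit 4294967295⟩⟩],
    [⟨nat_lit 0, nat_lit 2, ⟨nat_lit 8, nat_lit 5, nat_lit 5, nat_lit 2, nat_lit 10151, nat_lit 72057594037927935⟩⟩]⟩,
  ⟨nat_lit 8, [⟨nat_lit 1, nat_lit 1, ⟨nat_lit 6, nat_lit 6, nat_lit 1, nat_lit 38, nat_lit 16777215⟩⟩,
    ⟨nat_lit 0, nat_lit 2, ⟨nat_lit 5, nat_lit 5, nat_lit 2, nat_lit 9896, nat_lit 4294967295⟩⟩],
    [⟨nat_lit 0, nat_lit 2, ⟨nat_lit 8, nat_lit 5, nat_lit 5, nat_lit 2, nat_lit 9896, nat_lit 72057594037927935⟩⟩]⟩,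
  ⟨nat_lit 8, [⟨nat_lit 1, nat_lit 1, ⟨nat_lit 6, nat_lit 6, nat_lit 1, nat_lit 37, nat_lit 16777215⟩⟩,
    ⟨nat_lit 0, nat_lit 2, ⟨nat_lit 5, nat_lit 5, nat_lit 2, nat_lit 9641, nat_lit 4294967295⟩⟩],
    [⟨nat_lit 0, nat_lit 2, ⟨nat_lit 8, nat_lit 5, nat_lit 5, nat_lit 2, nat_lit 9641, nat_lit 72057594037927935⟩⟩]⟩,
  ⟨nat_lit 8, [⟨nat_lit 1, nat_lit 1, ⟨nat_lit 7, nat_lit 7, nat_lit 1, nat_lit 39, nat_lit 16777215⟩⟩,
    ⟨nat_lit 0, nat_lit 2, ⟨nat_lit 6, nat_lit 6, nat_lit 2, nat_lit 10152, nat_lit 4294967295⟩⟩],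
    [⟨nat_lit 0, nat_lit 2, ⟨nat_lit 8, nat_lit 6, nat_lit 6, nat_lit 2, nat_lit 10152, nat_lit 72057594037927935⟩⟩]⟩,
  ⟨nat_lit 8, [⟨nat_lit 0, nat_lit 1, ⟨nat_lit 6, nat_lit 6, nat_lit 1, nat_lit 39, nat_lit 16777215⟩⟩,
    ⟨nat_lit 0, nat_lit 2, ⟨nat_lit 6, nat_lit 6, nat_lit 2, nat_lit 26151, nat_lit 4294967295⟩⟩],
    [⟨nat_lit 0, nat_lit 2, ⟨nat_lit 8, nat_lit 6, nat_lit 6, nat_lit 2, nat_lit 26151, nat_lit 72057594037927935⟩⟩]⟩,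
  ⟨nat_lit 8, [⟨nat_lit 0, nat_lit 1, ⟨nat_lit 7, nat_lit 7, nat_lit 1, nat_lit 39, nat_lit 16777215⟩⟩,
    ⟨nat_lit 0, nat_lit 2, ⟨nat_lit 7, nat_lit 7, nat_lit 2, nat_lit 26407, nat_lit 4294967295⟩⟩],
    [⟨nat_lit 0, nat_lit 2, ⟨nat_lit 8, nat_lit 7, nat_lit 7, nat_lit 2, nat_lit 26407, nat_lit 72057594037927935⟩⟩]⟩,
  ⟨nat_lit 8, [⟨nat_lit 0, nat_lit 1, ⟨nat_lit 7, nat_lit 7, nat_lit 1, nat_lit 40, nat_lit 16777215⟩⟩,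
    ⟨nat_lit 0, nat_lit 2, ⟨nat_lit 7, nat_lit 7, nat_lit 2, nat_lit 26152, nat_lit 4294967295⟩⟩],
    [⟨nat_lit 0, nat_lit 2, ⟨nat_lit 8, nat_lit 7, nat_lit 7, nat_lit 2, nat_lit 26152, nat_lit 72057594037927935⟩⟩]⟩,
  ⟨nat_lit 8, [⟨nat_lit 0, nat_lit 1, ⟨nat_lit 7, nat_lit 7, nat_lit 1, nat_lit 41, nat_lit 16777215⟩⟩,
    ⟨nat_lit 0, nat_lit 2, ⟨nat_lit 7, nat_lit 7, nat_lit 2, nat_lit 25897, nat_lit 4294967295⟩⟩],
    [⟨nat_lit 0, nat_lit 2, ⟨nat_lit 8, nat_lit 7, nat_lit 7, nat_lit 2, nat_lit 25897, nat_lit 72057594037927935⟩⟩]⟩,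
  ⟨nat_lit 9, [⟨nat_lit 1, nat_lit 1, ⟨nat_lit 7, nat_lit 6, nat_lit 1, nat_lit 39, nat_lit 16777215⟩⟩,
    ⟨nat_lit 0, nat_lit 2, ⟨nat_lit 6, nat_lit 5, nat_lit 2, nat_lit 10151, nat_lit 4294967295⟩⟩],
    [⟨nat_lit 0, nat_lit 2, ⟨nat_lit 9, nat_lit 6, nat_lit 5, nat_lit 2, nat_lit 10151, nat_lit 72057594037927935⟩⟩]⟩,
  ⟨nat_lit 9, [⟨nat_lit 1, nat_lit 1, ⟨nat_lit 7, nat_lit 6, nat_lit 1, nat_lit 40, nat_lit 16777215⟩⟩,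
    ⟨nat_lit 0, nat_lit 2, ⟨nat_lit 6, nat_lit 5, nat_lit 2, nat_lit 10407, nat_lit 4294967295⟩⟩],
    [⟨nat_lit 0, nat_lit 2, ⟨nat_lit 9, nat_lit 6, nat_lit 5, nat_lit 2, nat_lit 10407, nat_lit 72057594037927935⟩⟩]⟩,
  ⟨nat_lit 9, [⟨nat_lit 1, nat_lit 1, ⟨nat_lit 7, nat_lit 6, nat_lit 1, nat_lit 38, nat_lit 16777215⟩⟩,
    ⟨nat_lit 0, nat_lit 2, ⟨nat_lit 6, nat_lit 5, nat_lit 2, nat_lit 9897, nat_lit 4294967295⟩⟩],
    [⟨nat_lit 0, nat_lit 2, ⟨nat_lit 9, nat_lit 6, nat_lit 5, nat_lit 2, nat_lit 9897, nat_lit 72057594037927935⟩⟩]⟩,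
  ⟨nat_lit 9, [⟨nat_lit 0, nat_lit 1, ⟨nat_lit 7, nat_lit 6, nat_lit 1, nat_lit 38, nat_lit 16777215⟩⟩,
    ⟨nat_lit 0, nat_lit 2, ⟨nat_lit 7, nat_lit 6, nat_lit 2, nat_lit 26406, nat_lit 4294967295⟩⟩],
    [⟨nat_lit 0, nat_lit 2, ⟨nat_lit 9, nat_lit 7, nat_lit 6, nat_lit 2, nat_lit 26406, nat_lit 72057594037927935⟩⟩]⟩,
  ⟨nat_lit 9, [⟨nat_lit 0, nat_lit 1, ⟨nat_lit 7, nat_lit 6, nat_lit 1, nat_lit 39, nat_lit 16777215⟩⟩,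
    ⟨nat_lit 0, nat_lit 2, ⟨nat_lit 7, nat_lit 6, nat_lit 2, nat_lit 26407, nat_lit 4294967295⟩⟩],
    [⟨nat_lit 0, nat_lit 2, ⟨nat_lit 9, nat_lit 7, nat_lit 6, nat_lit 2, nat_lit 26407, nat_lit 72057594037927935⟩⟩]⟩,
  ⟨nat_lit 9, [⟨nat_lit 0, nat_lit 1, ⟨nat_lit 7, nat_lit 6, nat_lit 1, nat_lit 40, nat_lit 16777215⟩⟩,
    ⟨nat_lit 0, nat_lit 2, ⟨nat_lit 7, nat_lit 6, nat_lit 2, nat_lit 25896, nat_lit 4294967295⟩⟩],
    [⟨nat_lit 0, nat_lit 2, ⟨nat_lit 9, nat_lit 7, nat_lit 6, nat_lit 2, nat_lit 25896, nat_lit 72057594037927935⟩⟩]⟩,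
  ⟨nat_lit 10, [⟨nat_lit 0, nat_lit 1, ⟨nat_lit 7, nat_lit 5, nat_lit 1, nat_lit 40, nat_lit 16777215⟩⟩,
    ⟨nat_lit 1, nat_lit 1, ⟨nat_lit 8, nat_lit 6, nat_lit 1, nat_lit 37, nat_lit 16777215⟩⟩,
    ⟨nat_lit 0, nat_lit 2, ⟨nat_lit 7, nat_lit 5, nat_lit 2, nat_lit 9512, nat_lit 4294967295⟩⟩],
    [⟨nat_lit 0, nat_lit 2, ⟨nat_lit 10, nat_lit 7, nat_lit 5, nat_lit 2, nat_lit 9512, nat_lit 72057594037927935⟩⟩]⟩,
  ⟨nat_lit 10, [⟨nat_lit 0, nat_lit 1, ⟨nat_lit 7, nat_lit 5, nat_lit 1, nat_lit 40, nat_lit 16777215⟩⟩,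
    ⟨nat_lit 1, nat_lit 1, ⟨nat_lit 8, nat_lit 6, nat_lit 1, nat_lit 38, nat_lit 16777215⟩⟩,
    ⟨nat_lit 0, nat_lit 2, ⟨nat_lit 7, nat_lit 5, nat_lit 2, nat_lit 9768, nat_lit 4294967295⟩⟩],
    []⟩,
  ⟨nat_lit 10, [⟨nat_lit 1, nat_lit 1, ⟨nat_lit 8, nat_lit 6, nat_lit 1, nat_lit 38, nat_lit 16777215⟩⟩,
    ⟨nat_lit 0, nat_lit 1, ⟨nat_lit 7, nat_lit 5, nat_lit 1, nat_lit 41, nat_lit 16777215⟩⟩,
    ⟨nat_lit 0, nat_lit 2, ⟨nat_lit 7, nat_lit 5, nat_lit 2, nat_lit 9769, nat_lit 4294967295⟩⟩],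
    [⟨nat_lit 0, nat_lit 2, ⟨nat_lit 10, nat_lit 7, nat_lit 5, nat_lit 2, nat_lit 9769, nat_lit 72057594037927935⟩⟩]⟩]

def kpf (f f' : ℕ) : List PK := match f, f' with
  | 0, 0 => kp_0_0
  | 0, 1 => kp_0_1
  | 1, 0 => kp_1_0
  | 1, 1 => kp_1_1
  | _, _ => []

def kx : List PK := [⟨nat_lit 1, [⟨nat_lit 0, nat_lit 1, ⟨nat_lit 0, nat_lit 7, nat_lit 1, nat_lit 38, nat_lit 16777215⟩⟩,
    ⟨nat_lit 6, nat_lit 1, ⟨nat_lit 6, nat_lit 13, nat_lit 1, nat_lit 40, nat_lit 16777215⟩⟩],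
    [⟨nat_lit 2, nat_lit 2, ⟨nat_lit 1, nat_lit 2, nat_lit 9, nat_lit 2, nat_lit 10023, nat_lit 72057594037927935⟩⟩]⟩,
  ⟨nat_lit 2, [⟨nat_lit 0, nat_lit 1, ⟨nat_lit 1, nat_lit 7, nat_lit 1, nat_lit 38, nat_lit 16777215⟩⟩,
    ⟨nat_lit 5, nat_lit 1, ⟨nat_lit 6, nat_lit 12, nat_lit 1, nat_lit 40, nat_lit 16777215⟩⟩,
    ⟨nat_lit 1, nat_lit 1, ⟨nat_lit 2, nat_lit 8, nat_lit 1, nat_lit 39, nat_lit 16777215⟩⟩,
    ⟨nat_lit 4, nat_lit 1, ⟨nat_lit 5, nat_lit 11, nat_lit 1, nat_lit 39, nat_lit 16777215⟩⟩,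
    ⟨nat_lit 0, nat_lit 2, ⟨nat_lit 1, nat_lit 7, nat_lit 2, nat_lit 10022, nat_lit 4294967295⟩⟩,
    ⟨nat_lit 4, nat_lit 2, ⟨nat_lit 5, nat_lit 11, nat_lit 2, nat_lit 10279, nat_lit 4294967295⟩⟩],
    [⟨nat_lit 2, nat_lit 2, ⟨nat_lit 2, nat_lit 3, nat_lit 9, nat_lit 2, nat_lit 10023, nat_lit 72057594037927935⟩⟩]⟩,
  ⟨nat_lit 3, [⟨nat_lit 0, nat_lit 1, ⟨nat_lit 2, nat_lit 7, nat_lit 1, nat_lit 38, nat_lit 16777215⟩⟩,
    ⟨nat_lit 1, nat_lit 1, ⟨nat_lit 3, nat_lit 8, nat_lit 1, nat_lit 39, nat_lit 16777215⟩⟩,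
    ⟨nat_lit 3, nat_lit 1, ⟨nat_lit 5, nat_lit 10, nat_lit 1, nat_lit 39, nat_lit 16777215⟩⟩,
    ⟨nat_lit 4, nat_lit 1, ⟨nat_lit 6, nat_lit 11, nat_lit 1, nat_lit 40, nat_lit 16777215⟩⟩,
    ⟨nat_lit 0, nat_lit 2, ⟨nat_lit 2, nat_lit 7, nat_lit 2, nat_lit 10022, nat_lit 4294967295⟩⟩,
    ⟨nat_lit 3, nat_lit 2, ⟨nat_lit 5, nat_lit 10, nat_lit 2, nat_lit 10279, nat_lit 4294967295⟩⟩,
    ⟨nat_lit 0, nat_lit 3, ⟨nat_lit 2, nat_lit 7, nat_lit 3, nat_lit 2565926, nat_lit 1099511627775⟩⟩,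
    ⟨nat_lit 2, nat_lit 3, ⟨nat_lit 4, nat_lit 9, nat_lit 3, nat_lit 2631463, nat_lit 1099511627775⟩⟩],
    [⟨nat_lit 1, nat_lit 2, ⟨nat_lit 3, nat_lit 3, nat_lit 8, nat_lit 2, nat_lit 10023, nat_lit 72057594037927935⟩⟩,
    ⟨nat_lit 2, nat_lit 2, ⟨nat_lit 3, nat_lit 4, nat_lit 9, nat_lit 2, nat_lit 10023, nat_lit 72057594037927935⟩⟩]⟩,
  ⟨nat_lit 4, [⟨nat_lit 0, nat_lit 1, ⟨nat_lit 3, nat_lit 7, nat_lit 1, nat_lit 38, nat_lit 16777215⟩⟩,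
    ⟨nat_lit 3, nat_lit 1, ⟨nat_lit 6, nat_lit 10, nat_lit 1, nat_lit 40, nat_lit 16777215⟩⟩,
    ⟨nat_lit 1, nat_lit 1, ⟨nat_lit 4, nat_lit 8, nat_lit 1, nat_lit 39, nat_lit 16777215⟩⟩,
    ⟨nat_lit 2, nat_lit 1, ⟨nat_lit 5, nat_lit 9, nat_lit 1, nat_lit 39, nat_lit 16777215⟩⟩,
    ⟨nat_lit 0, nat_lit 2, ⟨nat_lit 3, nat_lit 7, nat_lit 2, nat_lit 10022, nat_lit 4294967295⟩⟩,
    ⟨nat_lit 2, nat_lit 2, ⟨nat_lit 5, nat_lit 9, nat_lit 2, nat_lit 10279, nat_lit 4294967295⟩⟩,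
    ⟨nat_lit 0, nat_lit 3, ⟨nat_lit 3, nat_lit 7, nat_lit 3, nat_lit 2565926, nat_lit 1099511627775⟩⟩,
    ⟨nat_lit 1, nat_lit 3, ⟨nat_lit 4, nat_lit 8, nat_lit 3, nat_lit 2631463, nat_lit 1099511627775⟩⟩],
    [⟨nat_lit 0, nat_lit 2, ⟨nat_lit 4, nat_lit 3, nat_lit 7, nat_lit 2, nat_lit 10022, nat_lit 72057594037927935⟩⟩,
    ⟨nat_lit 2, nat_lit 2, ⟨nat_lit 4, nat_lit 5, nat_lit 9, nat_lit 2, nat_lit 10279, nat_lit 72057594037927935⟩⟩]⟩,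
  ⟨nat_lit 5, [⟨nat_lit 0, nat_lit 1, ⟨nat_lit 4, nat_lit 7, nat_lit 1, nat_lit 38, nat_lit 16777215⟩⟩,
    ⟨nat_lit 1, nat_lit 1, ⟨nat_lit 5, nat_lit 8, nat_lit 1, nat_lit 39, nat_lit 16777215⟩⟩,
    ⟨nat_lit 2, nat_lit 1, ⟨nat_lit 6, nat_lit 9, nat_lit 1, nat_lit 40, nat_lit 16777215⟩⟩,
    ⟨nat_lit 0, nat_lit 2, ⟨nat_lit 4, nat_lit 7, nat_lit 2, nat_lit 10022, nat_lit 4294967295⟩⟩,
    ⟨nat_lit 1, nat_lit 2, ⟨nat_lit 5, nat_lit 8, nat_lit 2, nat_lit 10279, nat_lit 4294967295⟩⟩,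
    ⟨nat_lit 0, nat_lit 3, ⟨nat_lit 4, nat_lit 7, nat_lit 3, nat_lit 2631462, nat_lit 1099511627775⟩⟩],
    [⟨nat_lit 0, nat_lit 2, ⟨nat_lit 5, nat_lit 4, nat_lit 7, nat_lit 2, nat_lit 10022, nat_lit 72057594037927935⟩⟩,
    ⟨nat_lit 1, nat_lit 2, ⟨nat_lit 5, nat_lit 5, nat_lit 8, nat_lit 2, nat_lit 10279, nat_lit 72057594037927935⟩⟩]⟩,
  ⟨nat_lit 6, [⟨nat_lit 0, nat_lit 1, ⟨nat_lit 5, nat_lit 7, nat_lit 1, nat_lit 38, nat_lit 16777215⟩⟩,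
    ⟨nat_lit 1, nat_lit 1, ⟨nat_lit 6, nat_lit 8, nat_lit 1, nat_lit 40, nat_lit 16777215⟩⟩,
    ⟨nat_lit 0, nat_lit 2, ⟨nat_lit 5, nat_lit 7, nat_lit 2, nat_lit 10278, nat_lit 4294967295⟩⟩],
    [⟨nat_lit 0, nat_lit 2, ⟨nat_lit 6, nat_lit 5, nat_lit 7, nat_lit 2, nat_lit 10278, nat_lit 72057594037927935⟩⟩]⟩,
  ⟨nat_lit 10, [⟨nat_lit 0, nat_lit 1, ⟨nat_lit 7, nat_lit 5, nat_lit 1, nat_lit 38, nat_lit 16777215⟩⟩,
    ⟨nat_lit 1, nat_lit 1, ⟨nat_lit 8, nat_lit 6, nat_lit 1, nat_lit 40, nat_lit 16777215⟩⟩,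
    ⟨nat_lit 0, nat_lit 2, ⟨nat_lit 7, nat_lit 5, nat_lit 2, nat_lit 10278, nat_lit 4294967295⟩⟩],
    [⟨nat_lit 0, nat_lit 2, ⟨nat_lit 10, nat_lit 7, nat_lit 5, nat_lit 2, nat_lit 10278, nat_lit 72057594037927935⟩⟩]⟩,
  ⟨nat_lit 11, [⟨nat_lit 0, nat_lit 1, ⟨nat_lit 7, nat_lit 4, nat_lit 1, nat_lit 38, nat_lit 16777215⟩⟩,
    ⟨nat_lit 1, nat_lit 1, ⟨nat_lit 8, nat_lit 5, nat_lit 1, nat_lit 39, nat_lit 16777215⟩⟩,
    ⟨nat_lit 2, nat_lit 1, ⟨nat_lit 9, nat_lit 6, nat_lit 1, nat_lit 40, nat_lit 16777215⟩⟩,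
    ⟨nat_lit 0, nat_lit 2, ⟨nat_lit 7, nat_lit 4, nat_lit 2, nat_lit 10022, nat_lit 4294967295⟩⟩,
    ⟨nat_lit 1, nat_lit 2, ⟨nat_lit 8, nat_lit 5, nat_lit 2, nat_lit 10279, nat_lit 4294967295⟩⟩,
    ⟨nat_lit 0, nat_lit 3, ⟨nat_lit 7, nat_lit 4, nat_lit 3, nat_lit 2631462, nat_lit 1099511627775⟩⟩],
    [⟨nat_lit 0, nat_lit 2, ⟨nat_lit 11, nat_lit 7, nat_lit 4, nat_lit 2, nat_lit 10022, nat_lit 72057594037927935⟩⟩,
    ⟨nat_lit 1, nat_lit 2, ⟨nat_lit 11, nat_lit 8, nat_lit 5, nat_lit 2, nat_lit 10279, nat_lit 72057594037927935⟩⟩]⟩,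
  ⟨nat_lit 12, [⟨nat_lit 0, nat_lit 1, ⟨nat_lit 7, nat_lit 3, nat_lit 1, nat_lit 38, nat_lit 16777215⟩⟩,
    ⟨nat_lit 3, nat_lit 1, ⟨nat_lit 10, nat_lit 6, nat_lit 1, nat_lit 40, nat_lit 16777215⟩⟩,
    ⟨nat_lit 1, nat_lit 1, ⟨nat_lit 8, nat_lit 4, nat_lit 1, nat_lit 39, nat_lit 16777215⟩⟩,
    ⟨nat_lit 2, nat_lit 1, ⟨nat_lit 9, nat_lit 5, nat_lit 1, nat_lit 39, nat_lit 16777215⟩⟩,
    ⟨nat_lit 0, nat_lit 2, ⟨nat_lit 7, nat_lit 3, nat_lit 2, nat_lit 10022, nat_lit 4294967295⟩⟩,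
    ⟨nat_lit 2, nat_lit 2, ⟨nat_lit 9, nat_lit 5, nat_lit 2, nat_lit 10279, nat_lit 4294967295⟩⟩,
    ⟨nat_lit 0, nat_lit 3, ⟨nat_lit 7, nat_lit 3, nat_lit 3, nat_lit 2565926, nat_lit 1099511627775⟩⟩,
    ⟨nat_lit 1, nat_lit 3, ⟨nat_lit 8, nat_lit 4, nat_lit 3, nat_lit 2631463, nat_lit 1099511627775⟩⟩],
    [⟨nat_lit 0, nat_lit 2, ⟨nat_lit 12, nat_lit 7, nat_lit 3, nat_lit 2, nat_lit 10022, nat_lit 72057594037927935⟩⟩,
    ⟨nat_lit 2, nat_lit 2, ⟨nat_lit 12, nat_lit 9, nat_lit 5, nat_lit 2, nat_lit 10279, nat_lit 72057594037927935⟩⟩]⟩,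
  ⟨nat_lit 13, [⟨nat_lit 0, nat_lit 1, ⟨nat_lit 7, nat_lit 2, nat_lit 1, nat_lit 38, nat_lit 16777215⟩⟩,
    ⟨nat_lit 1, nat_lit 1, ⟨nat_lit 8, nat_lit 3, nat_lit 1, nat_lit 39, nat_lit 16777215⟩⟩,
    ⟨nat_lit 3, nat_lit 1, ⟨nat_lit 10, nat_lit 5, nat_lit 1, nat_lit 39, nat_lit 16777215⟩⟩,
    ⟨nat_lit 4, nat_lit 1, ⟨nat_lit 11, nat_lit 6, nat_lit 1, nat_lit 40, nat_lit 16777215⟩⟩,
    ⟨nat_lit 0, nat_lit 2, ⟨nat_lit 7, nat_lit 2, nat_lit 2, nat_lit 10022, nat_lit 4294967295⟩⟩,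
    ⟨nat_lit 3, nat_lit 2, ⟨nat_lit 10, nat_lit 5, nat_lit 2, nat_lit 10279, nat_lit 4294967295⟩⟩,
    ⟨nat_lit 0, nat_lit 3, ⟨nat_lit 7, nat_lit 2, nat_lit 3, nat_lit 2565926, nat_lit 1099511627775⟩⟩,
    ⟨nat_lit 2, nat_lit 3, ⟨nat_lit 9, nat_lit 4, nat_lit 3, nat_lit 2631463, nat_lit 1099511627775⟩⟩],
    [⟨nat_lit 1, nat_lit 2, ⟨nat_lit 13, nat_lit 8, nat_lit 3, nat_lit 2, nat_lit 10023, nat_lit 72057594037927935⟩⟩,
    ⟨nat_lit 2, nat_lit 2, ⟨nat_lit 13, nat_lit 9, nat_lit 4, nat_lit 2, nat_lit 10023, nat_lit 72057594037927935⟩⟩]⟩,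
  ⟨nat_lit 14, [⟨nat_lit 0, nat_lit 1, ⟨nat_lit 7, nat_lit 1, nat_lit 1, nat_lit 38, nat_lit 16777215⟩⟩,
    ⟨nat_lit 5, nat_lit 1, ⟨nat_lit 12, nat_lit 6, nat_lit 1, nat_lit 40, nat_lit 16777215⟩⟩,
    ⟨nat_lit 1, nat_lit 1, ⟨nat_lit 8, nat_lit 2, nat_lit 1, nat_lit 39, nat_lit 16777215⟩⟩,
    ⟨nat_lit 4, nat_lit 1, ⟨nat_lit 11, nat_lit 5, nat_lit 1, nat_lit 39, nat_lit 16777215⟩⟩,
    ⟨nat_lit 0, nat_lit 2, ⟨nat_lit 7, nat_lit 1, nat_lit 2, nat_lit 10022, nat_lit 4294967295⟩⟩,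
    ⟨nat_lit 4, nat_lit 2, ⟨nat_lit 11, nat_lit 5, nat_lit 2, nat_lit 10279, nat_lit 4294967295⟩⟩],
    [⟨nat_lit 2, nat_lit 2, ⟨nat_lit 14, nat_lit 9, nat_lit 3, nat_lit 2, nat_lit 10023, nat_lit 72057594037927935⟩⟩]⟩,
  ⟨nat_lit 15, [⟨nat_lit 0, nat_lit 1, ⟨nat_lit 7, nat_lit 0, nat_lit 1, nat_lit 38, nat_lit 16777215⟩⟩,
    ⟨nat_lit 6, nat_lit 1, ⟨nat_lit 13, nat_lit 6, nat_lit 1, nat_lit 40, nat_lit 16777215⟩⟩],
    [⟨nat_lit 2, nat_lit 2, ⟨nat_lit 15, nat_lit 9, nat_lit 2, nat_lit 2, nat_lit 10023, nat_lit 72057594037927935⟩⟩]⟩]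

end Walk26.P0
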