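import Pool.Agent.Walk26.Q0

/-!
# Keyed cells of table 0: refuted boxes, part 0 (generated)
-/

set_option autoImplicit false
set_option maxRecDepth 100000

open LWG Walk26.P0

namespace Walk26.P0

def t0 : KT := .node (nat_lit 4802675514474753) (.node (nat_lit 4660838531334145) (.node (nat_lit 3261160229110016) (.node (nat_lit 3256762182598912) (.node (nat_lit 3119323229126912) (.node (nat_lit 1852685833994496) (.node (nat_lit 1850486810738944) (.node (nat_lit 1849387299111168) (.leaf (nat_lit 1849387299111168)) (.leaf (nat_lit 1850486810738944))) (.node (nat_lit 1851586322366720) (.leaf (nat_lit 1851586322366720)) (.leaf (nat_lit 1852685833994496)))) (.node (nat_lit 1854884857250048) (.node (nat_lit 1853785345622272) (.leaf (nat_lit 1853785345622272)) (.leaf (nat_lit 1854884857250048))) (.node (nat_lit 1855984368877824) (.leaf (nat_lit 1855984368877824)) (.leaf (nat_lit 3119323229126912))))) (.node (nat_lit 3254563159408640) (.node (nat_lit 3253463647780864) (.node (nat_lit 3119323262812416) (.leaf (nat_lit 3119323262812416)) (.leaf (nat_lit 3253463647780864))) (.node (nat_lit 3253463647781121)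 (.leaf (nat_lit 3253463647781121)) (.leaf (nat_lit 3254563159408640)))) (.node (nat_lit 3255662671036416) (.node (nat_lit 3254563159408897) (.leaf (nat_lit 3254563159408897)) (.leaf (nat_lit 3255662671036416))) (.node (nat_lit 3255662671036673) (.leaf (nat_lit 3255662671036673)) (.leaf (nat_lit 3256762182598912)))))) (.node (nat_lit 3257861727912192) (.node (nat_lit 3256762216284416) (.node (nat_lit 3256762182664448) (.node (nat_lit 3256762182664192) (.leaf (nat_lit 3256762182664192)) (.leaf (nat_lit 3256762182664448))) (.node (nat_lit 3256762182664449) (.leaf (nat_lit 3256762182664449)) (.leaf (nat_lit 3256762216284416)))) (.node (nat_lit 3257861694291968) (.node (nat_lit 3257861694226688) (.leaf (nat_lit 3257861694226688)) (.leaf (nat_lit 3257861694291968))) (.node (nat_lit 3257861694292225) (.leaf (nat_lit 3257861694292225)) (.leaf (nat_lit 3257861727912192))))) (.node (nat_lit 3258961205920001) (.node (nat_lit 3258961205919744) (.node (nat_lit 3258961205854464) (.leaf (nat_lit 3258961205854464)) (.leaf (nat_lit 3258961205919744))) (.node (nat_lit 3258961205920000) (.leaf (nat_lit 3258961205920000))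 (.leaf (nat_lit 3258961205920001)))) (.node (nat_lit 3260060717482240) (.node (nat_lit 3258961239539968) (.leaf (nat_lit 3258961239539968)) (.leaf (nat_lit 3260060717482240))) (.node (nat_lit 3260060751167744) (.leaf (nat_lit 3260060751167744)) (.leaf (nat_lit 3261160229110016))))))) (.node (nat_lit 4526698112679936) (.node (nat_lit 3262259740803329) (.node (nat_lit 3261160262795520) (.node (nat_lit 3261160229175552) (.node (nat_lit 3261160229175296) (.leaf (nat_lit 3261160229175296)) (.leaf (nat_lit 3261160229175552))) (.node (nat_lit 3261160229175553) (.leaf (nat_lit 3261160229175553)) (.leaf (nat_lit 3261160262795520)))) (.node (nat_lit 3262259740803072) (.node (nat_lit 3262259740737792) (.leaf (nat_lit 3262259740737792)) (.leaf (nat_lit 3262259740803072))) (.node (nat_lit 3262259740803328) (.leaf (nat_lit 3262259740803328)) (.leaf (nat_lit 3262259740803329))))) (.node (nat_lit 4522300066169089) (.node (nat_lit 3263359252365568) (.node (nat_lit 3262259774423296) (.leaf (nat_lit 3262259774423296)) (.leaf (nat_lit 3263359252365568))) (.node (nat_lit 3263359286051072) (.leaf (nat_lit 3263359286051072))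 (.leaf (nat_lit 4522300066169089)))) (.node (nat_lit 4526698112614400) (.node (nat_lit 4522300099854336) (.leaf (nat_lit 4522300099854336)) (.leaf (nat_lit 4526698112614400))) (.node (nat_lit 4526698112614656) (.leaf (nat_lit 4526698112614656)) (.leaf (nat_lit 4526698112679936)))))) (.node (nat_lit 4531096192876801) (.node (nat_lit 4526698179985665) (.node (nat_lit 4526698146365697) (.node (nat_lit 4526698146300160) (.leaf (nat_lit 4526698146300160)) (.leaf (nat_lit 4526698146365697))) (.node (nat_lit 4526698179985664) (.leaf (nat_lit 4526698179985664)) (.leaf (nat_lit 4526698179985665)))) (.node (nat_lit 4531096159125760) (.node (nat_lit 4531096159125504) (.leaf (nat_lit 4531096159125504)) (.leaf (nat_lit 4531096159125760))) (.node (nat_lit 4531096159191040) (.leaf (nat_lit 4531096159191040)) (.leaf (nat_lit 4531096192876801))))) (.node (nat_lit 4659739019706368) (.node (nat_lit 4531096226496769) (.node (nat_lit 4531096226496768) (.leaf (nat_lit 4531096226496768)) (.leaf (nat_lit 4531096226496769))) (.node (nat_lit 4658639508078593) (.leaf (nat_lit 4658639508078593)) (.leaf (nat_lit 4659739019706368))))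 (.node (nat_lit 4659739019706625) (.node (nat_lit 4659739019706369) (.leaf (nat_lit 4659739019706369)) (.leaf (nat_lit 4659739019706625))) (.node (nat_lit 4660838531268865) (.leaf (nat_lit 4660838531268865)) (.leaf (nat_lit 4660838531334145)))))))) (.node (nat_lit 4666336123093248) (.node (nat_lit 4664137066217729) (.node (nat_lit 4661938076582144) (.node (nat_lit 4661938042961920) (.node (nat_lit 4661938042896640) (.node (nat_lit 4660838564954112) (.leaf (nat_lit 4660838564954112)) (.leaf (nat_lit 4661938042896640))) (.node (nat_lit 4661938042896641) (.leaf (nat_lit 4661938042896641)) (.leaf (nat_lit 4661938042961920)))) (.node (nat_lit 4661938042962177) (.node (nat_lit 4661938042961921) (.leaf (nat_lit 4661938042961921)) (.leaf (nat_lit 4661938042962177))) (.node (nat_lit 4661938076581888) (.leaf (nat_lit 4661938076581888)) (.leaf (nat_lit 4661938076582144))))) (.node (nat_lit 4664137066152193) (.node (nat_lit 4663037588209664) (.node (nat_lit 4663037554524417) (.leaf (nat_lit 4663037554524417)) (.leaf (nat_lit 4663037588209664))) (.node (nat_lit 4664137066152192) (.leaf (nat_lit 4664137066152192))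 (.leaf (nat_lit 4664137066152193)))) (.node (nat_lit 4664137066217473) (.node (nat_lit 4664137066217472) (.leaf (nat_lit 4664137066217472)) (.leaf (nat_lit 4664137066217473))) (.node (nat_lit 4664137066217728) (.leaf (nat_lit 4664137066217728)) (.leaf (nat_lit 4664137066217729)))))) (.node (nat_lit 4665236611399936) (.node (nat_lit 4665236577779969) (.node (nat_lit 4664137099837440) (.node (nat_lit 4664137099772160) (.leaf (nat_lit 4664137099772160)) (.leaf (nat_lit 4664137099837440))) (.node (nat_lit 4664137099837696) (.leaf (nat_lit 4664137099837696)) (.leaf (nat_lit 4665236577779969)))) (.node (nat_lit 4665236577845249) (.node (nat_lit 4665236577845248) (.leaf (nat_lit 4665236577845248)) (.leaf (nat_lit 4665236577845249))) (.node (nat_lit 4665236577845505) (.leaf (nat_lit 4665236577845505)) (.leaf (nat_lit 4665236611399936))))) (.node (nat_lit 4666336089473024) (.node (nat_lit 4666336089407744) (.node (nat_lit 4665236611465216) (.leaf (nat_lit 4665236611465216)) (.leaf (nat_lit 4666336089407744))) (.node (nat_lit 4666336089407745) (.leaf (nat_lit 4666336089407745)) (.leaf (nat_lit 4666336089473024))))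 (.node (nat_lit 4666336123027712) (.node (nat_lit 4666336089473281) (.leaf (nat_lit 4666336089473281)) (.leaf (nat_lit 4666336123027712))) (.node (nat_lit 4666336123092992) (.leaf (nat_lit 4666336123092992)) (.leaf (nat_lit 4666336123093248))))))) (.node (nat_lit 4669634624291072) (.node (nat_lit 4668535112728576) (.node (nat_lit 4667435634721025) (.node (nat_lit 4667435601101056) (.node (nat_lit 4667435601035264) (.leaf (nat_lit 4667435601035264)) (.leaf (nat_lit 4667435601101056))) (.node (nat_lit 4667435634655488) (.leaf (nat_lit 4667435634655488)) (.leaf (nat_lit 4667435634721025)))) (.node (nat_lit 4668535112663296) (.node (nat_lit 4668535112663040) (.leaf (nat_lit 4668535112663040)) (.leaf (nat_lit 4668535112663296))) (.node (nat_lit 4668535112663297) (.leaf (nat_lit 4668535112663297)) (.leaf (nat_lit 4668535112728576))))) (.node (nat_lit 4668535146348544) (.node (nat_lit 4668535112728833) (.node (nat_lit 4668535112728832) (.leaf (nat_lit 4668535112728832)) (.leaf (nat_lit 4668535112728833))) (.node (nat_lit 4668535146283264) (.leaf (nat_lit 4668535146283264)) (.leaf (nat_lit 4668535146348544))))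 (.node (nat_lit 4668535146348801) (.node (nat_lit 4668535146348800) (.leaf (nat_lit 4668535146348800)) (.leaf (nat_lit 4668535146348801))) (.node (nat_lit 4669634624290816) (.leaf (nat_lit 4669634624290816)) (.leaf (nat_lit 4669634624291072)))))) (.node (nat_lit 4670734135984384) (.node (nat_lit 4669634657976320) (.node (nat_lit 4669634624356608) (.node (nat_lit 4669634624291073) (.leaf (nat_lit 4669634624291073)) (.leaf (nat_lit 4669634624356608))) (.node (nat_lit 4669634657911040) (.leaf (nat_lit 4669634657911040)) (.leaf (nat_lit 4669634657976320)))) (.node (nat_lit 4669634657976577) (.node (nat_lit 4669634657976576) (.leaf (nat_lit 4669634657976576)) (.leaf (nat_lit 4669634657976577))) (.node (nat_lit 4670734135918592) (.leaf (nat_lit 4670734135918592)) (.leaf (nat_lit 4670734135984384))))) (.node (nat_lit 4671833681232129) (.node (nat_lit 4670734169604353) (.node (nat_lit 4670734169538816) (.leaf (nat_lit 4670734169538816)) (.leaf (nat_lit 4670734169604353))) (.node (nat_lit 4671833647546368) (.leaf (nat_lit 4671833647546368)) (.leaf (nat_lit 4671833681232129)))) (.node (nat_lit 4672933192859905)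 (.node (nat_lit 4672933159174144) (.leaf (nat_lit 4672933159174144)) (.leaf (nat_lit 4672933192859905))) (.node (nat_lit 4802675514474752) (.leaf (nat_lit 4802675514474752)) (.leaf (nat_lit 4802675514474753))))))))) (.node (nat_lit 5929674949722113) (.node (nat_lit 4946711571398656) (.node (nat_lit 4943413036450048) (.node (nat_lit 4813670630686720) (.node (nat_lit 4802675548160256) (.node (nat_lit 4802675548094720) (.node (nat_lit 4802675548028928) (.leaf (nat_lit 4802675548028928)) (.leaf (nat_lit 4802675548094720))) (.node (nat_lit 4802675548160000) (.leaf (nat_lit 4802675548160000)) (.leaf (nat_lit 4802675548160256)))) (.node (nat_lit 4808173106233344) (.node (nat_lit 4802675581714689) (.leaf (nat_lit 4802675581714689)) (.leaf (nat_lit 4808173106233344))) (.node (nat_lit 4808173106233601) (.leaf (nat_lit 4808173106233601)) (.leaf (nat_lit 4813670630686720))))) (.node (nat_lit 4813670698057729) (.node (nat_lit 4813670664306688) (.node (nat_lit 4813670630686721) (.leaf (nat_lit 4813670630686721)) (.leaf (nat_lit 4813670664306688))) (.node (nat_lit 4813670697992449) (.leaf (nat_lit 4813670697992449))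 (.leaf (nat_lit 4813670698057729)))) (.node (nat_lit 4943413002830080) (.node (nat_lit 4813670698057985) (.leaf (nat_lit 4813670698057985)) (.leaf (nat_lit 4943413002830080))) (.node (nat_lit 4943413002830081) (.leaf (nat_lit 4943413002830081)) (.leaf (nat_lit 4943413036450048)))))) (.node (nat_lit 4945612026085632) (.node (nat_lit 4944512514457857) (.node (nat_lit 4943413036515584) (.node (nat_lit 4943413036515328) (.leaf (nat_lit 4943413036515328)) (.leaf (nat_lit 4943413036515584))) (.node (nat_lit 4944512514457856) (.leaf (nat_lit 4944512514457856)) (.leaf (nat_lit 4944512514457857)))) (.node (nat_lit 4944512548143104) (.node (nat_lit 4944512548077824) (.leaf (nat_lit 4944512548077824)) (.leaf (nat_lit 4944512548143104))) (.node (nat_lit 4944512548143360) (.leaf (nat_lit 4944512548143360)) (.leaf (nat_lit 4945612026085632))))) (.node (nat_lit 4945612059771136) (.node (nat_lit 4945612059705600) (.node (nat_lit 4945612026085633) (.leaf (nat_lit 4945612026085633)) (.leaf (nat_lit 4945612059705600))) (.node (nat_lit 4945612059770880) (.leaf (nat_lit 4945612059770880)) (.leaf (nat_lit 4945612059771136))))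 (.node (nat_lit 4946711537713409) (.node (nat_lit 4946711537713408) (.leaf (nat_lit 4946711537713408)) (.leaf (nat_lit 4946711537713409))) (.node (nat_lit 4946711571333376) (.leaf (nat_lit 4946711571333376)) (.leaf (nat_lit 4946711571398656))))))) (.node (nat_lit 4950010072662272) (.node (nat_lit 4948910560968961) (.node (nat_lit 4947811082961152) (.node (nat_lit 4947811049341184) (.node (nat_lit 4946711571398912) (.leaf (nat_lit 4946711571398912)) (.leaf (nat_lit 4947811049341184))) (.node (nat_lit 4947811049341185) (.leaf (nat_lit 4947811049341185)) (.leaf (nat_lit 4947811082961152)))) (.node (nat_lit 4947811083026688) (.node (nat_lit 4947811083026432) (.leaf (nat_lit 4947811083026432)) (.leaf (nat_lit 4947811083026688))) (.node (nat_lit 4948910560968960) (.leaf (nat_lit 4948910560968960)) (.leaf (nat_lit 4948910560968961))))) (.node (nat_lit 4950010072596736) (.node (nat_lit 4948910594654208) (.node (nat_lit 4948910594588928) (.leaf (nat_lit 4948910594588928)) (.leaf (nat_lit 4948910594654208))) (.node (nat_lit 4948910594654464) (.leaf (nat_lit 4948910594654464)) (.leaf (nat_lit 4950010072596736))))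 (.node (nat_lit 4950010072662016) (.node (nat_lit 4950010072596737) (.leaf (nat_lit 4950010072596737)) (.leaf (nat_lit 4950010072662016))) (.node (nat_lit 4950010072662017) (.leaf (nat_lit 4950010072662017)) (.leaf (nat_lit 4950010072662272)))))) (.node (nat_lit 4951109584289793) (.node (nat_lit 4950010106282240) (.node (nat_lit 4950010106216704) (.node (nat_lit 4950010072662273) (.leaf (nat_lit 4950010072662273)) (.leaf (nat_lit 4950010106216704))) (.node (nat_lit 4950010106281984) (.leaf (nat_lit 4950010106281984)) (.leaf (nat_lit 4950010106282240)))) (.node (nat_lit 4951109584224513) (.node (nat_lit 4951109584224512) (.leaf (nat_lit 4951109584224512)) (.leaf (nat_lit 4951109584224513))) (.node (nat_lit 4951109584289792) (.leaf (nat_lit 4951109584289792)) (.leaf (nat_lit 4951109584289793))))) (.node (nat_lit 4951109617909760) (.node (nat_lit 4951109584290049) (.node (nat_lit 4951109584290048) (.leaf (nat_lit 4951109584290048)) (.leaf (nat_lit 4951109584290049))) (.node (nat_lit 4951109617844480) (.leaf (nat_lit 4951109617844480)) (.leaf (nat_lit 4951109617909760)))) (.node (nat_lit 5929674949656577)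 (.node (nat_lit 4951109617910016) (.leaf (nat_lit 4951109617910016)) (.leaf (nat_lit 5929674949656577))) (.node (nat_lit 5929674949656833) (.leaf (nat_lit 5929674949656833)) (.leaf (nat_lit 5929674949722113)))))))) (.node (nat_lit 5934073046696192) (.node (nat_lit 5934072996233472) (.node (nat_lit 5934072979456000) (.node (nat_lit 5934072979390464) (.node (nat_lit 5929675017027584) (.node (nat_lit 5929674983407617) (.leaf (nat_lit 5929674983407617)) (.leaf (nat_lit 5929675017027584))) (.node (nat_lit 5929675017027585) (.leaf (nat_lit 5929675017027585)) (.leaf (nat_lit 5934072979390464)))) (.node (nat_lit 5934072979390720) (.node (nat_lit 5934072979390465) (.leaf (nat_lit 5934072979390465)) (.leaf (nat_lit 5934072979390720))) (.node (nat_lit 5934072979390721) (.leaf (nat_lit 5934072979390721)) (.leaf (nat_lit 5934072979456000))))) (.node (nat_lit 5934072996167936) (.node (nat_lit 5934072996167680) (.node (nat_lit 5934072979456001) (.leaf (nat_lit 5934072979456001)) (.leaf (nat_lit 5934072996167680))) (.node (nat_lit 5934072996167681) (.leaf (nat_lit 5934072996167681)) (.leaf (nat_lit 5934072996167936))))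 (.node (nat_lit 5934072996233216) (.node (nat_lit 5934072996167937) (.leaf (nat_lit 5934072996167937)) (.leaf (nat_lit 5934072996233216))) (.node (nat_lit 5934072996233217) (.leaf (nat_lit 5934072996233217)) (.leaf (nat_lit 5934072996233472)))))) (.node (nat_lit 5934073029787648) (.node (nat_lit 5934073013075968) (.node (nat_lit 5934073013010433) (.node (nat_lit 5934073013010432) (.leaf (nat_lit 5934073013010432)) (.leaf (nat_lit 5934073013010433))) (.node (nat_lit 5934073013010688) (.leaf (nat_lit 5934073013010688)) (.leaf (nat_lit 5934073013075968)))) (.node (nat_lit 5934073013141505) (.node (nat_lit 5934073013076225) (.leaf (nat_lit 5934073013076225)) (.leaf (nat_lit 5934073013141505))) (.node (nat_lit 5934073013141761) (.leaf (nat_lit 5934073013141761)) (.leaf (nat_lit 5934073029787648))))) (.node (nat_lit 5934073029918721) (.node (nat_lit 5934073029853184) (.node (nat_lit 5934073029787904) (.leaf (nat_lit 5934073029787904)) (.leaf (nat_lit 5934073029853184))) (.node (nat_lit 5934073029853441) (.leaf (nat_lit 5934073029853441)) (.leaf (nat_lit 5934073029918721)))) (.node (nat_lit 5934073029918977)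 (.node (nat_lit 5934073029918976) (.leaf (nat_lit 5934073029918976)) (.leaf (nat_lit 5934073029918977))) (.node (nat_lit 5934073046695937) (.leaf (nat_lit 5934073046695937)) (.leaf (nat_lit 5934073046696192))))))) (.node (nat_lit 5939570571149312) (.node (nat_lit 5934073063538688) (.node (nat_lit 5934073046761728) (.node (nat_lit 5934073046761472) (.node (nat_lit 5934073046696193) (.leaf (nat_lit 5934073046696193)) (.leaf (nat_lit 5934073046761472))) (.node (nat_lit 5934073046761473) (.leaf (nat_lit 5934073046761473)) (.leaf (nat_lit 5934073046761728)))) (.node (nat_lit 5934073063473408) (.node (nat_lit 5934073046761729) (.leaf (nat_lit 5934073046761729)) (.leaf (nat_lit 5934073063473408))) (.node (nat_lit 5934073063473409) (.leaf (nat_lit 5934073063473409)) (.leaf (nat_lit 5934073063538688))))) (.node (nat_lit 5938471076364288) (.node (nat_lit 5934073063538944) (.node (nat_lit 5934073063538689) (.leaf (nat_lit 5934073063538689)) (.leaf (nat_lit 5934073063538944))) (.node (nat_lit 5934073063538945) (.leaf (nat_lit 5934073063538945)) (.leaf (nat_lit 5938471076364288)))) (.node (nat_lit 5939570537529344)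 (.node (nat_lit 5938471076364545) (.leaf (nat_lit 5938471076364545)) (.leaf (nat_lit 5939570537529344))) (.node (nat_lit 5939570537529345) (.leaf (nat_lit 5939570537529345)) (.leaf (nat_lit 5939570571149312)))))) (.node (nat_lit 6068213414887425) (.node (nat_lit 5939570604900609) (.node (nat_lit 5939570604835073) (.node (nat_lit 5939570571214849) (.leaf (nat_lit 5939570571214849)) (.leaf (nat_lit 5939570604835073))) (.node (nat_lit 5939570604900353) (.leaf (nat_lit 5939570604900353)) (.leaf (nat_lit 5939570604900609)))) (.node (nat_lit 5945068162973697) (.node (nat_lit 5945068129288193) (.leaf (nat_lit 5945068129288193)) (.leaf (nat_lit 5945068162973697))) (.node (nat_lit 6067113903259649) (.leaf (nat_lit 6067113903259649)) (.leaf (nat_lit 6068213414887425))))) (.node (nat_lit 6069312960135168) (.node (nat_lit 6069312926515201) (.node (nat_lit 6069312926449921) (.leaf (nat_lit 6069312926449921)) (.leaf (nat_lit 6069312926515201))) (.node (nat_lit 6069312960069888) (.leaf (nat_lit 6069312960069888)) (.leaf (nat_lit 6069312960135168)))) (.node (nat_lit 6070412438143233) (.node (nat_lit 6070412438142976)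 (.leaf (nat_lit 6070412438142976)) (.leaf (nat_lit 6070412438143233))) (.node (nat_lit 6071511949705216) (.leaf (nat_lit 6071511949705216)) (.leaf (nat_lit 6071511949705473)))))))))

theorem t0_ok : t0.ok q Dt pats sp := KT.ok_leaf (by decide +kernel)

def t1 : KT := .node (nat_lit 7205108488404993) (.node (nat_lit 6077009491066881) (.node (nat_lit 6074810484588800) (.node (nat_lit 6073710972960769) (.node (nat_lit 6072611461333248) (.node (nat_lit 6071511983325440) (.node (nat_lit 6071511949770753) (.node (nat_lit 6071511949770752) (.leaf (nat_lit 6071511949770752)) (.leaf (nat_lit 6071511949770753))) (.node (nat_lit 6071511949771009) (.leaf (nat_lit 6071511949771009)) (.leaf (nat_lit 6071511983325440)))) (.node (nat_lit 6071511983390977) (.node (nat_lit 6071511983390720) (.leaf (nat_lit 6071511983390720)) (.leaf (nat_lit 6071511983390977))) (.node (nat_lit 6072611461332993) (.leaf (nat_lit 6072611461332993)) (.leaf (nat_lit 6072611461333248))))) (.node (nat_lit 6072611495018496) (.node (nat_lit 6072611461398528) (.node (nat_lit 6072611461333249) (.leaf (nat_lit 6072611461333249)) (.leaf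 (nat_lit 6072611461398528))) (.node (nat_lit 6072611461398785) (.leaf (nat_lit 6072611461398785)) (.leaf (nat_lit 6072611495018496)))) (.node (nat_lit 6072611495018752) (.node (nat_lit 6072611495018497) (.leaf (nat_lit 6072611495018497)) (.leaf (nat_lit 6072611495018752))) (.node (nat_lit 6073710972960768) (.leaf (nat_lit 6073710972960768)) (.leaf (nat_lit 6073710972960769)))))) (.node (nat_lit 6073711006646273) (.node (nat_lit 6073710973026305) (.node (nat_lit 6073710972961025) (.node (nat_lit 6073710972961024) (.leaf (nat_lit 6073710972961024)) (.leaf (nat_lit 6073710972961025))) (.node (nat_lit 6073710973026304) (.leaf (nat_lit 6073710973026304)) (.leaf (nat_lit 6073710973026305)))) (.node (nat_lit 6073711006580992) (.node (nat_lit 6073710973026561) (.leaf (nat_lit 6073710973026561)) (.leaf (nat_lit 6073711006580992))) (.node (nat_lit 6073711006646272) (.leaf (nat_lit 6073711006646272)) (.leaf (nat_lit 6073711006646273))))) (.node (nat_lit 6074810467746049) (.node (nat_lit 6073711006646529) (.node (nat_lit 6073711006646528) (.leaf (nat_lit 6073711006646528)) (.leaf (nat_lit 6073711006646529)))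 (.node (nat_lit 6074810467746048) (.leaf (nat_lit 6074810467746048)) (.leaf (nat_lit 6074810467746049)))) (.node (nat_lit 6074810467811329) (.node (nat_lit 6074810467811328) (.leaf (nat_lit 6074810467811328)) (.leaf (nat_lit 6074810467811329))) (.node (nat_lit 6074810484588545) (.leaf (nat_lit 6074810484588545)) (.leaf (nat_lit 6074810484588800))))))) (.node (nat_lit 6075909996216321) (.node (nat_lit 6074810518274049) (.node (nat_lit 6074810501431296) (.node (nat_lit 6074810484654337) (.node (nat_lit 6074810484654080) (.leaf (nat_lit 6074810484654080)) (.leaf (nat_lit 6074810484654337))) (.node (nat_lit 6074810501366016) (.leaf (nat_lit 6074810501366016)) (.leaf (nat_lit 6074810501431296)))) (.node (nat_lit 6074810501496833) (.node (nat_lit 6074810501431553) (.leaf (nat_lit 6074810501431553)) (.leaf (nat_lit 6074810501496833))) (.node (nat_lit 6074810501497089) (.leaf (nat_lit 6074810501497089)) (.leaf (nat_lit 6074810518274049))))) (.node (nat_lit 6074810535117056) (.node (nat_lit 6074810535051520) (.node (nat_lit 6074810518274304) (.leaf (nat_lit 6074810518274304)) (.leaf (nat_lit 6074810535051520)))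 (.node (nat_lit 6074810535116800) (.leaf (nat_lit 6074810535116800)) (.leaf (nat_lit 6074810535117056)))) (.node (nat_lit 6075909979439105) (.node (nat_lit 6075909979439104) (.leaf (nat_lit 6075909979439104)) (.leaf (nat_lit 6075909979439105))) (.node (nat_lit 6075909996216320) (.leaf (nat_lit 6075909996216320)) (.leaf (nat_lit 6075909996216321)))))) (.node (nat_lit 6075910013124865) (.node (nat_lit 6075910012993536) (.node (nat_lit 6075909996281856) (.node (nat_lit 6075909996216576) (.leaf (nat_lit 6075909996216576)) (.leaf (nat_lit 6075909996281856))) (.node (nat_lit 6075909996282113) (.leaf (nat_lit 6075909996282113)) (.leaf (nat_lit 6075910012993536)))) (.node (nat_lit 6075910013059329) (.node (nat_lit 6075910013059072) (.leaf (nat_lit 6075910013059072)) (.leaf (nat_lit 6075910013059329))) (.node (nat_lit 6075910013124609) (.leaf (nat_lit 6075910013124609)) (.leaf (nat_lit 6075910013124865))))) (.node (nat_lit 6075910029902080) (.node (nat_lit 6075910029836545) (.node (nat_lit 6075910029836288) (.leaf (nat_lit 6075910029836288)) (.leaf (nat_lit 6075910029836545))) (.node (nat_lit 6075910029901825)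 (.leaf (nat_lit 6075910029901825)) (.leaf (nat_lit 6075910029902080)))) (.node (nat_lit 6075910046679297) (.node (nat_lit 6075910029902081) (.leaf (nat_lit 6075910029902081)) (.leaf (nat_lit 6075910046679297))) (.node (nat_lit 6077009491066880) (.leaf (nat_lit 6077009491066880)) (.leaf (nat_lit 6077009491066881)))))))) (.node (nat_lit 6079208564785153) (.node (nat_lit 6078109036380161) (.node (nat_lit 6077009541529857) (.node (nat_lit 6077009524752385) (.node (nat_lit 6077009524686848) (.node (nat_lit 6077009507844096) (.leaf (nat_lit 6077009507844096)) (.leaf (nat_lit 6077009524686848))) (.node (nat_lit 6077009524687105) (.leaf (nat_lit 6077009524687105)) (.leaf (nat_lit 6077009524752385)))) (.node (nat_lit 6077009541464064) (.node (nat_lit 6077009524752641) (.leaf (nat_lit 6077009524752641)) (.leaf (nat_lit 6077009541464064))) (.node (nat_lit 6077009541464321) (.leaf (nat_lit 6077009541464321)) (.leaf (nat_lit 6077009541529857))))) (.node (nat_lit 6078109019471873) (.node (nat_lit 6078109002694657) (.node (nat_lit 6078109002694656) (.leaf (nat_lit 6078109002694656)) (.leaf (nat_lit 6078109002694657)))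 (.node (nat_lit 6078109019471872) (.leaf (nat_lit 6078109019471872)) (.leaf (nat_lit 6078109019471873)))) (.node (nat_lit 6078109036314624) (.node (nat_lit 6078109036249088) (.leaf (nat_lit 6078109036249088)) (.leaf (nat_lit 6078109036314624))) (.node (nat_lit 6078109036314881) (.leaf (nat_lit 6078109036314881)) (.leaf (nat_lit 6078109036380161)))))) (.node (nat_lit 6079208514322433) (.node (nat_lit 6078109053157377) (.node (nat_lit 6078109053091840) (.node (nat_lit 6078109036380417) (.leaf (nat_lit 6078109036380417)) (.leaf (nat_lit 6078109053091840))) (.node (nat_lit 6078109053092097) (.leaf (nat_lit 6078109053092097)) (.leaf (nat_lit 6078109053157377)))) (.node (nat_lit 6078109069934849) (.node (nat_lit 6078109053157633) (.leaf (nat_lit 6078109053157633)) (.leaf (nat_lit 6078109069934849))) (.node (nat_lit 6079208514322432) (.leaf (nat_lit 6079208514322432)) (.leaf (nat_lit 6079208514322433))))) (.node (nat_lit 6079208548007937) (.node (nat_lit 6079208547942400) (.node (nat_lit 6079208531099649) (.leaf (nat_lit 6079208531099649)) (.leaf (nat_lit 6079208547942400))) (.node (nat_lit 6079208547942657)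 (.leaf (nat_lit 6079208547942657)) (.leaf (nat_lit 6079208548007937)))) (.node (nat_lit 6079208564719616) (.node (nat_lit 6079208548008193) (.leaf (nat_lit 6079208548008193)) (.leaf (nat_lit 6079208564719616))) (.node (nat_lit 6079208564719873) (.leaf (nat_lit 6079208564719873)) (.leaf (nat_lit 6079208564785153))))))) (.node (nat_lit 6084706139767041) (.node (nat_lit 6082507116445953) (.node (nat_lit 6080308093190401) (.node (nat_lit 6080308076347392) (.node (nat_lit 6080308059504640) (.leaf (nat_lit 6080308059504640)) (.leaf (nat_lit 6080308076347392))) (.node (nat_lit 6080308076347649) (.leaf (nat_lit 6080308076347649)) (.leaf (nat_lit 6080308093190401)))) (.node (nat_lit 6082507049140225) (.node (nat_lit 6082507049140224) (.leaf (nat_lit 6082507049140224)) (.leaf (nat_lit 6082507049140225))) (.node (nat_lit 6082507082760192) (.leaf (nat_lit 6082507082760192)) (.leaf (nat_lit 6082507116445953))))) (.node (nat_lit 6084706072395777) (.node (nat_lit 6082507116511489) (.node (nat_lit 6082507116511233) (.leaf (nat_lit 6082507116511233)) (.leaf (nat_lit 6082507116511489))) (.node (nat_lit 6084706072395776)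 (.leaf (nat_lit 6084706072395776)) (.leaf (nat_lit 6084706072395777)))) (.node (nat_lit 6084706139701505) (.node (nat_lit 6084706106015744) (.leaf (nat_lit 6084706106015744)) (.leaf (nat_lit 6084706139701505))) (.node (nat_lit 6084706139766785) (.leaf (nat_lit 6084706139766785)) (.leaf (nat_lit 6084706139767041)))))) (.node (nat_lit 7065470511677440) (.node (nat_lit 7059972953538816) (.node (nat_lit 7059972886233345) (.node (nat_lit 7059972886233344) (.leaf (nat_lit 7059972886233344)) (.leaf (nat_lit 7059972886233345))) (.node (nat_lit 7059972919853312) (.leaf (nat_lit 7059972919853312)) (.leaf (nat_lit 7059972953538816)))) (.node (nat_lit 7059972953604352) (.node (nat_lit 7059972953604096) (.leaf (nat_lit 7059972953604096)) (.leaf (nat_lit 7059972953604352))) (.node (nat_lit 7065470477992193) (.leaf (nat_lit 7065470477992193)) (.leaf (nat_lit 7065470511677440))))) (.node (nat_lit 7204008943157249) (.node (nat_lit 7202909431463937) (.node (nat_lit 7201809919901697) (.leaf (nat_lit 7201809919901697)) (.leaf (nat_lit 7202909431463937))) (.node (nat_lit 7202909465149441) (.leaf (nat_lit 7202909465149441))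 (.leaf (nat_lit 7204008943157249)))) (.node (nat_lit 7205108488339456) (.node (nat_lit 7205108454719489) (.leaf (nat_lit 7205108454719489)) (.leaf (nat_lit 7205108488339456))) (.node (nat_lit 7205108488339713) (.leaf (nat_lit 7205108488339713)) (.leaf (nat_lit 7205108488404993))))))))) (.node (nat_lit 22828069173788672) (.node (nat_lit 21978146702426369) (.node (nat_lit 7487682926280704) (.node (nat_lit 7345845959852289) (.node (nat_lit 7209506534916097) (.node (nat_lit 7207307511660545) (.node (nat_lit 7207307477975041) (.leaf (nat_lit 7207307477975041)) (.leaf (nat_lit 7207307511660545))) (.node (nat_lit 7209506501230593) (.leaf (nat_lit 7209506501230593)) (.leaf (nat_lit 7209506534916097)))) (.node (nat_lit 7345845926297600) (.node (nat_lit 7215004092989441) (.leaf (nat_lit 7215004092989441)) (.leaf (nat_lit 7345845926297600))) (.node (nat_lit 7345845959852033) (.leaf (nat_lit 7345845959852033)) (.leaf (nat_lit 7345845959852289))))) (.node (nat_lit 7345845993537537) (.node (nat_lit 7345845959983361) (.node (nat_lit 7345845959917569) (.leaf (nat_lit 7345845959917569)) (.leaf (nat_lit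 7345845959983361))) (.node (nat_lit 7345845993537536) (.leaf (nat_lit 7345845993537536)) (.leaf (nat_lit 7345845993537537)))) (.node (nat_lit 7486583448272897) (.node (nat_lit 7486583414652928) (.leaf (nat_lit 7486583414652928)) (.leaf (nat_lit 7486583448272897))) (.node (nat_lit 7486583448338689) (.leaf (nat_lit 7486583448338689)) (.leaf (nat_lit 7487682926280704)))))) (.node (nat_lit 21415196749005057) (.node (nat_lit 20284898762031360) (.node (nat_lit 7487682959966465) (.node (nat_lit 7487682959900673) (.leaf (nat_lit 7487682959900673)) (.leaf (nat_lit 7487682959966465))) (.node (nat_lit 7488782471528449) (.leaf (nat_lit 7488782471528449)) (.leaf (nat_lit 20284898762031360)))) (.node (nat_lit 21415196715254016) (.node (nat_lit 21415196715253760) (.leaf (nat_lit 21415196715253760)) (.leaf (nat_lit 21415196715254016))) (.node (nat_lit 21415196715319296) (.leaf (nat_lit 21415196715319296)) (.leaf (nat_lit 21415196749005057))))) (.node (nat_lit 21692273679204608) (.node (nat_lit 21415196782625025) (.node (nat_lit 21415196782625024) (.leaf (nat_lit 21415196782625024)) (.leaf (nat_lit 21415196782625025)))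 (.node (nat_lit 21692273645519104) (.leaf (nat_lit 21692273645519104)) (.leaf (nat_lit 21692273679204608)))) (.node (nat_lit 21978146668675328) (.node (nat_lit 21978146668675072) (.leaf (nat_lit 21978146668675072)) (.leaf (nat_lit 21978146668675328))) (.node (nat_lit 21978146668740608) (.leaf (nat_lit 21978146668740608)) (.leaf (nat_lit 21978146702426369))))))) (.node (nat_lit 22817074057576704) (.node (nat_lit 22535599114486017) (.node (nat_lit 22255223598940416) (.node (nat_lit 21978146736046337) (.node (nat_lit 21978146736046336) (.leaf (nat_lit 21978146736046336)) (.leaf (nat_lit 21978146736046337))) (.node (nat_lit 22254124104155392) (.leaf (nat_lit 22254124104155392)) (.leaf (nat_lit 22255223598940416)))) (.node (nat_lit 22535599080800256) (.node (nat_lit 22255223632625920) (.leaf (nat_lit 22255223632625920)) (.leaf (nat_lit 22535599080800256))) (.node (nat_lit 22535599080866048) (.leaf (nat_lit 22535599080866048)) (.leaf (nat_lit 22535599114486017))))) (.node (nat_lit 22541096655847681) (.node (nat_lit 22541096639004672) (.node (nat_lit 22541096622161920) (.leaf (nat_lit 22541096622161920))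 (.leaf (nat_lit 22541096639004672))) (.node (nat_lit 22541096639004929) (.leaf (nat_lit 22541096639004929)) (.leaf (nat_lit 22541096655847681)))) (.node (nat_lit 22546594230763777) (.node (nat_lit 22546594197078016) (.leaf (nat_lit 22546594197078016)) (.leaf (nat_lit 22546594230763777))) (.node (nat_lit 22817074057510912) (.leaf (nat_lit 22817074057510912)) (.leaf (nat_lit 22817074057576704)))))) (.node (nat_lit 22822571615715585) (.node (nat_lit 22818173552427265) (.node (nat_lit 22818173552361728) (.node (nat_lit 22817074091196673) (.leaf (nat_lit 22817074091196673)) (.leaf (nat_lit 22818173552361728))) (.node (nat_lit 22818173552427008) (.leaf (nat_lit 22818173552427008)) (.leaf (nat_lit 22818173552427265)))) (.node (nat_lit 22822571615650048) (.node (nat_lit 22818173586047232) (.leaf (nat_lit 22818173586047232)) (.leaf (nat_lit 22822571615650048))) (.node (nat_lit 22822571615715328) (.leaf (nat_lit 22822571615715328)) (.leaf (nat_lit 22822571615715585))))) (.node (nat_lit 22822571632492801) (.node (nat_lit 22822571632427264) (.node (nat_lit 22822571632427008) (.leaf (nat_lit 22822571632427008))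 (.leaf (nat_lit 22822571632427264))) (.node (nat_lit 22822571632492544) (.leaf (nat_lit 22822571632492544)) (.leaf (nat_lit 22822571632492801)))) (.node (nat_lit 22822571666112768) (.node (nat_lit 22822571649335552) (.leaf (nat_lit 22822571649335552)) (.leaf (nat_lit 22822571666112768))) (.node (nat_lit 22822571666112769) (.leaf (nat_lit 22822571666112769)) (.leaf (nat_lit 22828069173788672)))))))) (.node (nat_lit 23385521585914113) (.node (nat_lit 23104046642823425) (.node (nat_lit 23104046609137664) (.node (nat_lit 23104046592360448) (.node (nat_lit 23099648562692352) (.node (nat_lit 22828069207474433) (.leaf (nat_lit 22828069207474433)) (.leaf (nat_lit 23099648562692352))) (.node (nat_lit 23104046575583232) (.leaf (nat_lit 23104046575583232)) (.leaf (nat_lit 23104046592360448)))) (.node (nat_lit 23104046592425984) (.node (nat_lit 23104046592360704) (.leaf (nat_lit 23104046592360704)) (.leaf (nat_lit 23104046592425984))) (.node (nat_lit 23104046592426241) (.leaf (nat_lit 23104046592426241)) (.leaf (nat_lit 23104046609137664))))) (.node (nat_lit 23104046609268993) (.node (nat_lit 23104046609203200)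 (.node (nat_lit 23104046609137920) (.leaf (nat_lit 23104046609137920)) (.leaf (nat_lit 23104046609203200))) (.node (nat_lit 23104046609203457) (.leaf (nat_lit 23104046609203457)) (.leaf (nat_lit 23104046609268993)))) (.node (nat_lit 23104046626046209) (.node (nat_lit 23104046626046208) (.leaf (nat_lit 23104046626046208)) (.leaf (nat_lit 23104046626046209))) (.node (nat_lit 23104046642823424) (.leaf (nat_lit 23104046642823424)) (.leaf (nat_lit 23104046642823425)))))) (.node (nat_lit 23381123505783040) (.node (nat_lit 23109544184185089) (.node (nat_lit 23109544150564865) (.node (nat_lit 23109544150499328) (.leaf (nat_lit 23109544150499328)) (.leaf (nat_lit 23109544150564865))) (.node (nat_lit 23109544184119297) (.leaf (nat_lit 23109544184119297)) (.leaf (nat_lit 23109544184185089)))) (.node (nat_lit 23115041742323713) (.node (nat_lit 23115041708638209) (.leaf (nat_lit 23115041708638209)) (.leaf (nat_lit 23115041742323713))) (.node (nat_lit 23120539300397057) (.leaf (nat_lit 23120539300397057)) (.leaf (nat_lit 23381123505783040))))) (.node (nat_lit 23385521569136897) (.node (nat_lit 23385521569071104)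 (.node (nat_lit 23381123539468544) (.leaf (nat_lit 23381123539468544)) (.leaf (nat_lit 23385521569071104))) (.node (nat_lit 23385521569136640) (.leaf (nat_lit 23385521569136640)) (.leaf (nat_lit 23385521569136897)))) (.node (nat_lit 23385521585848576) (.node (nat_lit 23385521585848320) (.leaf (nat_lit 23385521585848320)) (.leaf (nat_lit 23385521585848576))) (.node (nat_lit 23385521585913856) (.leaf (nat_lit 23385521585913856)) (.leaf (nat_lit 23385521585914113))))))) (.node (nat_lit 23391019127275521) (.node (nat_lit 23389919665979393) (.node (nat_lit 23389919632359425) (.node (nat_lit 23385521619534080) (.node (nat_lit 23385521602756865) (.leaf (nat_lit 23385521602756865)) (.leaf (nat_lit 23385521619534080))) (.node (nat_lit 23385521619534081) (.leaf (nat_lit 23385521619534081)) (.leaf (nat_lit 23389919632359425)))) (.node (nat_lit 23389919632424961) (.node (nat_lit 23389919632359681) (.leaf (nat_lit 23389919632359681)) (.leaf (nat_lit 23389919632424961))) (.node (nat_lit 23389919665979392) (.leaf (nat_lit 23389919665979392)) (.leaf (nat_lit 23389919665979393))))) (.node (nat_lit 23389919666044929)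 (.node (nat_lit 23389919665979649) (.node (nat_lit 23389919665979648) (.leaf (nat_lit 23389919665979648)) (.leaf (nat_lit 23389919665979649))) (.node (nat_lit 23389919666044928) (.leaf (nat_lit 23389919666044928)) (.leaf (nat_lit 23389919666044929)))) (.node (nat_lit 23391019127209985) (.node (nat_lit 23391019127209984) (.leaf (nat_lit 23391019127209984)) (.leaf (nat_lit 23391019127209985))) (.node (nat_lit 23391019127210241) (.leaf (nat_lit 23391019127210241)) (.leaf (nat_lit 23391019127275521)))))) (.node (nat_lit 23396516718969089) (.node (nat_lit 23391019160895745) (.node (nat_lit 23391019160895488) (.node (nat_lit 23391019160829953) (.leaf (nat_lit 23391019160829953)) (.leaf (nat_lit 23391019160895488))) (.node (nat_lit 23391019160895489) (.leaf (nat_lit 23391019160895489)) (.leaf (nat_lit 23391019160895745)))) (.node (nat_lit 23396516718968832) (.node (nat_lit 23396516685348865) (.leaf (nat_lit 23396516685348865)) (.leaf (nat_lit 23396516718968832))) (.node (nat_lit 23396516718968833) (.leaf (nat_lit 23396516718968833)) (.leaf (nat_lit 23396516718969089))))) (.node (nat_lit 23666996529004544)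 (.node (nat_lit 23402014277107713) (.node (nat_lit 23396516719034369) (.leaf (nat_lit 23396516719034369)) (.leaf (nat_lit 23402014277107713))) (.node (nat_lit 23662598516113664) (.leaf (nat_lit 23662598516113664)) (.leaf (nat_lit 23666996529004544)))) (.node (nat_lit 23666996545781761) (.node (nat_lit 23666996545781760) (.leaf (nat_lit 23666996545781760)) (.leaf (nat_lit 23666996545781761))) (.node (nat_lit 23666996545782016) (.leaf (nat_lit 23666996545782016)) (.leaf (nat_lit 23666996545847296)))))))))

theorem t1_ok : t1.ok q Dt pats sp := KT.ok_leaf (by decide +kernel)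

def t2 : KT := .node (nat_lit 24240941649100801) (.node (nat_lit 23948471539400705) (.node (nat_lit 23672494103920641) (.node (nat_lit 23666996596244736) (.node (nat_lit 23666996562690305) (.node (nat_lit 23666996562559232) (.node (nat_lit 23666996562558976) (.node (nat_lit 23666996545847553) (.leaf (nat_lit 23666996545847553)) (.leaf (nat_lit 23666996562558976))) (.leaf (nat_lit 23666996562559232))) (.node (nat_lit 23666996562624769) (.node (nat_lit 23666996562624512) (.leaf (nat_lit 23666996562624512)) (.leaf (nat_lit 23666996562624769))) (.leaf (nat_lit 23666996562690305)))) (.node (nat_lit 23666996579467265) (.node (nat_lit 23666996579401985) (.node (nat_lit 23666996579401728) (.leaf (nat_lit 23666996579401728)) (.leaf (nat_lit 23666996579401985))) (.leaf (nat_lit 23666996579467265))) (.node (nat_lit 23666996579467521) (.node (nat_lit 23666996579467520) (.leaf (nat_lit 23666996579467520)) (.leaf (nat_lit 23666996579467521))) (.leaf (nat_lit 23666996596244736))))) (.node (nat_lit 23671394642690049) (.node (nat_lit 23671394609070337) (.node (nat_lit 23671394609070081) (.node (nat_lit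 23666996596244737) (.leaf (nat_lit 23666996596244737)) (.leaf (nat_lit 23671394609070081))) (.leaf (nat_lit 23671394609070337))) (.node (nat_lit 23671394642690048) (.node (nat_lit 23671394609135617) (.leaf (nat_lit 23671394609135617)) (.leaf (nat_lit 23671394642690048))) (.leaf (nat_lit 23671394642690049)))) (.node (nat_lit 23671394642755584) (.node (nat_lit 23671394642690305) (.node (nat_lit 23671394642690304) (.leaf (nat_lit 23671394642690304)) (.leaf (nat_lit 23671394642690305))) (.leaf (nat_lit 23671394642755584))) (.node (nat_lit 23672494103920640) (.node (nat_lit 23671394642755585) (.leaf (nat_lit 23671394642755585)) (.leaf (nat_lit 23672494103920640))) (.leaf (nat_lit 23672494103920641)))))) (.node (nat_lit 23677991695679745) (.node (nat_lit 23672494137606144) (.node (nat_lit 23672494137540608) (.node (nat_lit 23672494103986177) (.node (nat_lit 23672494103920897) (.leaf (nat_lit 23672494103920897)) (.leaf (nat_lit 23672494103986177))) (.leaf (nat_lit 23672494137540608))) (.node (nat_lit 23672494137540865) (.node (nat_lit 23672494137540609) (.leaf (nat_lit 23672494137540609)) (.leaf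 (nat_lit 23672494137540865))) (.leaf (nat_lit 23672494137606144)))) (.node (nat_lit 23677991662059521) (.node (nat_lit 23672494137606401) (.node (nat_lit 23672494137606145) (.leaf (nat_lit 23672494137606145)) (.leaf (nat_lit 23672494137606401))) (.leaf (nat_lit 23677991662059521))) (.node (nat_lit 23677991695679489) (.node (nat_lit 23677991695679488) (.leaf (nat_lit 23677991695679488)) (.leaf (nat_lit 23677991695679489))) (.leaf (nat_lit 23677991695679745))))) (.node (nat_lit 23948471522492417) (.node (nat_lit 23948471505649665) (.node (nat_lit 23683489253818369) (.node (nat_lit 23677991695745025) (.leaf (nat_lit 23677991695745025)) (.leaf (nat_lit 23683489253818369))) (.leaf (nat_lit 23948471505649665))) (.node (nat_lit 23948471505715201) (.node (nat_lit 23948471505649921) (.leaf (nat_lit 23948471505649921)) (.leaf (nat_lit 23948471505715201))) (.leaf (nat_lit 23948471522492417)))) (.node (nat_lit 23948471539269888) (.node (nat_lit 23948471539269632) (.node (nat_lit 23948471522492672) (.leaf (nat_lit 23948471522492672)) (.leaf (nat_lit 23948471539269632))) (.leaf (nat_lit 23948471539269888)))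 (.node (nat_lit 23948471539335425) (.node (nat_lit 23948471539335168) (.leaf (nat_lit 23948471539335168)) (.leaf (nat_lit 23948471539335425))) (.leaf (nat_lit 23948471539400705))))))) (.node (nat_lit 24229946499203329) (.node (nat_lit 23952869619466240) (.node (nat_lit 23948471572955393) (.node (nat_lit 23948471556177921) (.node (nat_lit 23948471556112641) (.node (nat_lit 23948471556112384) (.leaf (nat_lit 23948471556112384)) (.leaf (nat_lit 23948471556112641))) (.leaf (nat_lit 23948471556177921))) (.node (nat_lit 23948471572955392) (.node (nat_lit 23948471556178176) (.leaf (nat_lit 23948471556178176)) (.leaf (nat_lit 23948471572955392))) (.leaf (nat_lit 23948471572955393)))) (.node (nat_lit 23952869585780737) (.node (nat_lit 23948471573020673) (.node (nat_lit 23948471573020672) (.leaf (nat_lit 23948471573020672)) (.leaf (nat_lit 23948471573020673))) (.leaf (nat_lit 23952869585780737))) (.node (nat_lit 23952869585846273) (.node (nat_lit 23952869585780993) (.leaf (nat_lit 23952869585780993)) (.leaf (nat_lit 23952869585846273))) (.leaf (nat_lit 23952869619466240))))) (.node (nat_lit 23959466638770177)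 (.node (nat_lit 23953969080696833) (.node (nat_lit 23953969080631296) (.node (nat_lit 23952869619466241) (.leaf (nat_lit 23952869619466241)) (.leaf (nat_lit 23953969080631296))) (.leaf (nat_lit 23953969080696833))) (.node (nat_lit 23953969114317057) (.node (nat_lit 23953969114251265) (.leaf (nat_lit 23953969114251265)) (.leaf (nat_lit 23953969114317057))) (.leaf (nat_lit 23959466638770177)))) (.node (nat_lit 24229946499203072) (.node (nat_lit 23964964230529025) (.node (nat_lit 23959466672455681) (.leaf (nat_lit 23959466672455681)) (.leaf (nat_lit 23964964230529025))) (.leaf (nat_lit 24229946499203072))) (.node (nat_lit 24229946499203328) (.node (nat_lit 24229946499203073) (.leaf (nat_lit 24229946499203073)) (.leaf (nat_lit 24229946499203328))) (.leaf (nat_lit 24229946499203329)))))) (.node (nat_lit 24234344596176896) (.node (nat_lit 24229946532888577) (.node (nat_lit 24229946532823296) (.node (nat_lit 24229946532823040) (.node (nat_lit 24229946499268609) (.leaf (nat_lit 24229946499268609)) (.leaf (nat_lit 24229946532823040))) (.leaf (nat_lit 24229946532823296))) (.node (nat_lit 24229946532888576)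 (.node (nat_lit 24229946532823297) (.leaf (nat_lit 24229946532823297)) (.leaf (nat_lit 24229946532888576))) (.leaf (nat_lit 24229946532888577)))) (.node (nat_lit 24234344562491393) (.node (nat_lit 24229946532888833) (.node (nat_lit 24229946532888832) (.leaf (nat_lit 24229946532888832)) (.leaf (nat_lit 24229946532888833))) (.leaf (nat_lit 24234344562491393))) (.node (nat_lit 24234344562556929) (.node (nat_lit 24234344562491649) (.leaf (nat_lit 24234344562491649)) (.leaf (nat_lit 24234344562556929))) (.leaf (nat_lit 24234344596176896))))) (.node (nat_lit 24235444090962177) (.node (nat_lit 24235444057342209) (.node (nat_lit 24235444057341953) (.node (nat_lit 24234344596176897) (.leaf (nat_lit 24234344596176897)) (.leaf (nat_lit 24235444057341953))) (.leaf (nat_lit 24235444057342209))) (.node (nat_lit 24235444090961920) (.node (nat_lit 24235444057407489) (.leaf (nat_lit 24235444057407489)) (.leaf (nat_lit 24235444090961920))) (.leaf (nat_lit 24235444090962177)))) (.node (nat_lit 24240941615480833) (.node (nat_lit 24235444091027457) (.node (nat_lit 24235444091027456) (.leaf (nat_lit 24235444091027456))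 (.leaf (nat_lit 24235444091027457))) (.leaf (nat_lit 24240941615480833))) (.node (nat_lit 24240941649100800) (.leaf (nat_lit 24240941649100800)) (.leaf (nat_lit 24240941649100801)))))))) (.node (nat_lit 24798394044448768) (.node (nat_lit 24522416625811456) (.node (nat_lit 24515819539202049) (.node (nat_lit 24511421475913985) (.node (nat_lit 24246439207239681) (.node (nat_lit 24240941649166337) (.node (nat_lit 24240941649101057) (.leaf (nat_lit 24240941649101057)) (.leaf (nat_lit 24240941649166337))) (.leaf (nat_lit 24246439207239681))) (.node (nat_lit 24511421475913984) (.node (nat_lit 24511421475913729) (.leaf (nat_lit 24511421475913729)) (.leaf (nat_lit 24511421475913984))) (.leaf (nat_lit 24511421475913985)))) (.node (nat_lit 24511421509599232) (.node (nat_lit 24511421509533953) (.node (nat_lit 24511421509533696) (.leaf (nat_lit 24511421509533696)) (.leaf (nat_lit 24511421509533953))) (.leaf (nat_lit 24511421509599232))) (.node (nat_lit 24511421509599488) (.node (nat_lit 24511421509599233) (.leaf (nat_lit 24511421509599233)) (.leaf (nat_lit 24511421509599488))) (.leaf (nat_lit 24515819539202049)))))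 (.node (nat_lit 24516919034118145) (.node (nat_lit 24515819572887552) (.node (nat_lit 24515819539267585) (.node (nat_lit 24515819539202305) (.leaf (nat_lit 24515819539202305)) (.leaf (nat_lit 24515819539267585))) (.leaf (nat_lit 24515819572887552))) (.node (nat_lit 24516919034052865) (.node (nat_lit 24515819572887553) (.leaf (nat_lit 24515819572887553)) (.leaf (nat_lit 24516919034052865))) (.leaf (nat_lit 24516919034118145)))) (.node (nat_lit 24516919067672833) (.node (nat_lit 24516919067672832) (.node (nat_lit 24516919067672576) (.leaf (nat_lit 24516919067672576)) (.leaf (nat_lit 24516919067672832))) (.leaf (nat_lit 24516919067672833))) (.node (nat_lit 24522416592191489) (.node (nat_lit 24516919067738112) (.leaf (nat_lit 24516919067738112)) (.leaf (nat_lit 24522416592191489))) (.leaf (nat_lit 24522416625811456)))))) (.node (nat_lit 24797294515912705) (.node (nat_lit 24792896452689921) (.node (nat_lit 24527914183950337) (.node (nat_lit 24522416625876993) (.node (nat_lit 24522416625811713) (.leaf (nat_lit 24522416625811713)) (.leaf (nat_lit 24522416625876993))) (.leaf (nat_lit 24527914183950337)))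 (.node (nat_lit 24792896452624641) (.node (nat_lit 24792896452624384) (.leaf (nat_lit 24792896452624384)) (.leaf (nat_lit 24792896452624641))) (.leaf (nat_lit 24792896452689921)))) (.node (nat_lit 24792896486244609) (.node (nat_lit 24792896486244608) (.node (nat_lit 24792896486244352) (.leaf (nat_lit 24792896486244352)) (.leaf (nat_lit 24792896486244608))) (.leaf (nat_lit 24792896486244609))) (.node (nat_lit 24792896486310145) (.node (nat_lit 24792896486309888) (.leaf (nat_lit 24792896486309888)) (.leaf (nat_lit 24792896486310145))) (.leaf (nat_lit 24797294515912705))))) (.node (nat_lit 24798394010763521) (.node (nat_lit 24797294549598208) (.node (nat_lit 24797294515978241) (.node (nat_lit 24797294515912961) (.leaf (nat_lit 24797294515912961)) (.leaf (nat_lit 24797294515978241))) (.leaf (nat_lit 24797294549598208))) (.node (nat_lit 24798394010763265) (.node (nat_lit 24797294549598209) (.leaf (nat_lit 24797294549598209)) (.leaf (nat_lit 24798394010763265))) (.leaf (nat_lit 24798394010763521)))) (.node (nat_lit 24798394044383233) (.node (nat_lit 24798394044383232) (.node (nat_lit 24798394010828801)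 (.leaf (nat_lit 24798394010828801)) (.leaf (nat_lit 24798394044383232))) (.leaf (nat_lit 24798394044383233))) (.node (nat_lit 24798394044383489) (.node (nat_lit 24798394044383488) (.leaf (nat_lit 24798394044383488)) (.leaf (nat_lit 24798394044383489))) (.leaf (nat_lit 24798394044448768))))))) (.node (nat_lit 25360244469334273) (.node (nat_lit 25078769492688897) (.node (nat_lit 24803891602587649) (.node (nat_lit 24803891602522112) (.node (nat_lit 24803891568902145) (.node (nat_lit 24798394044448769) (.leaf (nat_lit 24798394044448769)) (.leaf (nat_lit 24803891568902145))) (.leaf (nat_lit 24803891602522112))) (.node (nat_lit 24803891602522369) (.node (nat_lit 24803891602522113) (.leaf (nat_lit 24803891602522113)) (.leaf (nat_lit 24803891602522369))) (.leaf (nat_lit 24803891602587649)))) (.node (nat_lit 25074371462955265) (.node (nat_lit 25074371462955008) (.node (nat_lit 24809389160660993) (.leaf (nat_lit 24809389160660993)) (.leaf (nat_lit 25074371462955008))) (.leaf (nat_lit 25074371462955265))) (.node (nat_lit 25078769492623617) (.node (nat_lit 25078769492623361) (.leaf (nat_lit 25078769492623361))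 (.leaf (nat_lit 25078769492623617))) (.leaf (nat_lit 25078769492688897))))) (.node (nat_lit 25085366579233025) (.node (nat_lit 25079868987474177) (.node (nat_lit 25078769526308865) (.node (nat_lit 25078769526308864) (.leaf (nat_lit 25078769526308864)) (.leaf (nat_lit 25078769526308865))) (.leaf (nat_lit 25079868987474177))) (.node (nat_lit 25085366579232768) (.node (nat_lit 25079869021159424) (.leaf (nat_lit 25079869021159424)) (.leaf (nat_lit 25085366579232768))) (.leaf (nat_lit 25085366579233025)))) (.node (nat_lit 25355846439665920) (.node (nat_lit 25355846406111233) (.node (nat_lit 25355846406045953) (.leaf (nat_lit 25355846406045953)) (.leaf (nat_lit 25355846406111233))) (.leaf (nat_lit 25355846439665920))) (.node (nat_lit 25360244469334017) (.node (nat_lit 25355846439731200) (.leaf (nat_lit 25355846439731200)) (.leaf (nat_lit 25360244469334017))) (.leaf (nat_lit 25360244469334273)))))) (.node (nat_lit 25366841555943681) (.node (nat_lit 25361343997804544) (.node (nat_lit 25360244503019521) (.node (nat_lit 25360244503019520) (.node (nat_lit 25360244469399553) (.leaf (nat_lit 25360244469399553))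 (.leaf (nat_lit 25360244503019520))) (.leaf (nat_lit 25360244503019521))) (.node (nat_lit 25361343964184833) (.node (nat_lit 25361343964184577) (.leaf (nat_lit 25361343964184577)) (.leaf (nat_lit 25361343964184833))) (.leaf (nat_lit 25361343997804544)))) (.node (nat_lit 25361343997870080) (.node (nat_lit 25361343997804801) (.node (nat_lit 25361343997804800) (.leaf (nat_lit 25361343997804800)) (.leaf (nat_lit 25361343997804801))) (.leaf (nat_lit 25361343997870080))) (.node (nat_lit 25366841555943424) (.node (nat_lit 25361343997870081) (.leaf (nat_lit 25361343997870081)) (.leaf (nat_lit 25366841555943424))) (.leaf (nat_lit 25366841555943681))))) (.node (nat_lit 25648316532654337) (.node (nat_lit 25642818974515456) (.node (nat_lit 25642818940895489) (.node (nat_lit 25637321416376576) (.leaf (nat_lit 25637321416376576)) (.leaf (nat_lit 25642818940895489))) (.leaf (nat_lit 25642818974515456))) (.node (nat_lit 25648316532654080) (.node (nat_lit 25642818974580736) (.leaf (nat_lit 25642818974580736)) (.leaf (nat_lit 25648316532654080))) (.leaf (nat_lit 25648316532654337)))) (.node (nat_lit 25924293951226112)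 (.node (nat_lit 25924293951225856) (.node (nat_lit 25918796393087232) (.leaf (nat_lit 25918796393087232)) (.leaf (nat_lit 25924293951225856))) (.leaf (nat_lit 25924293951226112))) (.node (nat_lit 25924293951226113) (.leaf (nat_lit 25924293951226113)) (.leaf (nat_lit 26205768927936768))))))))

theorem t2_ok : t2.ok q Dt pats sp := KT.ok_leaf (by decide +kernel)

def u0 : KT := .node (nat_lit 312214016) (.node (nat_lit 261423616) (.node (nat_lit 2621696) (.node (nat_lit 1310976) (.node (nat_lit 655616) (.node (nat_lit 327936) (.node (nat_lit 196864) (.node (nat_lit 131328) (.leaf (nat_lit 131328)) (.leaf (nat_lit 196864))) (.node (nat_lit 262400) (.leaf (nat_lit 262400)) (.leaf (nat_lit 327936)))) (.node (nat_lit 524544) (.node (nat_lit 459008) (.leaf (nat_lit 459008)) (.leaf (nat_lit 524544))) (.node (nat_lit 590080) (.leaf (nat_lit 590080)) (.leaf (nat_lit 655616))))) (.node (nat_lit 983296) (.node (nat_lit 852224) (.node (nat_lit 786688) (.leaf (nat_lit 786688)) (.leaf (nat_lit 852224))) (.node (nat_lit 917760) (.leaf (nat_lit 917760)) (.leaf (nat_lit 983296)))) (.node (nat_lit 1179904)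 (.node (nat_lit 1114368) (.leaf (nat_lit 1114368)) (.leaf (nat_lit 1179904))) (.node (nat_lit 1245440) (.leaf (nat_lit 1245440)) (.leaf (nat_lit 1310976)))))) (.node (nat_lit 1966336) (.node (nat_lit 1638656) (.node (nat_lit 1507584) (.node (nat_lit 1442048) (.leaf (nat_lit 1442048)) (.leaf (nat_lit 1507584))) (.node (nat_lit 1573120) (.leaf (nat_lit 1573120)) (.leaf (nat_lit 1638656)))) (.node (nat_lit 1835264) (.node (nat_lit 1769728) (.leaf (nat_lit 1769728)) (.leaf (nat_lit 1835264))) (.node (nat_lit 1900800) (.leaf (nat_lit 1900800)) (.leaf (nat_lit 1966336))))) (.node (nat_lit 2294016) (.node (nat_lit 2162944) (.node (nat_lit 2097408) (.leaf (nat_lit 2097408)) (.leaf (nat_lit 2162944))) (.node (nat_lit 2228480) (.leaf (nat_lit 2228480)) (.leaf (nat_lit 2294016)))) (.node (nat_lit 2490624) (.node (nat_lit 2425088) (.leaf (nat_lit 2425088)) (.leaf (nat_lit 2490624))) (.node (nat_lit 2556160) (.leaf (nat_lit 2556160)) (.leaf (nat_lit 2621696))))))) (.node (nat_lit 244646400) (.node (nat_lit 244122112) (.node (nat_lit 186122753) (.node (nat_lit 185860609) (.node (nat_lit 185795073) (.leaf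 (nat_lit 185795073)) (.leaf (nat_lit 185860609))) (.node (nat_lit 185991681) (.leaf (nat_lit 185991681)) (.leaf (nat_lit 186122753)))) (.node (nat_lit 243991040) (.node (nat_lit 243925504) (.leaf (nat_lit 243925504)) (.leaf (nat_lit 243991040))) (.node (nat_lit 244056576) (.leaf (nat_lit 244056576)) (.leaf (nat_lit 244122112))))) (.node (nat_lit 244384256) (.node (nat_lit 244253184) (.node (nat_lit 244187648) (.leaf (nat_lit 244187648)) (.leaf (nat_lit 244253184))) (.node (nat_lit 244318720) (.leaf (nat_lit 244318720)) (.leaf (nat_lit 244384256)))) (.node (nat_lit 244515328) (.node (nat_lit 244449792) (.leaf (nat_lit 244449792)) (.leaf (nat_lit 244515328))) (.node (nat_lit 244580864) (.leaf (nat_lit 244580864)) (.leaf (nat_lit 244646400)))))) (.node (nat_lit 260899328) (.node (nat_lit 260571648) (.node (nat_lit 244777472) (.node (nat_lit 244711936) (.leaf (nat_lit 244711936)) (.leaf (nat_lit 244777472))) (.node (nat_lit 244843008) (.leaf (nat_lit 244843008)) (.leaf (nat_lit 260571648)))) (.node (nat_lit 260768256) (.node (nat_lit 260702720) (.leaf (nat_lit 260702720)) (.leaf (nat_lit 260768256)))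 (.node (nat_lit 260833792) (.leaf (nat_lit 260833792)) (.leaf (nat_lit 260899328))))) (.node (nat_lit 261161472) (.node (nat_lit 261030400) (.node (nat_lit 260964864) (.leaf (nat_lit 260964864)) (.leaf (nat_lit 261030400))) (.node (nat_lit 261095936) (.leaf (nat_lit 261095936)) (.leaf (nat_lit 261161472)))) (.node (nat_lit 261292544) (.node (nat_lit 261227008) (.leaf (nat_lit 261227008)) (.leaf (nat_lit 261292544))) (.node (nat_lit 261358080) (.leaf (nat_lit 261358080)) (.leaf (nat_lit 261423616)))))))) (.node (nat_lit 293995008) (.node (nat_lit 277414400) (.node (nat_lit 269681153) (.node (nat_lit 269419009) (.node (nat_lit 261554688) (.node (nat_lit 261489152) (.leaf (nat_lit 261489152)) (.leaf (nat_lit 261554688))) (.node (nat_lit 269353473) (.leaf (nat_lit 269353473)) (.leaf (nat_lit 269419009)))) (.node (nat_lit 269484545) (.node (nat_lit 269484544) (.leaf (nat_lit 269484544)) (.leaf (nat_lit 269484545))) (.node (nat_lit 269615617) (.leaf (nat_lit 269615617)) (.leaf (nat_lit 269681153))))) (.node (nat_lit 270008833) (.node (nat_lit 269877761) (.node (nat_lit 269746689) (.leaf (nat_lit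 269746689)) (.leaf (nat_lit 269877761))) (.node (nat_lit 269943297) (.leaf (nat_lit 269943297)) (.leaf (nat_lit 270008833)))) (.node (nat_lit 270139905) (.node (nat_lit 270139904) (.leaf (nat_lit 270139904)) (.leaf (nat_lit 270139905))) (.node (nat_lit 277348864) (.leaf (nat_lit 277348864)) (.leaf (nat_lit 277414400)))))) (.node (nat_lit 277938688) (.node (nat_lit 277676544) (.node (nat_lit 277545472) (.node (nat_lit 277479936) (.leaf (nat_lit 277479936)) (.leaf (nat_lit 277545472))) (.node (nat_lit 277611008) (.leaf (nat_lit 277611008)) (.leaf (nat_lit 277676544)))) (.node (nat_lit 277807616) (.node (nat_lit 277742080) (.leaf (nat_lit 277742080)) (.leaf (nat_lit 277807616))) (.node (nat_lit 277873152) (.leaf (nat_lit 277873152)) (.leaf (nat_lit 277938688))))) (.node (nat_lit 278200832) (.node (nat_lit 278069760) (.node (nat_lit 278004224) (.leaf (nat_lit 278004224)) (.leaf (nat_lit 278069760))) (.node (nat_lit 278135296) (.leaf (nat_lit 278135296)) (.leaf (nat_lit 278200832)))) (.node (nat_lit 278331904) (.node (nat_lit 278266368) (.leaf (nat_lit 278266368)) (.leaf (nat_lit 278331904)))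 (.node (nat_lit 278397440) (.leaf (nat_lit 278397440)) (.leaf (nat_lit 293995008))))))) (.node (nat_lit 311165440) (.node (nat_lit 303694336) (.node (nat_lit 294519296) (.node (nat_lit 294257152) (.node (nat_lit 294126080) (.leaf (nat_lit 294126080)) (.leaf (nat_lit 294257152))) (.node (nat_lit 294388224) (.leaf (nat_lit 294388224)) (.leaf (nat_lit 294519296)))) (.node (nat_lit 303038976) (.node (nat_lit 302711296) (.leaf (nat_lit 302711296)) (.leaf (nat_lit 303038976))) (.node (nat_lit 303366656) (.leaf (nat_lit 303366656)) (.leaf (nat_lit 303694336))))) (.node (nat_lit 310903296) (.node (nat_lit 310772224) (.node (nat_lit 304022016) (.leaf (nat_lit 304022016)) (.leaf (nat_lit 310772224))) (.node (nat_lit 310837760) (.leaf (nat_lit 310837760)) (.leaf (nat_lit 310903296)))) (.node (nat_lit 311034368) (.node (nat_lit 310968832) (.leaf (nat_lit 310968832)) (.leaf (nat_lit 311034368))) (.node (nat_lit 311099904) (.leaf (nat_lit 311099904)) (.leaf (nat_lit 311165440)))))) (.node (nat_lit 311689728) (.node (nat_lit 311427584) (.node (nat_lit 311296512) (.node (nat_lit 311230976) (.leaf (nat_lit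 311230976)) (.leaf (nat_lit 311296512))) (.node (nat_lit 311362048) (.leaf (nat_lit 311362048)) (.leaf (nat_lit 311427584)))) (.node (nat_lit 311558656) (.node (nat_lit 311493120) (.leaf (nat_lit 311493120)) (.leaf (nat_lit 311558656))) (.node (nat_lit 311624192) (.leaf (nat_lit 311624192)) (.leaf (nat_lit 311689728))))) (.node (nat_lit 311951872) (.node (nat_lit 311820800) (.node (nat_lit 311755264) (.leaf (nat_lit 311755264)) (.leaf (nat_lit 311820800))) (.node (nat_lit 311886336) (.leaf (nat_lit 311886336)) (.leaf (nat_lit 311951872)))) (.node (nat_lit 312082944) (.node (nat_lit 312017408) (.leaf (nat_lit 312017408)) (.leaf (nat_lit 312082944))) (.node (nat_lit 312148480) (.leaf (nat_lit 312148480)) (.leaf (nat_lit 312214016))))))))) (.node (nat_lit 353567233) (.node (nat_lit 336921088) (.node (nat_lit 328204800) (.node (nat_lit 320143872) (.node (nat_lit 312476160) (.node (nat_lit 312345088) (.node (nat_lit 312279552) (.leaf (nat_lit 312279552)) (.leaf (nat_lit 312345088))) (.node (nat_lit 312410624) (.leaf (nat_lit 312410624)) (.leaf (nat_lit 312476160)))) (.node (nat_lit 319488512)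 (.node (nat_lit 319160832) (.leaf (nat_lit 319160832)) (.leaf (nat_lit 319488512))) (.node (nat_lit 319816192) (.leaf (nat_lit 319816192)) (.leaf (nat_lit 320143872))))) (.node (nat_lit 327942656) (.node (nat_lit 327418368) (.node (nat_lit 320471552) (.leaf (nat_lit 320471552)) (.leaf (nat_lit 327418368))) (.node (nat_lit 327877120) (.leaf (nat_lit 327877120)) (.leaf (nat_lit 327942656)))) (.node (nat_lit 328073728) (.node (nat_lit 328008192) (.leaf (nat_lit 328008192)) (.leaf (nat_lit 328073728))) (.node (nat_lit 328139264) (.leaf (nat_lit 328139264)) (.leaf (nat_lit 328204800)))))) (.node (nat_lit 328729088) (.node (nat_lit 328466944) (.node (nat_lit 328335872) (.node (nat_lit 328270336) (.leaf (nat_lit 328270336)) (.leaf (nat_lit 328335872))) (.node (nat_lit 328401408) (.leaf (nat_lit 328401408)) (.leaf (nat_lit 328466944)))) (.node (nat_lit 328598016) (.node (nat_lit 328532480) (.leaf (nat_lit 328532480)) (.leaf (nat_lit 328598016))) (.node (nat_lit 328663552) (.leaf (nat_lit 328663552)) (.leaf (nat_lit 328729088))))) (.node (nat_lit 329122304) (.node (nat_lit 328860160) (.node (nat_lit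 328794624) (.leaf (nat_lit 328794624)) (.leaf (nat_lit 328860160))) (.node (nat_lit 328991232) (.leaf (nat_lit 328991232)) (.leaf (nat_lit 329122304)))) (.node (nat_lit 336265728) (.node (nat_lit 335938048) (.leaf (nat_lit 335938048)) (.leaf (nat_lit 336265728))) (.node (nat_lit 336593408) (.leaf (nat_lit 336593408)) (.leaf (nat_lit 336921088))))))) (.node (nat_lit 345375232) (.node (nat_lit 344850944) (.node (nat_lit 344588800) (.node (nat_lit 337576448) (.node (nat_lit 337248768) (.leaf (nat_lit 337248768)) (.leaf (nat_lit 337576448))) (.node (nat_lit 344523264) (.leaf (nat_lit 344523264)) (.leaf (nat_lit 344588800)))) (.node (nat_lit 344719872) (.node (nat_lit 344654336) (.leaf (nat_lit 344654336)) (.leaf (nat_lit 344719872))) (.node (nat_lit 344785408) (.leaf (nat_lit 344785408)) (.leaf (nat_lit 344850944))))) (.node (nat_lit 345113088) (.node (nat_lit 344982016) (.node (nat_lit 344916480) (.leaf (nat_lit 344916480)) (.leaf (nat_lit 344982016))) (.node (nat_lit 345047552) (.leaf (nat_lit 345047552)) (.leaf (nat_lit 345113088)))) (.node (nat_lit 345244160) (.node (nat_lit 345178624)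 (.leaf (nat_lit 345178624)) (.leaf (nat_lit 345244160))) (.node (nat_lit 345309696) (.leaf (nat_lit 345309696)) (.leaf (nat_lit 345375232)))))) (.node (nat_lit 345899520) (.node (nat_lit 345637376) (.node (nat_lit 345506304) (.node (nat_lit 345440768) (.leaf (nat_lit 345440768)) (.leaf (nat_lit 345506304))) (.node (nat_lit 345571840) (.leaf (nat_lit 345571840)) (.leaf (nat_lit 345637376)))) (.node (nat_lit 345768448) (.node (nat_lit 345702912) (.leaf (nat_lit 345702912)) (.leaf (nat_lit 345768448))) (.node (nat_lit 345833984) (.leaf (nat_lit 345833984)) (.leaf (nat_lit 345899520))))) (.node (nat_lit 353239553) (.node (nat_lit 346030592) (.node (nat_lit 345965056) (.leaf (nat_lit 345965056)) (.leaf (nat_lit 346030592))) (.node (nat_lit 353042944) (.leaf (nat_lit 353042944)) (.leaf (nat_lit 353239553)))) (.node (nat_lit 353370625) (.node (nat_lit 353305089) (.leaf (nat_lit 353305089)) (.leaf (nat_lit 353370625))) (.node (nat_lit 353501697) (.leaf (nat_lit 353501697)) (.leaf (nat_lit 353567233)))))))) (.node (nat_lit 378929664) (.node (nat_lit 370803200) (.node (nat_lit 361693696) (.node (nat_lit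 353894913) (.node (nat_lit 353763841) (.node (nat_lit 353632769) (.leaf (nat_lit 353632769)) (.leaf (nat_lit 353763841))) (.node (nat_lit 353829377) (.leaf (nat_lit 353829377)) (.leaf (nat_lit 353894913)))) (.node (nat_lit 361431552) (.node (nat_lit 361300480) (.leaf (nat_lit 361300480)) (.leaf (nat_lit 361431552))) (.node (nat_lit 361562624) (.leaf (nat_lit 361562624)) (.leaf (nat_lit 361693696))))) (.node (nat_lit 362021376) (.node (nat_lit 361890304) (.node (nat_lit 361824768) (.leaf (nat_lit 361824768)) (.leaf (nat_lit 361890304))) (.node (nat_lit 361955840) (.leaf (nat_lit 361955840)) (.leaf (nat_lit 362021376)))) (.node (nat_lit 370147840) (.node (nat_lit 369820160) (.leaf (nat_lit 369820160)) (.leaf (nat_lit 370147840))) (.node (nat_lit 370475520) (.leaf (nat_lit 370475520)) (.leaf (nat_lit 370803200)))))) (.node (nat_lit 378405376) (.node (nat_lit 378143232) (.node (nat_lit 378012160) (.node (nat_lit 371130880) (.leaf (nat_lit 371130880)) (.leaf (nat_lit 378012160))) (.node (nat_lit 378077696) (.leaf (nat_lit 378077696)) (.leaf (nat_lit 378143232)))) (.node (nat_lit 378274304) (.node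 (nat_lit 378208768) (.leaf (nat_lit 378208768)) (.leaf (nat_lit 378274304))) (.node (nat_lit 378339840) (.leaf (nat_lit 378339840)) (.leaf (nat_lit 378405376))))) (.node (nat_lit 378667520) (.node (nat_lit 378536448) (.node (nat_lit 378470912) (.leaf (nat_lit 378470912)) (.leaf (nat_lit 378536448))) (.node (nat_lit 378601984) (.leaf (nat_lit 378601984)) (.leaf (nat_lit 378667520)))) (.node (nat_lit 378798592) (.node (nat_lit 378733056) (.leaf (nat_lit 378733056)) (.leaf (nat_lit 378798592))) (.node (nat_lit 378864128) (.leaf (nat_lit 378864128)) (.leaf (nat_lit 378929664))))))) (.node (nat_lit 386925056) (.node (nat_lit 379453952) (.node (nat_lit 379191808) (.node (nat_lit 379060736) (.node (nat_lit 378995200) (.leaf (nat_lit 378995200)) (.leaf (nat_lit 379060736))) (.node (nat_lit 379126272) (.leaf (nat_lit 379126272)) (.leaf (nat_lit 379191808)))) (.node (nat_lit 379322880) (.node (nat_lit 379257344) (.leaf (nat_lit 379257344)) (.leaf (nat_lit 379322880))) (.node (nat_lit 379388416) (.leaf (nat_lit 379388416)) (.leaf (nat_lit 379453952))))) (.node (nat_lit 379716096) (.node (nat_lit 379585024)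 (.node (nat_lit 379519488) (.leaf (nat_lit 379519488)) (.leaf (nat_lit 379585024))) (.node (nat_lit 379650560) (.leaf (nat_lit 379650560)) (.leaf (nat_lit 379716096)))) (.node (nat_lit 380043776) (.node (nat_lit 379978240) (.leaf (nat_lit 379978240)) (.leaf (nat_lit 380043776))) (.node (nat_lit 386597376) (.leaf (nat_lit 386597376)) (.leaf (nat_lit 386925056)))))) (.node (nat_lit 395248128) (.node (nat_lit 394854912) (.node (nat_lit 387580416) (.node (nat_lit 387252736) (.leaf (nat_lit 387252736)) (.leaf (nat_lit 387580416))) (.node (nat_lit 387908096) (.leaf (nat_lit 387908096)) (.leaf (nat_lit 394854912)))) (.node (nat_lit 395117056) (.node (nat_lit 395051520) (.leaf (nat_lit 395051520)) (.leaf (nat_lit 395117056))) (.node (nat_lit 395182592) (.leaf (nat_lit 395182592)) (.leaf (nat_lit 395248128))))) (.node (nat_lit 395510272) (.node (nat_lit 395379200) (.node (nat_lit 395313664) (.leaf (nat_lit 395313664)) (.leaf (nat_lit 395379200))) (.node (nat_lit 395444736) (.leaf (nat_lit 395444736)) (.leaf (nat_lit 395510272)))) (.node (nat_lit 395641344) (.node (nat_lit 395575808) (.leaf (nat_lit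 395575808)) (.leaf (nat_lit 395641344))) (.node (nat_lit 395706880) (.leaf (nat_lit 395706880)) (.leaf (nat_lit 395772416)))))))))

theorem u0_ok : u0.okU q Dt sp := KT.okU_leaf (by decide +kernel)

def u1 : KT := .node (nat_lit 1209008641) (.node (nat_lit 445579777) (.node (nat_lit 413008384) (.node (nat_lit 411959808) (.node (nat_lit 396624384) (.node (nat_lit 396034560) (.node (nat_lit 395903488) (.node (nat_lit 395837952) (.leaf (nat_lit 395837952)) (.leaf (nat_lit 395903488))) (.node (nat_lit 395969024) (.leaf (nat_lit 395969024)) (.leaf (nat_lit 396034560)))) (.node (nat_lit 396165632) (.node (nat_lit 396100096) (.leaf (nat_lit 396100096)) (.leaf (nat_lit 396165632))) (.node (nat_lit 396296704) (.leaf (nat_lit 396296704)) (.leaf (nat_lit 396624384))))) (.node (nat_lit 404357632) (.node (nat_lit 403702272) (.node (nat_lit 403374592) (.leaf (nat_lit 403374592)) (.leaf (nat_lit 403702272))) (.node (nat_lit 404029952) (.leaf (nat_lit 404029952)) (.leaf (nat_lit 404357632)))) (.node (nat_lit 411828736) (.node (nat_lit 411763200) (.leaf (nat_lit 411763200)) (.leaf (nat_lit 411828736)))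 (.node (nat_lit 411894272) (.leaf (nat_lit 411894272)) (.leaf (nat_lit 411959808)))))) (.node (nat_lit 412484096) (.node (nat_lit 412221952) (.node (nat_lit 412090880) (.node (nat_lit 412025344) (.leaf (nat_lit 412025344)) (.leaf (nat_lit 412090880))) (.node (nat_lit 412156416) (.leaf (nat_lit 412156416)) (.leaf (nat_lit 412221952)))) (.node (nat_lit 412353024) (.node (nat_lit 412287488) (.leaf (nat_lit 412287488)) (.leaf (nat_lit 412353024))) (.node (nat_lit 412418560) (.leaf (nat_lit 412418560)) (.leaf (nat_lit 412484096))))) (.node (nat_lit 412746240) (.node (nat_lit 412615168) (.node (nat_lit 412549632) (.leaf (nat_lit 412549632)) (.leaf (nat_lit 412615168))) (.node (nat_lit 412680704) (.leaf (nat_lit 412680704)) (.leaf (nat_lit 412746240)))) (.node (nat_lit 412877312) (.node (nat_lit 412811776) (.leaf (nat_lit 412811776)) (.leaf (nat_lit 412877312))) (.node (nat_lit 412942848) (.leaf (nat_lit 412942848)) (.leaf (nat_lit 413008384))))))) (.node (nat_lit 437387777) (.node (nat_lit 428868096) (.node (nat_lit 413467136) (.node (nat_lit 413139456) (.node (nat_lit 413073920) (.leaf (nat_lit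 413073920)) (.leaf (nat_lit 413139456))) (.node (nat_lit 413401600) (.leaf (nat_lit 413401600)) (.leaf (nat_lit 413467136)))) (.node (nat_lit 428605952) (.node (nat_lit 420479488) (.leaf (nat_lit 420479488)) (.leaf (nat_lit 428605952))) (.node (nat_lit 428737024) (.leaf (nat_lit 428737024)) (.leaf (nat_lit 428868096))))) (.node (nat_lit 437191169) (.node (nat_lit 429130240) (.node (nat_lit 428999168) (.leaf (nat_lit 428999168)) (.leaf (nat_lit 429130240))) (.node (nat_lit 437125633) (.leaf (nat_lit 437125633)) (.leaf (nat_lit 437191169)))) (.node (nat_lit 437256705) (.node (nat_lit 437256704) (.leaf (nat_lit 437256704)) (.leaf (nat_lit 437256705))) (.node (nat_lit 437322241) (.leaf (nat_lit 437322241)) (.leaf (nat_lit 437387777)))))) (.node (nat_lit 437912065) (.node (nat_lit 437649921) (.node (nat_lit 437518849) (.node (nat_lit 437453313) (.leaf (nat_lit 437453313)) (.leaf (nat_lit 437518849))) (.node (nat_lit 437584384) (.leaf (nat_lit 437584384)) (.leaf (nat_lit 437649921)))) (.node (nat_lit 437780993) (.node (nat_lit 437715457) (.leaf (nat_lit 437715457)) (.leaf (nat_lit 437780993)))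 (.node (nat_lit 437912064) (.leaf (nat_lit 437912064)) (.leaf (nat_lit 437912065))))) (.node (nat_lit 445448705) (.node (nat_lit 445383168) (.node (nat_lit 445317632) (.leaf (nat_lit 445317632)) (.leaf (nat_lit 445383168))) (.node (nat_lit 445448704) (.leaf (nat_lit 445448704)) (.leaf (nat_lit 445448705)))) (.node (nat_lit 445514241) (.node (nat_lit 445514240) (.leaf (nat_lit 445514240)) (.leaf (nat_lit 445514241))) (.node (nat_lit 445579776) (.leaf (nat_lit 445579776)) (.leaf (nat_lit 445579777)))))))) (.node (nat_lit 463471104) (.node (nat_lit 446104065) (.node (nat_lit 445841921) (.node (nat_lit 445710849) (.node (nat_lit 445645313) (.node (nat_lit 445645312) (.leaf (nat_lit 445645312)) (.leaf (nat_lit 445645313))) (.node (nat_lit 445710848) (.leaf (nat_lit 445710848)) (.leaf (nat_lit 445710849)))) (.node (nat_lit 445776385) (.node (nat_lit 445776384) (.leaf (nat_lit 445776384)) (.leaf (nat_lit 445776385))) (.node (nat_lit 445841920) (.leaf (nat_lit 445841920)) (.leaf (nat_lit 445841921))))) (.node (nat_lit 445972993) (.node (nat_lit 445907457) (.node (nat_lit 445907456) (.leaf (nat_lit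 445907456)) (.leaf (nat_lit 445907457))) (.node (nat_lit 445972992) (.leaf (nat_lit 445972992)) (.leaf (nat_lit 445972993)))) (.node (nat_lit 446038529) (.node (nat_lit 446038528) (.leaf (nat_lit 446038528)) (.leaf (nat_lit 446038529))) (.node (nat_lit 446104064) (.leaf (nat_lit 446104064)) (.leaf (nat_lit 446104065)))))) (.node (nat_lit 446562816) (.node (nat_lit 446300672) (.node (nat_lit 446169601) (.node (nat_lit 446169600) (.leaf (nat_lit 446169600)) (.leaf (nat_lit 446169601))) (.node (nat_lit 446235136) (.leaf (nat_lit 446235136)) (.leaf (nat_lit 446300672)))) (.node (nat_lit 446431744) (.node (nat_lit 446366208) (.leaf (nat_lit 446366208)) (.leaf (nat_lit 446431744))) (.node (nat_lit 446497280) (.leaf (nat_lit 446497280)) (.leaf (nat_lit 446562816))))) (.node (nat_lit 454361600) (.node (nat_lit 446890496) (.node (nat_lit 446824960) (.leaf (nat_lit 446824960)) (.leaf (nat_lit 446890496))) (.node (nat_lit 454033920) (.leaf (nat_lit 454033920)) (.leaf (nat_lit 454361600)))) (.node (nat_lit 462291456) (.node (nat_lit 454689280) (.leaf (nat_lit 454689280)) (.leaf (nat_lit 462291456)))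 (.node (nat_lit 462881280) (.leaf (nat_lit 462881280)) (.leaf (nat_lit 463471104))))))) (.node (nat_lit 529924609) (.node (nat_lit 521536001) (.node (nat_lit 521273857) (.node (nat_lit 471138816) (.node (nat_lit 470811136) (.leaf (nat_lit 470811136)) (.leaf (nat_lit 471138816))) (.node (nat_lit 471466496) (.leaf (nat_lit 471466496)) (.leaf (nat_lit 521273857)))) (.node (nat_lit 521404929) (.node (nat_lit 521339393) (.leaf (nat_lit 521339393)) (.leaf (nat_lit 521404929))) (.node (nat_lit 521470465) (.leaf (nat_lit 521470465)) (.leaf (nat_lit 521536001))))) (.node (nat_lit 529662465) (.node (nat_lit 521667073) (.node (nat_lit 521601537) (.leaf (nat_lit 521601537)) (.leaf (nat_lit 521667073))) (.node (nat_lit 529596929) (.leaf (nat_lit 529596929)) (.leaf (nat_lit 529662465)))) (.node (nat_lit 529793537) (.node (nat_lit 529728001) (.leaf (nat_lit 529728001)) (.leaf (nat_lit 529793537))) (.node (nat_lit 529859073) (.leaf (nat_lit 529859073)) (.leaf (nat_lit 529924609)))))) (.node (nat_lit 613941761) (.node (nat_lit 605487617) (.node (nat_lit 530055681) (.node (nat_lit 529990145) (.leaf (nat_lit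 529990145)) (.leaf (nat_lit 530055681))) (.node (nat_lit 605422081) (.leaf (nat_lit 605422081)) (.leaf (nat_lit 605487617)))) (.node (nat_lit 613810689) (.node (nat_lit 613745153) (.leaf (nat_lit 613745153)) (.leaf (nat_lit 613810689))) (.node (nat_lit 613876225) (.leaf (nat_lit 613876225)) (.leaf (nat_lit 613941761))))) (.node (nat_lit 1158808065) (.node (nat_lit 1125384705) (.node (nat_lit 614007297) (.leaf (nat_lit 614007297)) (.leaf (nat_lit 1125384705))) (.node (nat_lit 1142161921) (.leaf (nat_lit 1142161921)) (.leaf (nat_lit 1158808065)))) (.node (nat_lit 1175650817) (.node (nat_lit 1175585281) (.leaf (nat_lit 1175585281)) (.leaf (nat_lit 1175650817))) (.node (nat_lit 1192231425) (.leaf (nat_lit 1192231425)) (.leaf (nat_lit 1209008641))))))))) (.node (nat_lit 1377567233) (.node (nat_lit 1326449153) (.node (nat_lit 1276510721) (.node (nat_lit 1259471361) (.node (nat_lit 1242694145) (.node (nat_lit 1226048001) (.node (nat_lit 1209270785) (.leaf (nat_lit 1209270785)) (.leaf (nat_lit 1226048001))) (.node (nat_lit 1242497537) (.leaf (nat_lit 1242497537)) (.leaf (nat_lit 1242694145))))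 (.node (nat_lit 1242956289) (.node (nat_lit 1242825217) (.leaf (nat_lit 1242825217)) (.leaf (nat_lit 1242956289))) (.node (nat_lit 1243087361) (.leaf (nat_lit 1243087361)) (.leaf (nat_lit 1259471361))))) (.node (nat_lit 1259864577) (.node (nat_lit 1259602433) (.node (nat_lit 1259536897) (.leaf (nat_lit 1259536897)) (.leaf (nat_lit 1259602433))) (.node (nat_lit 1259733505) (.leaf (nat_lit 1259733505)) (.leaf (nat_lit 1259864577)))) (.node (nat_lit 1276248577) (.node (nat_lit 1276117505) (.leaf (nat_lit 1276117505)) (.leaf (nat_lit 1276248577))) (.node (nat_lit 1276379649) (.leaf (nat_lit 1276379649)) (.leaf (nat_lit 1276510721)))))) (.node (nat_lit 1293419009) (.node (nat_lit 1293025793) (.node (nat_lit 1276641793) (.node (nat_lit 1276576257) (.leaf (nat_lit 1276576257)) (.leaf (nat_lit 1276641793))) (.node (nat_lit 1292894721) (.leaf (nat_lit 1292894721)) (.leaf (nat_lit 1293025793)))) (.node (nat_lit 1293156865) (.node (nat_lit 1293091329) (.leaf (nat_lit 1293091329)) (.leaf (nat_lit 1293156865))) (.node (nat_lit 1293287937) (.leaf (nat_lit 1293287937)) (.leaf (nat_lit 1293419009)))))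 (.node (nat_lit 1309934081) (.node (nat_lit 1309803009) (.node (nat_lit 1309671937) (.leaf (nat_lit 1309671937)) (.leaf (nat_lit 1309803009))) (.node (nat_lit 1309868545) (.leaf (nat_lit 1309868545)) (.leaf (nat_lit 1309934081)))) (.node (nat_lit 1310130689) (.node (nat_lit 1310065153) (.leaf (nat_lit 1310065153)) (.leaf (nat_lit 1310130689))) (.node (nat_lit 1310196225) (.leaf (nat_lit 1310196225)) (.leaf (nat_lit 1326449153))))))) (.node (nat_lit 1360200193) (.node (nat_lit 1343422977) (.node (nat_lit 1326842369) (.node (nat_lit 1326645761) (.node (nat_lit 1326580225) (.leaf (nat_lit 1326580225)) (.leaf (nat_lit 1326645761))) (.node (nat_lit 1326711297) (.leaf (nat_lit 1326711297)) (.leaf (nat_lit 1326842369)))) (.node (nat_lit 1343226369) (.node (nat_lit 1326973441) (.leaf (nat_lit 1326973441)) (.leaf (nat_lit 1343226369))) (.node (nat_lit 1343357441) (.leaf (nat_lit 1343357441)) (.leaf (nat_lit 1343422977))))) (.node (nat_lit 1343750657) (.node (nat_lit 1343619585) (.node (nat_lit 1343488513) (.leaf (nat_lit 1343488513)) (.leaf (nat_lit 1343619585))) (.node (nat_lit 1343685121) (.leaf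 (nat_lit 1343685121)) (.leaf (nat_lit 1343750657)))) (.node (nat_lit 1360003585) (.node (nat_lit 1359348224) (.leaf (nat_lit 1359348224)) (.leaf (nat_lit 1360003585))) (.node (nat_lit 1360134657) (.leaf (nat_lit 1360134657)) (.leaf (nat_lit 1360200193)))))) (.node (nat_lit 1376780801) (.node (nat_lit 1360527873) (.node (nat_lit 1360396801) (.node (nat_lit 1360265729) (.leaf (nat_lit 1360265729)) (.leaf (nat_lit 1360396801))) (.node (nat_lit 1360462337) (.leaf (nat_lit 1360462337)) (.leaf (nat_lit 1360527873)))) (.node (nat_lit 1376453120) (.node (nat_lit 1376125440) (.leaf (nat_lit 1376125440)) (.leaf (nat_lit 1376453120))) (.node (nat_lit 1376780800) (.leaf (nat_lit 1376780800)) (.leaf (nat_lit 1376780801))))) (.node (nat_lit 1377174017) (.node (nat_lit 1376977409) (.node (nat_lit 1376911873) (.leaf (nat_lit 1376911873)) (.leaf (nat_lit 1376977409))) (.node (nat_lit 1377042945) (.leaf (nat_lit 1377042945)) (.leaf (nat_lit 1377174017)))) (.node (nat_lit 1377305089) (.node (nat_lit 1377239553) (.leaf (nat_lit 1377239553)) (.leaf (nat_lit 1377305089))) (.node (nat_lit 1377436161) (.leaf (nat_lit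 1377436161)) (.leaf (nat_lit 1377567233)))))))) (.node (nat_lit 1427243521) (.node (nat_lit 1410007552) (.node (nat_lit 1393820161) (.node (nat_lit 1393558016) (.node (nat_lit 1393230336) (.node (nat_lit 1392902656) (.leaf (nat_lit 1392902656)) (.leaf (nat_lit 1393230336))) (.node (nat_lit 1393492481) (.leaf (nat_lit 1393492481)) (.leaf (nat_lit 1393558016)))) (.node (nat_lit 1393689089) (.node (nat_lit 1393558017) (.leaf (nat_lit 1393558017)) (.leaf (nat_lit 1393689089))) (.node (nat_lit 1393754625) (.leaf (nat_lit 1393754625)) (.leaf (nat_lit 1393820161))))) (.node (nat_lit 1394213377) (.node (nat_lit 1394016769) (.node (nat_lit 1393951233) (.leaf (nat_lit 1393951233)) (.leaf (nat_lit 1394016769))) (.node (nat_lit 1394082305) (.leaf (nat_lit 1394082305)) (.leaf (nat_lit 1394213377)))) (.node (nat_lit 1394344449) (.node (nat_lit 1394278913) (.leaf (nat_lit 1394278913)) (.leaf (nat_lit 1394344449))) (.node (nat_lit 1409679872) (.leaf (nat_lit 1409679872)) (.leaf (nat_lit 1410007552)))))) (.node (nat_lit 1410859521) (.node (nat_lit 1410531841) (.node (nat_lit 1410335233) (.node (nat_lit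 1410335232) (.leaf (nat_lit 1410335232)) (.leaf (nat_lit 1410335233))) (.node (nat_lit 1410466305) (.leaf (nat_lit 1410466305)) (.leaf (nat_lit 1410531841)))) (.node (nat_lit 1410728449) (.node (nat_lit 1410597377) (.leaf (nat_lit 1410597377)) (.leaf (nat_lit 1410728449))) (.node (nat_lit 1410793985) (.leaf (nat_lit 1410793985)) (.leaf (nat_lit 1410859521))))) (.node (nat_lit 1426457088) (.node (nat_lit 1411056129) (.node (nat_lit 1410990593) (.leaf (nat_lit 1410990593)) (.leaf (nat_lit 1411056129))) (.node (nat_lit 1411121665) (.leaf (nat_lit 1411121665)) (.leaf (nat_lit 1426457088)))) (.node (nat_lit 1427112448) (.node (nat_lit 1426784768) (.leaf (nat_lit 1426784768)) (.leaf (nat_lit 1427112448))) (.node (nat_lit 1427112449) (.leaf (nat_lit 1427112449)) (.leaf (nat_lit 1427243521))))))) (.node (nat_lit 1444217345) (.node (nat_lit 1427898881) (.node (nat_lit 1427571201) (.node (nat_lit 1427374593) (.node (nat_lit 1427309057) (.leaf (nat_lit 1427309057)) (.leaf (nat_lit 1427374593))) (.node (nat_lit 1427505665) (.leaf (nat_lit 1427505665)) (.leaf (nat_lit 1427571201)))) (.node (nat_lit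 1427767809) (.node (nat_lit 1427636737) (.leaf (nat_lit 1427636737)) (.leaf (nat_lit 1427767809))) (.node (nat_lit 1427833345) (.leaf (nat_lit 1427833345)) (.leaf (nat_lit 1427898881))))) (.node (nat_lit 1443955201) (.node (nat_lit 1443889664) (.node (nat_lit 1443561984) (.leaf (nat_lit 1443561984)) (.leaf (nat_lit 1443889664))) (.node (nat_lit 1443889665) (.leaf (nat_lit 1443889665)) (.leaf (nat_lit 1443955201)))) (.node (nat_lit 1444086273) (.node (nat_lit 1444020737) (.leaf (nat_lit 1444020737)) (.leaf (nat_lit 1444086273))) (.node (nat_lit 1444151809) (.leaf (nat_lit 1444151809)) (.leaf (nat_lit 1444217345)))))) (.node (nat_lit 1460666880) (.node (nat_lit 1444545025) (.node (nat_lit 1444348417) (.node (nat_lit 1444282881) (.leaf (nat_lit 1444282881)) (.leaf (nat_lit 1444348417))) (.node (nat_lit 1444413953) (.leaf (nat_lit 1444413953)) (.leaf (nat_lit 1444545025)))) (.node (nat_lit 1444676097) (.node (nat_lit 1444610561) (.leaf (nat_lit 1444610561)) (.leaf (nat_lit 1444676097))) (.node (nat_lit 1460339200) (.leaf (nat_lit 1460339200)) (.leaf (nat_lit 1460666880))))) (.node (nat_lit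 1460929025) (.node (nat_lit 1460797953) (.node (nat_lit 1460666881) (.leaf (nat_lit 1460666881)) (.leaf (nat_lit 1460797953))) (.node (nat_lit 1460863489) (.leaf (nat_lit 1460863489)) (.leaf (nat_lit 1460929025)))) (.node (nat_lit 1461060097) (.node (nat_lit 1460994561) (.leaf (nat_lit 1460994561)) (.leaf (nat_lit 1461060097))) (.node (nat_lit 1461125633) (.leaf (nat_lit 1461125633)) (.leaf (nat_lit 1461191169)))))))))

theorem u1_ok : u1.okU q Dt sp := KT.okU_leaf (by decide +kernel)

def u2 : KT := .node (nat_lit 1545142785) (.node (nat_lit 1511064065) (.node (nat_lit 1478230529) (.node (nat_lit 1477640705) (.node (nat_lit 1477444096) (.node (nat_lit 1461453313) (.node (nat_lit 1461387777) (.node (nat_lit 1461322241) (.leaf (nat_lit 1461322241)) (.leaf (nat_lit 1461387777))) (.leaf (nat_lit 1461453313))) (.node (nat_lit 1477116416) (.leaf (nat_lit 1477116416)) (.leaf (nat_lit 1477444096)))) (.node (nat_lit 1477509633) (.node (nat_lit 1477444097) (.leaf (nat_lit 1477444097)) (.leaf (nat_lit 1477509633))) (.node (nat_lit 1477575169) (.leaf (nat_lit 1477575169)) (.leaf (nat_lit 1477640705)))))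 (.node (nat_lit 1477902849) (.node (nat_lit 1477771777) (.node (nat_lit 1477706241) (.leaf (nat_lit 1477706241)) (.leaf (nat_lit 1477771777))) (.node (nat_lit 1477837313) (.leaf (nat_lit 1477837313)) (.leaf (nat_lit 1477902849)))) (.node (nat_lit 1478099457) (.node (nat_lit 1477968385) (.leaf (nat_lit 1477968385)) (.leaf (nat_lit 1478099457))) (.node (nat_lit 1478164993) (.leaf (nat_lit 1478164993)) (.leaf (nat_lit 1478230529)))))) (.node (nat_lit 1494614529) (.node (nat_lit 1494352385) (.node (nat_lit 1494221312) (.node (nat_lit 1493893632) (.leaf (nat_lit 1493893632)) (.leaf (nat_lit 1494221312))) (.node (nat_lit 1494221313) (.leaf (nat_lit 1494221313)) (.leaf (nat_lit 1494352385)))) (.node (nat_lit 1494483457) (.node (nat_lit 1494417921) (.leaf (nat_lit 1494417921)) (.leaf (nat_lit 1494483457))) (.node (nat_lit 1494548993) (.leaf (nat_lit 1494548993)) (.leaf (nat_lit 1494614529))))) (.node (nat_lit 1494942209) (.node (nat_lit 1494745601) (.node (nat_lit 1494680065) (.leaf (nat_lit 1494680065)) (.leaf (nat_lit 1494745601))) (.node (nat_lit 1494876673) (.leaf (nat_lit 1494876673)) (.leaf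 (nat_lit 1494942209)))) (.node (nat_lit 1510998528) (.node (nat_lit 1495007745) (.leaf (nat_lit 1495007745)) (.leaf (nat_lit 1510998528))) (.node (nat_lit 1510998529) (.leaf (nat_lit 1510998529)) (.leaf (nat_lit 1511064065))))))) (.node (nat_lit 1528168961) (.node (nat_lit 1511719425) (.node (nat_lit 1511391745) (.node (nat_lit 1511195137) (.node (nat_lit 1511129601) (.leaf (nat_lit 1511129601)) (.leaf (nat_lit 1511195137))) (.node (nat_lit 1511260673) (.leaf (nat_lit 1511260673)) (.leaf (nat_lit 1511391745)))) (.node (nat_lit 1511522817) (.node (nat_lit 1511457281) (.leaf (nat_lit 1511457281)) (.leaf (nat_lit 1511522817))) (.node (nat_lit 1511653889) (.leaf (nat_lit 1511653889)) (.leaf (nat_lit 1511719425))))) (.node (nat_lit 1527906817) (.node (nat_lit 1527775744) (.node (nat_lit 1511784961) (.leaf (nat_lit 1511784961)) (.leaf (nat_lit 1527775744))) (.node (nat_lit 1527775745) (.leaf (nat_lit 1527775745)) (.leaf (nat_lit 1527906817)))) (.node (nat_lit 1528037889) (.node (nat_lit 1527972353) (.leaf (nat_lit 1527972353)) (.leaf (nat_lit 1528037889))) (.node (nat_lit 1528103425) (.leaf (nat_lit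 1528103425)) (.leaf (nat_lit 1528168961)))))) (.node (nat_lit 1544552961) (.node (nat_lit 1528496641) (.node (nat_lit 1528300033) (.node (nat_lit 1528234497) (.leaf (nat_lit 1528234497)) (.leaf (nat_lit 1528300033))) (.node (nat_lit 1528431105) (.leaf (nat_lit 1528431105)) (.leaf (nat_lit 1528496641)))) (.node (nat_lit 1544487425) (.node (nat_lit 1528562177) (.leaf (nat_lit 1528562177)) (.leaf (nat_lit 1544487425))) (.node (nat_lit 1544552960) (.leaf (nat_lit 1544552960)) (.leaf (nat_lit 1544552961))))) (.node (nat_lit 1544815105) (.node (nat_lit 1544684033) (.node (nat_lit 1544618497) (.leaf (nat_lit 1544618497)) (.leaf (nat_lit 1544684033))) (.node (nat_lit 1544749569) (.leaf (nat_lit 1544749569)) (.leaf (nat_lit 1544815105)))) (.node (nat_lit 1545011713) (.node (nat_lit 1544946177) (.leaf (nat_lit 1544946177)) (.leaf (nat_lit 1545011713))) (.node (nat_lit 1545077249) (.leaf (nat_lit 1545077249)) (.leaf (nat_lit 1545142785)))))))) (.node (nat_lit 1595343361) (.node (nat_lit 1578172929) (.node (nat_lit 1561657857) (.node (nat_lit 1561330177) (.node (nat_lit 1545339393) (.node (nat_lit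 1545273857) (.node (nat_lit 1545208321) (.leaf (nat_lit 1545208321)) (.leaf (nat_lit 1545273857))) (.leaf (nat_lit 1545339393))) (.node (nat_lit 1561330176) (.leaf (nat_lit 1561330176)) (.leaf (nat_lit 1561330177)))) (.node (nat_lit 1561526785) (.node (nat_lit 1561461249) (.leaf (nat_lit 1561461249)) (.leaf (nat_lit 1561526785))) (.node (nat_lit 1561592321) (.leaf (nat_lit 1561592321)) (.leaf (nat_lit 1561657857))))) (.node (nat_lit 1561985537) (.node (nat_lit 1561788929) (.node (nat_lit 1561723393) (.leaf (nat_lit 1561723393)) (.leaf (nat_lit 1561788929))) (.node (nat_lit 1561854465) (.leaf (nat_lit 1561854465)) (.leaf (nat_lit 1561985537)))) (.node (nat_lit 1562116609) (.node (nat_lit 1562051073) (.leaf (nat_lit 1562051073)) (.leaf (nat_lit 1562116609))) (.node (nat_lit 1578107393) (.leaf (nat_lit 1578107393)) (.leaf (nat_lit 1578172929)))))) (.node (nat_lit 1578762753) (.node (nat_lit 1578500609) (.node (nat_lit 1578304001) (.node (nat_lit 1578238465) (.leaf (nat_lit 1578238465)) (.leaf (nat_lit 1578304001))) (.node (nat_lit 1578369537) (.leaf (nat_lit 1578369537)) (.leaf (nat_lit 1578500609))))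 (.node (nat_lit 1578631681) (.node (nat_lit 1578566145) (.leaf (nat_lit 1578566145)) (.leaf (nat_lit 1578631681))) (.node (nat_lit 1578697217) (.leaf (nat_lit 1578697217)) (.leaf (nat_lit 1578762753))))) (.node (nat_lit 1595015681) (.node (nat_lit 1578893825) (.node (nat_lit 1578828289) (.leaf (nat_lit 1578828289)) (.leaf (nat_lit 1578893825))) (.node (nat_lit 1594884609) (.leaf (nat_lit 1594884609)) (.leaf (nat_lit 1595015681)))) (.node (nat_lit 1595212289) (.node (nat_lit 1595146753) (.leaf (nat_lit 1595146753)) (.leaf (nat_lit 1595212289))) (.node (nat_lit 1595277825) (.leaf (nat_lit 1595277825)) (.leaf (nat_lit 1595343361))))))) (.node (nat_lit 1628963329) (.node (nat_lit 1612251649) (.node (nat_lit 1595671041) (.node (nat_lit 1595539969) (.node (nat_lit 1595408897) (.leaf (nat_lit 1595408897)) (.leaf (nat_lit 1595539969))) (.node (nat_lit 1595605505) (.leaf (nat_lit 1595605505)) (.leaf (nat_lit 1595671041)))) (.node (nat_lit 1612055041) (.node (nat_lit 1611923969) (.leaf (nat_lit 1611923969)) (.leaf (nat_lit 1612055041))) (.node (nat_lit 1612186113) (.leaf (nat_lit 1612186113)) (.leaf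 (nat_lit 1612251649))))) (.node (nat_lit 1628635649) (.node (nat_lit 1612382721) (.node (nat_lit 1612317185) (.leaf (nat_lit 1612317185)) (.leaf (nat_lit 1612382721))) (.node (nat_lit 1612448257) (.leaf (nat_lit 1612448257)) (.leaf (nat_lit 1628635649)))) (.node (nat_lit 1628766721) (.node (nat_lit 1628701185) (.leaf (nat_lit 1628701185)) (.leaf (nat_lit 1628766721))) (.node (nat_lit 1628832257) (.leaf (nat_lit 1628832257)) (.leaf (nat_lit 1628963329)))))) (.node (nat_lit 1679294977) (.node (nat_lit 1645806081) (.node (nat_lit 1645478401) (.node (nat_lit 1629094401) (.leaf (nat_lit 1629094401)) (.leaf (nat_lit 1645478401))) (.node (nat_lit 1645740545) (.leaf (nat_lit 1645740545)) (.leaf (nat_lit 1645806081)))) (.node (nat_lit 1645937153) (.node (nat_lit 1645871617) (.leaf (nat_lit 1645871617)) (.leaf (nat_lit 1645937153))) (.node (nat_lit 1662517761) (.leaf (nat_lit 1662517761)) (.leaf (nat_lit 1679294977))))) (.node (nat_lit 69140284160) (.node (nat_lit 1712783873) (.node (nat_lit 1679360513) (.leaf (nat_lit 1679360513)) (.leaf (nat_lit 1712783873))) (.node (nat_lit 69073175296) (.leaf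 (nat_lit 69073175296)) (.leaf (nat_lit 69140284160)))) (.node (nat_lit 90481230592) (.node (nat_lit 90480902912) (.leaf (nat_lit 90480902912)) (.leaf (nat_lit 90481230592))) (.node (nat_lit 90548339456) (.leaf (nat_lit 90548339456)) (.leaf (nat_lit 90615120640))))))))

theorem u2_ok : u2.okU q Dt sp := KT.okU_leaf (by decide +kernel)

end Walk26.P0
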